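import Mathlib

set_option autoImplicit false

/-!
# Markushevich's theorem with dense spans on both sides

In an infinite-dimensional normed space, given sequences `a` in `E` and `b` in the dual, there is a
biorthogonal system `(e, z)` with every `a k` in the span of `e` and every `b k` in the span of `z`.
-/

namespace Pool.Agent.W687.Mark

open Finset

variable {𝕜 : Type*} [RCLike 𝕜] {E : Type*} [NormedAddCommGroup E] [NormedSpace 𝕜 E]

/-- a finite biorthogonal system stored in the first `n` entries of two sequences -/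
def Good (n : ℕ) (e : ℕ → E) (z : ℕ → StrongDual 𝕜 E) : Prop :=
  ∀ i < n, ∀ j < n, z i (e j) = if i = j then 1 else 0

theorem exists_notMem_span (h : ¬ FiniteDimensional 𝕜 E) (s : Set E) (hs : s.Finite) :
    ∃ v, v ∉ Submodule.span 𝕜 s := by
  by_contra hcon
  push Not at hcon
  apply h
  have h1 : Submodule.span 𝕜 s = ⊤ := eq_top_iff.2 fun v _ => hcon v
  have h2 : FiniteDimensional 𝕜 (Submodule.span 𝕜 s) := FiniteDimensional.span_of_finite 𝕜 hs
  rw [h1] at h2
  exact Module.Finite.of_surjective (Submodule.topEquiv (R := 𝕜) (M := E)).toLinearMap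
    (Submodule.topEquiv (R := 𝕜) (M := E)).surjective

/-- first kind of step: capture a vector -/
theorem step_vec (hinf : ¬ FiniteDimensional 𝕜 E) (n : ℕ) (e : ℕ → E)
    (z : ℕ → StrongDual 𝕜 E) (hg : Good n e z) (a : E) :
    ∃ (e' : E) (z' : StrongDual 𝕜 E),
      Good (n + 1) (Function.update e n e') (Function.update z n z') ∧
      a ∈ Submodule.span 𝕜 (Function.update e n e' '' (range (n + 1) : Finset ℕ)) := by
  classical
  -- a vector outside the span
  obtain ⟨a', ha', haa'⟩ : ∃ a' : E, a' ∉ Submodule.span 𝕜 (e '' (range n : Finset ℕ)) ∧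
      (a ∈ Submodule.span 𝕜 (e '' (range n : Finset ℕ)) ∨ a' = a) := by
    by_cases ha : a ∈ Submodule.span 𝕜 (e '' (range n : Finset ℕ))
    · obtain ⟨a', ha'⟩ := exists_notMem_span hinf (e '' (range n : Finset ℕ))
        ((range n).finite_toSet.image e)
      exact ⟨a', ha', Or.inl ha⟩
    · exact ⟨a, ha, Or.inr rfl⟩
  set e' : E := a' - ∑ i ∈ range n, z i a' • e i with he'
  have hsum : ∑ i ∈ range n, z i a' • e i ∈ Submodule.span 𝕜 (e '' (range n : Finset ℕ)) :=
    Submodule.sum_mem _ fun i hi => Submodule.smul_mem _ _ (Submodule.subset_span ⟨i, hi, rfl⟩)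
  have he'0 : e' ≠ 0 := by
    intro h
    apply ha'
    rw [he', sub_eq_zero] at h
    rw [h]
    exact hsum
  have hze' : ∀ j < n, z j e' = 0 := by
    intro j hj
    rw [he', map_sub, map_sum, Finset.sum_eq_single j]
    · rw [map_smul, hg j hj j hj, if_pos rfl, smul_eq_mul, mul_one, sub_self]
    · intro i hi hij
      rw [map_smul, hg j hj i (Finset.mem_range.1 hi), if_neg (fun h => hij h.symm), smul_zero]
    · intro h; exact absurd (Finset.mem_range.2 hj) h
  obtain ⟨g, _, hg2⟩ := exists_dual_vector 𝕜 e' (norm_ne_zero_iff.2 he'0)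
  have hn0 : (‖e'‖ : 𝕜) ≠ 0 := by exact_mod_cast (norm_ne_zero_iff.2 he'0)
  set g1 : StrongDual 𝕜 E := (‖e'‖ : 𝕜)⁻¹ • g with hg1
  have hg1e : g1 e' = 1 := by
    rw [hg1]
    show (‖e'‖ : 𝕜)⁻¹ * g e' = 1
    rw [hg2, inv_mul_cancel₀ hn0]
  set z' : StrongDual 𝕜 E := g1 - ∑ i ∈ range n, g1 (e i) • z i with hz'
  have hz'v : ∀ v, z' v = g1 v - ∑ i ∈ range n, g1 (e i) * z i v := by
    intro v
    rw [hz', sub_apply, _root_.sum_apply]
    rfl
  have hz'e : ∀ j < n, z' (e j) = 0 := by
    intro j hj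
    rw [hz'v, Finset.sum_eq_single j]
    · rw [hg j hj j hj, if_pos rfl, mul_one, sub_self]
    · intro i hi hij
      rw [hg i (Finset.mem_range.1 hi) j hj, if_neg hij, mul_zero]
    · intro h; exact absurd (Finset.mem_range.2 hj) h
  have hz'e' : z' e' = 1 := by
    rw [hz'v, hg1e, Finset.sum_eq_zero, sub_zero]
    intro i hi
    rw [hze' i (Finset.mem_range.1 hi), mul_zero]
  refine ⟨e', z', ?_, ?_⟩
  · intro i hi j hj
    rcases Nat.lt_succ_iff_lt_or_eq.1 hi with hi' | rfl
    · rcases Nat.lt_succ_iff_lt_or_eq.1 hj with hj' | rfl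
      · rw [Function.update_of_ne hi'.ne, Function.update_of_ne hj'.ne]
        exact hg i hi' j hj'
      · rw [Function.update_of_ne hi'.ne, Function.update_self, if_neg hi'.ne]
        exact hze' i hi'
    · rcases Nat.lt_succ_iff_lt_or_eq.1 hj with hj' | rfl
      · rw [Function.update_of_ne hj'.ne, Function.update_self, if_neg hj'.ne']
        exact hz'e j hj'
      · rw [Function.update_self, Function.update_self, if_pos rfl]
        exact hz'e'
  · have hold : Submodule.span 𝕜 (e '' (range n : Finset ℕ)) ≤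
        Submodule.span 𝕜 (Function.update e n e' '' (range (n + 1) : Finset ℕ)) := by
      rw [Submodule.span_le]
      rintro _ ⟨i, hi, rfl⟩
      have hi' : i < n := by simpa using hi
      refine Submodule.subset_span ⟨i, by simp; omega, ?_⟩
      rw [Function.update_of_ne hi'.ne]
    rcases haa' with h | h
    · exact hold h
    · rw [← h]
      have h1 : a' = e' + ∑ i ∈ range n, z i a' • e i := by rw [he']; abel
      rw [h1]
      refine Submodule.add_mem _ (Submodule.subset_span ⟨n, by simp, ?_⟩) (hold hsum)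
      rw [Function.update_self]

/-- second kind of step: capture a functional -/
theorem step_fun (hinf : ¬ FiniteDimensional 𝕜 (StrongDual 𝕜 E)) (n : ℕ) (e : ℕ → E)
    (z : ℕ → StrongDual 𝕜 E) (hg : Good n e z) (b : StrongDual 𝕜 E) :
    ∃ (e' : E) (z' : StrongDual 𝕜 E),
      Good (n + 1) (Function.update e n e') (Function.update z n z') ∧
      b ∈ Submodule.span 𝕜 (Function.update z n z' '' (range (n + 1) : Finset ℕ)) := by
  classical
  obtain ⟨b', hb', hbb'⟩ : ∃ b' : StrongDual 𝕜 E,
      b' ∉ Submodule.span 𝕜 (z '' (range n : Finset ℕ)) ∧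
      (b ∈ Submodule.span 𝕜 (z '' (range n : Finset ℕ)) ∨ b' = b) := by
    by_cases hb : b ∈ Submodule.span 𝕜 (z '' (range n : Finset ℕ))
    · obtain ⟨b', hb'⟩ := exists_notMem_span hinf (z '' (range n : Finset ℕ))
        ((range n).finite_toSet.image z)
      exact ⟨b', hb', Or.inl hb⟩
    · exact ⟨b, hb, Or.inr rfl⟩
  set z' : StrongDual 𝕜 E := b' - ∑ i ∈ range n, b' (e i) • z i with hz'
  have hsum : ∑ i ∈ range n, b' (e i) • z i ∈ Submodule.span 𝕜 (z '' (range n : Finset ℕ)) :=
    Submodule.sum_mem _ fun i hi => Submodule.smul_mem _ _ (Submodule.subset_span ⟨i, hi, rfl⟩)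
  have hz'0 : z' ≠ 0 := by
    intro h
    apply hb'
    rw [hz', sub_eq_zero] at h
    rw [h]
    exact hsum
  have hz'v : ∀ v, z' v = b' v - ∑ i ∈ range n, b' (e i) * z i v := by
    intro v
    rw [hz', sub_apply, _root_.sum_apply]
    rfl
  have hz'e : ∀ j < n, z' (e j) = 0 := by
    intro j hj
    rw [hz'v, Finset.sum_eq_single j]
    · rw [hg j hj j hj, if_pos rfl, mul_one, sub_self]
    · intro i hi hij
      rw [hg i (Finset.mem_range.1 hi) j hj, if_neg hij, mul_zero]
    · intro h; exact absurd (Finset.mem_range.2 hj) h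
  obtain ⟨v, hv⟩ : ∃ v, z' v ≠ 0 := by
    by_contra hcon
    push Not at hcon
    exact hz'0 (ContinuousLinearMap.ext hcon)
  obtain ⟨v1, hz'v1⟩ : ∃ v1, z' v1 = 1 :=
    ⟨(z' v)⁻¹ • v, by rw [map_smul, smul_eq_mul, inv_mul_cancel₀ hv]⟩
  set e' : E := v1 - ∑ i ∈ range n, z i v1 • e i with he'
  have hze' : ∀ j < n, z j e' = 0 := by
    intro j hj
    rw [he', map_sub, map_sum, Finset.sum_eq_single j]
    · rw [map_smul, hg j hj j hj, if_pos rfl, smul_eq_mul, mul_one, sub_self]
    · intro i hi hij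
      rw [map_smul, hg j hj i (Finset.mem_range.1 hi), if_neg (fun h => hij h.symm), smul_zero]
    · intro h; exact absurd (Finset.mem_range.2 hj) h
  have hz'e' : z' e' = 1 := by
    rw [he', map_sub, hz'v1, map_sum, Finset.sum_eq_zero, sub_zero]
    intro i hi
    rw [map_smul, hz'e i (Finset.mem_range.1 hi), smul_zero]
  refine ⟨e', z', ?_, ?_⟩
  · intro i hi j hj
    rcases Nat.lt_succ_iff_lt_or_eq.1 hi with hi' | rfl
    · rcases Nat.lt_succ_iff_lt_or_eq.1 hj with hj' | rfl
      · rw [Function.update_of_ne hi'.ne, Function.update_of_ne hj'.ne]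
        exact hg i hi' j hj'
      · rw [Function.update_of_ne hi'.ne, Function.update_self, if_neg hi'.ne]
        exact hze' i hi'
    · rcases Nat.lt_succ_iff_lt_or_eq.1 hj with hj' | rfl
      · rw [Function.update_of_ne hj'.ne, Function.update_self, if_neg hj'.ne']
        exact hz'e j hj'
      · rw [Function.update_self, Function.update_self, if_pos rfl]
        exact hz'e'
  · have hold : Submodule.span 𝕜 (z '' (range n : Finset ℕ)) ≤
        Submodule.span 𝕜 (Function.update z n z' '' (range (n + 1) : Finset ℕ)) := by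
      rw [Submodule.span_le]
      rintro _ ⟨i, hi, rfl⟩
      have hi' : i < n := by simpa using hi
      refine Submodule.subset_span ⟨i, by simp; omega, ?_⟩
      rw [Function.update_of_ne hi'.ne]
    rcases hbb' with h | h
    · exact hold h
    · rw [← h]
      have h1 : b' = z' + ∑ i ∈ range n, b' (e i) • z i := by rw [hz']; abel
      rw [h1]
      refine Submodule.add_mem _ (Submodule.subset_span ⟨n, by simp, ?_⟩) (hold hsum)
      rw [Function.update_self]

/-- the state after `n` steps -/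
def St (𝕜 : Type*) [RCLike 𝕜] (E : Type*) [NormedAddCommGroup E] [NormedSpace 𝕜 E] (n : ℕ) :
    Type _ := {p : (ℕ → E) × (ℕ → StrongDual 𝕜 E) // Good n p.1 p.2}

theorem exists_step (hinf : ¬ FiniteDimensional 𝕜 E)
    (hinf' : ¬ FiniteDimensional 𝕜 (StrongDual 𝕜 E)) (a : ℕ → E) (b : ℕ → StrongDual 𝕜 E)
    (n : ℕ) (s : St 𝕜 E n) : ∃ s' : St 𝕜 E (n + 1),
      (∀ i < n, s'.1.1 i = s.1.1 i ∧ s'.1.2 i = s.1.2 i) ∧
      (∀ k, n = 2 * k → a k ∈ Submodule.span 𝕜 (s'.1.1 '' (range (n + 1) : Finset ℕ))) ∧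
      (∀ k, n = 2 * k + 1 → b k ∈ Submodule.span 𝕜 (s'.1.2 '' (range (n + 1) : Finset ℕ))) := by
  classical
  obtain ⟨⟨e, z⟩, hg⟩ := s
  rcases Nat.even_or_odd' n with ⟨k, hk | hk⟩
  · obtain ⟨e', z', h1, h2⟩ := step_vec hinf n e z hg (a k)
    refine ⟨⟨(Function.update e n e', Function.update z n z'), h1⟩, ?_, ?_, ?_⟩
    · intro i hi
      exact ⟨Function.update_of_ne hi.ne _ _, Function.update_of_ne hi.ne _ _⟩
    · intro k' hk'
      have : k' = k := by omega
      subst this
      exact h2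
    · intro k' hk'
      omega
  · obtain ⟨e', z', h1, h2⟩ := step_fun hinf' n e z hg (b k)
    refine ⟨⟨(Function.update e n e', Function.update z n z'), h1⟩, ?_, ?_, ?_⟩
    · intro i hi
      exact ⟨Function.update_of_ne hi.ne _ _, Function.update_of_ne hi.ne _ _⟩
    · intro k' hk'
      omega
    · intro k' hk'
      have : k' = k := by omega
      subst this
      exact h2

/-- **Markushevich's theorem**, two-sided form. -/
theorem exists_biorthogonal (hinf : ¬ FiniteDimensional 𝕜 E)
    (hinf' : ¬ FiniteDimensional 𝕜 (StrongDual 𝕜 E)) (a : ℕ → E) (b : ℕ → StrongDual 𝕜 E) :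
    ∃ (e : ℕ → E) (z : ℕ → StrongDual 𝕜 E), (∀ i j, z i (e j) = if i = j then 1 else 0) ∧
      (∀ k, a k ∈ Submodule.span 𝕜 (Set.range e)) ∧
      (∀ k, b k ∈ Submodule.span 𝕜 (Set.range z)) := by
  classical
  have hstep := exists_step hinf hinf' a b
  choose f hf1 hf2 hf3 using hstep
  let s : ∀ n, St 𝕜 E n := fun n => Nat.rec ⟨(0, 0), fun i hi => absurd hi (Nat.not_lt_zero _)⟩
    (fun n s => f n s) n
  have hs : ∀ n, s (n + 1) = f n (s n) := fun n => rfl
  -- the entries stabilise
  have hstab : ∀ n m, ∀ i < n, (s (n + m)).1.1 i = (s n).1.1 i ∧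
      (s (n + m)).1.2 i = (s n).1.2 i := by
    intro n m i hi
    induction m with
    | zero => exact ⟨rfl, rfl⟩
    | succ m ih =>
      have h1 := hf1 (n + m) (s (n + m)) i (by omega)
      rw [← add_assoc, hs]
      exact ⟨h1.1.trans ih.1, h1.2.trans ih.2⟩
  let e : ℕ → E := fun i => (s (i + 1)).1.1 i
  let z : ℕ → StrongDual 𝕜 E := fun i => (s (i + 1)).1.2 i
  have hE : ∀ n, ∀ i < n, (s n).1.1 i = e i ∧ (s n).1.2 i = z i := by
    intro n i hi
    have h1 := hstab (i + 1) (n - (i + 1)) i (Nat.lt_succ_self i)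
    have h2 : i + 1 + (n - (i + 1)) = n := by omega
    rw [h2] at h1
    exact h1
  refine ⟨e, z, ?_, ?_, ?_⟩
  · intro i j
    have h1 := (s (max i j + 1)).2 i (by omega) j (by omega)
    rw [(hE (max i j + 1) i (by omega)).2, (hE (max i j + 1) j (by omega)).1] at h1
    exact h1
  · intro k
    have h1 := hf2 (2 * k) (s (2 * k)) k rfl
    rw [← hs] at h1
    refine Submodule.span_mono ?_ h1
    rintro _ ⟨i, hi, rfl⟩
    have hi' : i < 2 * k + 1 := by simpa using hi
    exact ⟨i, ((hE (2 * k + 1) i hi').1).symm⟩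
  · intro k
    have h1 := hf3 (2 * k + 1) (s (2 * k + 1)) k rfl
    rw [← hs] at h1
    refine Submodule.span_mono ?_ h1
    rintro _ ⟨i, hi, rfl⟩
    have hi' : i < 2 * k + 1 + 1 := by simpa using hi
    exact ⟨i, ((hE (2 * k + 1 + 1) i hi').2).symm⟩

end Pool.Agent.W687.Mark
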