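import Pool.Agent.W687.RotPlane

/-!
# Transitive spaces with an isometric reflection are Hilbert spaces
-/

set_option autoImplicit false

namespace Pool.Agent.W687.Rot

variable {E : Type*} [NormedAddCommGroup E] [NormedSpace ℝ E]

/-- the isometric reflection in the direction of `e`, given by the functional `f` -/
def IsRefl (e : E) (f : E →ₗ[ℝ] ℝ) : Prop := f e = 2 ∧ ∀ z, ‖z - f z • e‖ = ‖z‖

lemma IsRefl.abs_le {e : E} {f : E →ₗ[ℝ] ℝ} (h : IsRefl e f) (he : ‖e‖ = 1) (z : E) :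
    |f z| ≤ 2 * ‖z‖ := by
  have h1 : f z • e = z - (z - f z • e) := by abel
  have h2 : ‖f z • e‖ ≤ ‖z‖ + ‖z - f z • e‖ := by
    nth_rewrite 1 [h1]
    exact norm_sub_le _ _
  rw [h.2, norm_smul, he, mul_one, Real.norm_eq_abs] at h2
  linarith

/-- in a plane all whose unit vectors admit reflections the norm is Euclidean -/
lemma plane_of_refl (H : ∀ e : E, ‖e‖ = 1 → ∃ f : E →ₗ[ℝ] ℝ, IsRefl e f)
    (e e' : E) (he : ‖e‖ = 1) (he' : ‖e'‖ = 1) (f : E →ₗ[ℝ] ℝ) (hf : IsRefl e f)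
    (hfe' : f e' = 0) (p q : ℝ) : ‖p • e + q • e'‖ ^ 2 = p ^ 2 + q ^ 2 := by
  set n : ℝ → ℝ → ℝ := fun p q => ‖p • e + q • e'‖ with hndef
  have hfpq : ∀ p q : ℝ, f (p • e + q • e') = 2 * p := by
    intro p q
    rw [map_add, map_smul, map_smul, hf.1, hfe', smul_zero, add_zero, smul_eq_mul, mul_comm]
  have hs1 : ∀ p q, n (-p) q = n p q := by
    intro p q
    show ‖(-p) • e + q • e'‖ = ‖p • e + q • e'‖
    rw [← hf.2 (p • e + q • e'), hfpq]
    congr 1
    module
  have hhom : ∀ t p q, n (t * p) (t * q) = |t| * n p q := by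
    intro t p q
    show ‖(t * p) • e + (t * q) • e'‖ = |t| * ‖p • e + q • e'‖
    rw [← Real.norm_eq_abs, ← norm_smul]
    congr 1
    module
  have hsub : ∀ p q p' q', n (p + p') (q + q') ≤ n p q + n p' q' := by
    intro p q p' q'
    show ‖(p + p') • e + (q + q') • e'‖ ≤ ‖p • e + q • e'‖ + ‖p' • e + q' • e'‖
    have : (p + p') • e + (q + q') • e' = (p • e + q • e') + (p' • e + q' • e') := by module
    rw [this]
    exact norm_add_le _ _
  have he1 : ∀ p, n p 0 = |p| := by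
    intro p
    show ‖p • e + (0:ℝ) • e'‖ = |p|
    rw [zero_smul, add_zero, norm_smul, he, mul_one, Real.norm_eq_abs]
  have he2 : ∀ q, n 0 q = |q| := by
    intro q
    show ‖(0:ℝ) • e + q • e'‖ = |q|
    rw [zero_smul, zero_add, norm_smul, he', mul_one, Real.norm_eq_abs]
  have hs2 : ∀ p q, n p (-q) = n p q := by
    intro p q
    have h1 := hhom (-1) p (-q)
    rw [neg_one_mul, neg_one_mul, neg_neg, abs_neg, abs_one, one_mul] at h1
    rw [← h1, hs1]
  have hn : AbsNorm n := by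
    refine ⟨hsub, hhom, ?_, ?_, he1, he2, hs2⟩
    · intro p q
      have h1 := hsub p q p (-q)
      rw [hs2, add_neg_cancel, he1, ← two_mul, abs_mul, abs_of_pos (by norm_num : (0:ℝ) < 2)] at h1
      linarith
    · intro p q
      have h1 := hsub p q (-p) q
      rw [hs1, add_neg_cancel, he2, ← two_mul, abs_mul, abs_of_pos (by norm_num : (0:ℝ) < 2)] at h1
      linarith
  refine hn.euclid ?_ p q
  intro c hc
  -- the second reflection
  set c' : ℝ := min c (Real.pi / 2) with hc'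
  have hpi := Real.pi_pos
  have hc'0 : 0 < c' := by positivity
  have hc'c : c' ≤ c := min_le_left _ _
  have hc'p : c' ≤ Real.pi / 2 := min_le_right _ _
  have hcos : Real.cos c' < 1 := by
    have := Real.cos_lt_cos_of_nonneg_of_le_pi_div_two le_rfl hc'p hc'0
    rwa [Real.cos_zero] at this
  set t : ℝ := min (1 / 2) ((1 - Real.cos c') / 8) with ht
  have ht0 : 0 < t := lt_min (by norm_num) (by linarith)
  have ht2 : t ≤ 1 / 2 := min_le_left _ _
  have ht8 : t ≤ (1 - Real.cos c') / 8 := min_le_right _ _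
  set N : ℝ := ‖e + t • e'‖ with hN
  have hN1 : 1 / 2 ≤ N := by
    have h1 : N = n 1 t := by
      show ‖e + t • e'‖ = ‖(1:ℝ) • e + t • e'‖
      rw [one_smul]
    rw [h1]
    have := hn.left 1 t
    rw [abs_one] at this
    linarith
  have hNpos : 0 < N := by linarith
  set e1 : E := N⁻¹ • (e + t • e') with he1def
  have he1n : ‖e1‖ = 1 := by
    rw [he1def, norm_smul, norm_inv, Real.norm_of_nonneg hNpos.le, inv_mul_cancel₀ hNpos.ne']
  obtain ⟨f1, hf1⟩ := H e1 he1n
  set p1 : ℝ := N⁻¹ with hp1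
  set q1 : ℝ := N⁻¹ * t with hq1
  have he1eq : e1 = p1 • e + q1 • e' := by
    rw [he1def, smul_add, smul_smul]
  have hp1pos : 0 < p1 := by positivity
  have hq1pos : 0 < q1 := by positivity
  have hp12 : p1 ≤ 2 := by
    rw [hp1, inv_le_comm₀ hNpos (by norm_num)]
    linarith
  have hq1t : q1 ≤ 2 * t := mul_le_mul_of_nonneg_right hp12 ht0.le
  set a1 : ℝ := f1 e with ha1
  set b1 : ℝ := f1 e' with hb1
  have hab : p1 * a1 + q1 * b1 = 2 := by
    have h1 := hf1.1
    rw [he1eq, map_add, map_smul, map_smul, smul_eq_mul, smul_eq_mul] at h1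
    exact h1
  have hb1le : |b1| ≤ 2 := by
    have := hf1.abs_le he1n e'
    rwa [he', mul_one] at this
  -- the composition of the two reflections
  set A : ℝ := a1 * p1 - 1 with hA
  have hAD : A = 1 - b1 * q1 := by rw [hA]; linarith
  have hS : ∀ p q, n (A * p - b1 * p1 * q) (a1 * q1 * p + A * q) = n p q := by
    intro p q
    rw [← hs1 p q]
    show ‖(A * p - b1 * p1 * q) • e + (a1 * q1 * p + A * q) • e'‖ = ‖(-p) • e + q • e'‖
    rw [← hf1.2 ((-p) • e + q • e')]
    congr 1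
    rw [map_add, map_smul, map_smul, ← ha1, ← hb1, smul_eq_mul, smul_eq_mul, he1eq]
    have e2 : (-p) • e + q • e' - (-p * a1 + q * b1) • (p1 • e + q1 • e') =
        (-p - (-p * a1 + q * b1) * p1) • e + (q - (-p * a1 + q * b1) * q1) • e' := by module
    rw [e2]
    congr 2
    · rw [hA]; ring
    · have : A * q = (1 - b1 * q1) * q := by rw [hAD]
      rw [this]; ring
  have hA1 : |A| ≤ 1 := by
    have h1 := hS 1 0
    rw [he1, abs_one] at h1
    have h2 := hn.left (A * 1 - b1 * p1 * 0) (a1 * q1 * 1 + A * 0)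
    rw [h1] at h2
    simpa using h2
  have hbq : |b1 * q1| ≤ 4 * t := by
    rw [abs_mul, abs_of_pos hq1pos]
    calc |b1| * q1 ≤ 2 * (2 * t) := mul_le_mul hb1le hq1t hq1pos.le (by norm_num)
      _ = 4 * t := by ring
  have hAcos : Real.cos c' < A := by
    have := (abs_le.1 hbq).2
    rw [hAD]
    linarith
  have hcos0 : 0 ≤ Real.cos c' := Real.cos_nonneg_of_mem_Icc ⟨by linarith, hc'p⟩
  have hApos : 0 < A := lt_of_le_of_lt hcos0 hAcos
  have ha1pos : 0 < a1 := by
    have h1 : 0 < a1 * p1 := by rw [hA] at hApos; linarith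
    exact (mul_pos_iff_of_pos_right hp1pos).1 h1
  have hC : 0 < a1 * q1 := mul_pos ha1pos hq1pos
  have hdet : A ^ 2 + (b1 * p1) * (a1 * q1) = 1 := by
    have h1 : b1 * q1 = 2 - a1 * p1 := by linarith
    have h2 : (b1 * p1) * (a1 * q1) = (a1 * p1) * (b1 * q1) := by ring
    rw [h2, h1, hA]; ring
  have hAne : A ≠ 1 := by
    intro h1
    have hb0 : b1 * p1 = 0 := by
      rw [h1] at hdet
      have : (b1 * p1) * (a1 * q1) = 0 := by linarith
      exact (mul_eq_zero.1 this).resolve_right hC.ne'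
    have hk : ∀ k : ℕ, n 1 (k * (a1 * q1)) = 1 := by
      intro k
      induction k with
      | zero => simp [he1]
      | succ k ih =>
        have h2 := hS 1 (k * (a1 * q1))
        rw [ih, h1, hb0, mul_one, zero_mul, sub_zero, mul_one, one_mul] at h2
        have h3 : ((k + 1 : ℕ) : ℝ) * (a1 * q1) = a1 * q1 + k * (a1 * q1) := by push_cast; ring
        rw [h3]
        exact h2
    obtain ⟨k, hk'⟩ := exists_nat_gt (1 / (a1 * q1))
    rw [div_lt_iff₀ hC] at hk'
    have h2 := hn.right 1 (k * (a1 * q1))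
    rw [hk k] at h2
    have := (le_abs_self _).trans h2
    linarith
  have hA1' : A < 1 := lt_of_le_of_ne ((le_abs_self _).trans hA1) hAne
  set θ : ℝ := Real.arccos A with hθ
  have hθ0 : 0 < θ := Real.arccos_pos.2 hA1'
  have hcosθ : Real.cos θ = A := Real.cos_arccos (by linarith) hA1'.le
  have hθc : θ < c' := by
    have h1 : Real.arccos A < Real.arccos (Real.cos c') :=
      Real.arccos_lt_arccos (by linarith) hAcos hA1'.le
    rwa [Real.arccos_cos hc'0.le (by linarith)] at h1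
  have hsin : 0 < Real.sin θ := Real.sin_pos_of_pos_of_lt_pi hθ0 (by linarith)
  refine ⟨θ, a1 * q1 / Real.sin θ, hθ0, hθc.trans_le hc'c, by positivity, ?_⟩
  have hBs : b1 * p1 * (a1 * q1) = Real.sin θ ^ 2 := by
    have := Real.sin_sq_add_cos_sq θ
    rw [hcosθ] at this
    linarith
  have hBs' : b1 * p1 * (a1 * q1 / Real.sin θ) = Real.sin θ := by
    rw [mul_div_assoc', hBs, pow_two, mul_div_assoc, div_self hsin.ne', mul_one]
  intro k
  induction k with
  | zero => simp [he1]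
  | succ k ih =>
    have h2 := hS (Real.cos (k * θ)) (a1 * q1 / Real.sin θ * Real.sin (k * θ))
    rw [ih] at h2
    rw [← h2]
    have h3 : ((k + 1 : ℕ) : ℝ) * θ = k * θ + θ := by push_cast; ring
    rw [h3, Real.cos_add, Real.sin_add, hcosθ]
    congr 1
    · have : b1 * p1 * (a1 * q1 / Real.sin θ * Real.sin (k * θ)) =
          Real.sin θ * Real.sin (k * θ) := by
        rw [← mul_assoc, hBs']
      rw [this]; ring
    · field_simp
      ring

/-- a space all whose unit vectors admit isometric reflections is a Hilbert space -/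
theorem parallelogram_of_refl (H : ∀ e : E, ‖e‖ = 1 → ∃ f : E →ₗ[ℝ] ℝ, IsRefl e f) (x y : E) :
    ‖x + y‖ * ‖x + y‖ + ‖x - y‖ * ‖x - y‖ = 2 * (‖x‖ * ‖x‖ + ‖y‖ * ‖y‖) := by
  by_cases hx : x = 0
  · subst hx
    rw [zero_add, zero_sub, norm_neg, norm_zero]
    ring
  have hxn : 0 < ‖x‖ := norm_pos_iff.2 hx
  obtain ⟨e, hen, hxe⟩ : ∃ e : E, ‖e‖ = 1 ∧ x = ‖x‖ • e := by
    refine ⟨‖x‖⁻¹ • x, ?_, ?_⟩
    · rw [norm_smul, norm_inv, norm_norm, inv_mul_cancel₀ hxn.ne']
    · rw [smul_smul, mul_inv_cancel₀ hxn.ne', one_smul]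
  obtain ⟨f, hf⟩ := H e hen
  set b : ℝ := f y / 2 with hb
  set z : E := y - b • e with hz
  have hfz : f z = 0 := by
    rw [hz, map_sub, map_smul, hf.1, smul_eq_mul, hb]; ring
  have hyz : y = b • e + z := by rw [hz]; abel
  by_cases hz0 : z = 0
  · rw [hz0, add_zero] at hyz
    have e1 : x + y = (‖x‖ + b) • e := by rw [hyz]; nth_rewrite 1 [hxe]; module
    have e2 : x - y = (‖x‖ - b) • e := by rw [hyz]; nth_rewrite 1 [hxe]; module
    rw [e1, e2, norm_smul, norm_smul, hen, mul_one, mul_one, Real.norm_eq_abs, Real.norm_eq_abs,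
      abs_mul_abs_self, abs_mul_abs_self]
    have e3 : ‖y‖ * ‖y‖ = b * b := by
      rw [hyz, norm_smul, hen, mul_one, Real.norm_eq_abs, abs_mul_abs_self]
    rw [e3]; ring
  · have hzn : 0 < ‖z‖ := norm_pos_iff.2 hz0
    obtain ⟨e', hen', hze, hfe'⟩ : ∃ e' : E, ‖e'‖ = 1 ∧ z = ‖z‖ • e' ∧ f e' = 0 := by
      refine ⟨‖z‖⁻¹ • z, ?_, ?_, ?_⟩
      · rw [norm_smul, norm_inv, norm_norm, inv_mul_cancel₀ hzn.ne']
      · rw [smul_smul, mul_inv_cancel₀ hzn.ne', one_smul]
      · rw [map_smul, hfz, smul_zero]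
    have key := plane_of_refl H e e' hen hen' f hf hfe'
    have n1 : ‖x + y‖ ^ 2 = (‖x‖ + b) ^ 2 + ‖z‖ ^ 2 := by
      rw [← key]
      congr 2
      rw [hyz]; nth_rewrite 1 [hxe]; nth_rewrite 1 [hze]; module
    have n2 : ‖x - y‖ ^ 2 = (‖x‖ - b) ^ 2 + (-‖z‖) ^ 2 := by
      rw [← key]
      congr 2
      rw [hyz]; nth_rewrite 1 [hxe]; nth_rewrite 1 [hze]; module
    have n3 : ‖y‖ ^ 2 = b ^ 2 + ‖z‖ ^ 2 := by
      rw [← key]
      congr 2
      rw [hyz]; nth_rewrite 1 [hze]; rfl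
    nlinarith

end Pool.Agent.W687.Rot
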