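import Mathlib

/-!
# The limit seminorm on bounded sequences along a nonprincipal ultrafilter
-/

set_option autoImplicit false

namespace Pool.Agent.W687.Rot

open Filter

/-- limit along the hyperfilter -/
noncomputable def ul (f : ℕ → ℝ) : ℝ := by
  classical
  exact if h : ∃ x, Tendsto f (hyperfilter ℕ : Filter ℕ) (nhds x) then h.choose else 0

lemma ul_spec {f : ℕ → ℝ} {C : ℝ} (hf : ∀ n, |f n| ≤ C) :
    Tendsto f (hyperfilter ℕ : Filter ℕ) (nhds (ul f)) := by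
  classical
  have h : ∃ x, Tendsto f (hyperfilter ℕ : Filter ℕ) (nhds x) := by
    have h1 : IsCompact (Set.Icc (-C) C) := isCompact_Icc
    obtain ⟨x, -, hx⟩ := h1.ultrafilter_le_nhds ((hyperfilter ℕ).map f) (by
      rw [Ultrafilter.coe_map, le_principal_iff]
      exact Filter.mem_map.2 (Filter.univ_mem' (fun n => abs_le.1 (hf n))))
    exact ⟨x, hx⟩
  unfold ul
  rw [dif_pos h]
  exact h.choose_spec

lemma ul_eq {f : ℕ → ℝ} {x : ℝ} (h : Tendsto f (hyperfilter ℕ : Filter ℕ) (nhds x)) :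
    ul f = x := by
  classical
  have h' : ∃ x, Tendsto f (hyperfilter ℕ : Filter ℕ) (nhds x) := ⟨x, h⟩
  unfold ul
  rw [dif_pos h']
  exact tendsto_nhds_unique h'.choose_spec h

lemma ul_const (x : ℝ) : ul (fun _ => x) = x := ul_eq tendsto_const_nhds

lemma ul_of_tendsto {f : ℕ → ℝ} {x : ℝ} (h : Tendsto f atTop (nhds x)) : ul f = x :=
  ul_eq (h.mono_left Nat.hyperfilter_le_atTop)

variable (E : Type*) [NormedAddCommGroup E] [NormedSpace ℝ E]

/-- bounded sequences -/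
def Bd : Submodule ℝ (ℕ → E) where
  carrier := {f | ∃ C : ℝ, ∀ n, ‖f n‖ ≤ C}
  add_mem' := by
    rintro f g ⟨C, hC⟩ ⟨D, hD⟩
    exact ⟨C + D, fun n => (norm_add_le _ _).trans (add_le_add (hC n) (hD n))⟩
  zero_mem' := ⟨0, fun n => by simp⟩
  smul_mem' := by
    rintro c f ⟨C, hC⟩
    refine ⟨‖c‖ * C, fun n => ?_⟩
    show ‖c • f n‖ ≤ _
    rw [norm_smul]
    exact mul_le_mul_of_nonneg_left (hC n) (norm_nonneg _)

variable {E}

lemma Bd.bd (f : Bd E) : ∃ C : ℝ, ∀ n, |‖f.1 n‖| ≤ C := by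
  obtain ⟨C, hC⟩ := f.2
  exact ⟨C, fun n => by rw [abs_of_nonneg (norm_nonneg _)]; exact hC n⟩

lemma Bd.tendsto (f : Bd E) :
    Tendsto (fun n => ‖f.1 n‖) (hyperfilter ℕ : Filter ℕ) (nhds (ul (fun n => ‖f.1 n‖))) := by
  obtain ⟨C, hC⟩ := Bd.bd f
  exact ul_spec hC

/-- the limit seminorm -/
noncomputable def nu : Seminorm ℝ (Bd E) :=
  Seminorm.of (fun f => ul (fun n => ‖f.1 n‖))
    (by
      intro f g
      refine le_of_tendsto_of_tendsto' (Bd.tendsto (f + g)) ((Bd.tendsto f).add (Bd.tendsto g))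
        (fun n => ?_)
      exact norm_add_le _ _)
    (by
      intro c f
      apply ul_eq
      have h := (Bd.tendsto f).const_mul ‖c‖
      refine h.congr (fun n => ?_)
      rw [← norm_smul]
      rfl)

lemma nu_apply (f : Bd E) : nu f = ul (fun n => ‖f.1 n‖) := rfl

lemma nu_tendsto (f : Bd E) :
    Tendsto (fun n => ‖f.1 n‖) (hyperfilter ℕ : Filter ℕ) (nhds (nu f)) := Bd.tendsto f

lemma nu_eq (f : Bd E) {x : ℝ} (h : Tendsto (fun n => ‖f.1 n‖) atTop (nhds x)) : nu f = x :=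
  ul_of_tendsto h

/-- termwise application of linear maps -/
def tw (T : ℕ → E →ₗ[ℝ] E) (hT : ∀ n z, ‖T n z‖ ≤ ‖z‖) : Bd E →ₗ[ℝ] Bd E where
  toFun f := ⟨fun n => T n (f.1 n), by
    obtain ⟨C, hC⟩ := f.2
    exact ⟨C, fun n => (hT n _).trans (hC n)⟩⟩
  map_add' := by
    intro f g
    apply Subtype.ext
    funext n
    exact map_add (T n) _ _
  map_smul' := by
    intro c f
    apply Subtype.ext
    funext n
    exact map_smul (T n) _ _

lemma tw_apply (T : ℕ → E →ₗ[ℝ] E) (hT : ∀ n z, ‖T n z‖ ≤ ‖z‖) (f : Bd E) (n : ℕ) :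
    (tw T hT f).1 n = T n (f.1 n) := rfl

/-- the sequence `S n z` as a linear function of `z` -/
def sq (S : ℕ → E →ₗ[ℝ] E) (hS : ∀ n z, ‖S n z‖ ≤ ‖z‖) : E →ₗ[ℝ] Bd E where
  toFun z := ⟨fun n => S n z, ⟨‖z‖, fun n => hS n z⟩⟩
  map_add' := by
    intro f g
    apply Subtype.ext
    funext n
    exact map_add (S n) _ _
  map_smul' := by
    intro c f
    apply Subtype.ext
    funext n
    exact map_smul (S n) _ _

lemma sq_apply (S : ℕ → E →ₗ[ℝ] E) (hS : ∀ n z, ‖S n z‖ ≤ ‖z‖) (z : E) (n : ℕ) :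
    (sq S hS z).1 n = S n z := rfl

end Pool.Agent.W687.Rot
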