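import Pool.Agent.W687.RotIso2
import Pool.Agent.W687.RotUltra
import Pool.Agent.W687.RotRefl

/-!
# From the law to isometric reflections
-/

set_option autoImplicit false

namespace Pool.Agent.W687.Rot

open Filter

section abstract

variable {F : Type*} [AddCommGroup F] [Module ℝ F] {N : Seminorm ℝ F} {P V : F →ₗ[ℝ] F} {w v : F}
variable {E : Type*} [NormedAddCommGroup E] [NormedSpace ℝ E]

/-- the reflection -/
lemma Iso2.refl (H : Iso2 N P V w v) (Q : E →ₗ[ℝ] F) (hQ : ∀ z, N (Q z) = ‖z‖) (e : E)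
    (he : Q e = w) : ∃ f : E →ₗ[ℝ] ℝ, IsRefl e f := by
  set Y : E →ₗ[ℝ] F := Q - P.comp Q with hY
  have hYa : ∀ z, Y z = Q z - P (Q z) := fun z => rfl
  have hPY : ∀ z, P (Y z) = 0 := by
    intro z
    rw [hYa, map_sub, H.proj, sub_self]
  set β : E → ℝ := fun z => N (Y z + w) ^ 2 - N (Y z) ^ 2 - 1 with hβ
  have law : ∀ z a, N (Y z + a • w) ^ 2 = N (Y z) ^ 2 + a ^ 2 + a * β z :=
    fun z a => H.law (Y z) (hPY z) a
  have hYe : Y e = w := by rw [hYa, he, H.hw, sub_zero]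
  have hhom : ∀ (c : ℝ) (z : E), β (c • z) = c * β z := by
    intro c z
    by_cases hc : c = 0
    · rw [hc, zero_smul, zero_mul]
      simp only [hβ, map_zero, zero_add, H.Nw]
      norm_num
    · have h1 := law (c • z) c
      have h2 := law z 1
      have h3 : N (Y (c • z) + c • w) = |c| * N (Y z + (1:ℝ) • w) := by
        rw [map_smul, ← smul_add, map_smul_eq_mul, Real.norm_eq_abs, one_smul]
      have h4 : N (Y (c • z)) = |c| * N (Y z) := by
        rw [map_smul, map_smul_eq_mul, Real.norm_eq_abs]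
      rw [h3, h4, mul_pow, mul_pow, sq_abs, h2] at h1
      have h5 : c * (c * β z) = c * β (c • z) := by linarith
      exact (mul_left_cancel₀ hc h5).symm
  have hadd : ∀ z z' : E, β (z + z') = β z + β z' := by
    intro z z'
    have h1 : ∀ a : ℝ, 2 * a * (β (z + z') - (β z + β z')) ≤
        2 * N (Y z) ^ 2 + 2 * N (Y z') ^ 2 - N (Y (z + z')) ^ 2 := by
      intro a
      have e1 : Y (z + z') + (2 * a) • w = (Y z + a • w) + (Y z' + a • w) := by
        rw [map_add]; module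
      have h2 := law (z + z') (2 * a)
      have h3 := law z a
      have h4 := law z' a
      rw [e1] at h2
      have h5 := map_add_le_add N (Y z + a • w) (Y z' + a • w)
      have h6 : 0 ≤ N ((Y z + a • w) + (Y z' + a • w)) := apply_nonneg N _
      nlinarith [sq_nonneg (N (Y z + a • w) - N (Y z' + a • w)), apply_nonneg N (Y z + a • w),
        apply_nonneg N (Y z' + a • w)]
    by_contra hne
    set D : ℝ := β (z + z') - (β z + β z') with hD
    have hD0 : D ≠ 0 := sub_ne_zero.2 hne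
    set C : ℝ := 2 * N (Y z) ^ 2 + 2 * N (Y z') ^ 2 - N (Y (z + z')) ^ 2 with hC
    have h2 := h1 ((C + 1) / (2 * D))
    have h3 : 2 * ((C + 1) / (2 * D)) * D = C + 1 := by field_simp
    rw [h3] at h2
    linarith
  refine ⟨{ toFun := β, map_add' := hadd, map_smul' := fun c z => hhom c z }, ?_, ?_⟩
  · show β e = 2
    simp only [hβ, hYe]
    have h1 : w + w = (2:ℝ) • w := by module
    rw [h1, map_smul_eq_mul, H.Nw]
    norm_num
  · intro z
    show ‖z - β z • e‖ = ‖z‖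
    rw [← hQ, ← hQ, map_sub, map_smul, he]
    have h1 := law z (-(β z))
    have h2 : N (Y z + (-(β z)) • w) = N (Y z) := by
      have h3 : N (Y z + (-(β z)) • w) ^ 2 = N (Y z) ^ 2 := by rw [h1]; ring
      exact (sq_eq_sq₀ (apply_nonneg N _) (apply_nonneg N _)).1 h3
    have h4 := H.eq_of (P (Q z)) (Y z + (-(β z)) • w) (Y z) (H.proj _)
      (by rw [map_add, hPY, map_smul, H.hw, smul_zero, add_zero]) (hPY z) h2
    have e1 : Q z - β z • w = P (Q z) + (Y z + (-(β z)) • w) := by rw [hYa]; module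
    have e2 : Q z = P (Q z) + Y z := by rw [hYa]; abel
    rw [e1, h4, ← e2]

end abstract

variable {E : Type*} [NormedAddCommGroup E] [NormedSpace ℝ E]

/-- the norm depends in a Lipschitz way on the norm of the component in the kernel -/
lemma lipL (P : E →ₗ[ℝ] E)
    (hiso : ∀ x y : E, P x = P y → ‖x - P x‖ = ‖y - P y‖ → ‖x‖ = ‖y‖)
    (u y y' : E) (hu : P u = u) (hy : P y = 0) (hy' : P y' = 0) :
    |‖u + y‖ - ‖u + y'‖| ≤ |‖y‖ - ‖y'‖| := by
  by_cases h : y' = 0
  · rw [h, add_zero, norm_zero, sub_zero, abs_of_nonneg (norm_nonneg y)]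
    have := abs_norm_sub_norm_le (u + y) u
    rwa [add_sub_cancel_left] at this
  · have hn : 0 < ‖y'‖ := norm_pos_iff.2 h
    set t : ℝ := ‖y‖ / ‖y'‖ with ht
    have ht0 : 0 ≤ t := by positivity
    have hty : ‖t • y'‖ = ‖y‖ := by
      rw [norm_smul, Real.norm_of_nonneg ht0, ht, div_mul_cancel₀ _ hn.ne']
    have h1 : ‖u + y‖ = ‖u + t • y'‖ := by
      have p1 : P (u + y) = u := by rw [map_add, hu, hy, add_zero]
      have p2 : P (u + t • y') = u := by rw [map_add, map_smul, hu, hy', smul_zero, add_zero]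
      apply hiso
      · rw [p1, p2]
      · rw [p1, p2, add_sub_cancel_left, add_sub_cancel_left, hty]
    rw [h1]
    refine (abs_norm_sub_norm_le _ _).trans ?_
    have e1 : u + t • y' - (u + y') = (t - 1) • y' := by module
    rw [e1, norm_smul, Real.norm_eq_abs]
    have e2 : ‖y‖ - ‖y'‖ = (t - 1) * ‖y'‖ := by
      rw [ht, sub_mul, div_mul_cancel₀ _ hn.ne', one_mul]
    rw [e2, abs_mul, abs_of_pos hn]

/-- the data in the ultrapower -/
theorem refl_of_seq (P : E →ₗ[ℝ] E) (hP : ∀ x, P (P x) = P x) (hP1 : ∀ x, ‖P x‖ ≤ ‖x‖)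
    (hiso : ∀ x y : E, P x = P y → ‖x - P x‖ = ‖y - P y‖ → ‖x‖ = ‖y‖)
    (htr : ∀ x y : E, ‖x‖ = 1 → ‖y‖ = 1 → ∃ T : E ≃ₗᵢ[ℝ] E, T x = y)
    (w v : ℕ → E) (V : ℕ → E ≃ₗᵢ[ℝ] E) (d : ℕ → ℝ) (hd : Tendsto d atTop (nhds 0))
    (h1 : ∀ n, P (w n) = 0) (h2 : ∀ n, ‖w n‖ = 1) (h3 : ∀ n, P (v n) = v n)
    (h4 : ∀ n, ‖v n‖ = 1)
    (h5 : ∀ n, ‖V n (w n) - Real.sqrt (1 / 2) • (w n + v n)‖ ≤ d n)
    (h6 : ∀ n, ‖V n (v n) - Real.sqrt (1 / 2) • (v n - w n)‖ ≤ d n)
    (h7 : ∀ n, ∀ p q : ℝ, |‖p • w n + q • v n‖ - Real.sqrt (p ^ 2 + q ^ 2)| ≤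
      d n * Real.sqrt (p ^ 2 + q ^ 2)) (e : E) (he : ‖e‖ = 1) :
    ∃ f : E →ₗ[ℝ] ℝ, IsRefl e f := by
  set Ph : Bd E →ₗ[ℝ] Bd E := tw (fun _ => P) (fun _ z => hP1 z) with hPh
  set Vh : Bd E →ₗ[ℝ] Bd E :=
    tw (fun n => (V n).toLinearEquiv.toLinearMap) (fun n z => ((V n).norm_map z).le) with hVh
  set wh : Bd E := ⟨w, ⟨1, fun n => (h2 n).le⟩⟩ with hwh
  set vh : Bd E := ⟨v, ⟨1, fun n => (h4 n).le⟩⟩ with hvh
  have H : Iso2 (nu (E := E)) Ph Vh wh vh := by
    refine ⟨?_, ?_, ?_, ?_, ?_, ?_, ?_, ?_⟩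
    · intro x
      apply Subtype.ext
      funext n
      exact hP _
    · intro u y y' hu hy hy'
      have hu' : ∀ n, P (u.1 n) = u.1 n := fun n => congrFun (congrArg Subtype.val hu) n
      have hy1 : ∀ n, P (y.1 n) = 0 := fun n => congrFun (congrArg Subtype.val hy) n
      have hy2 : ∀ n, P (y'.1 n) = 0 := fun n => congrFun (congrArg Subtype.val hy') n
      have l1 := ((nu_tendsto (u + y)).sub (nu_tendsto (u + y'))).abs
      have l2 := ((nu_tendsto y).sub (nu_tendsto y')).abs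
      refine le_of_tendsto_of_tendsto' l1 l2 (fun n => ?_)
      exact lipL P hiso (u.1 n) (y.1 n) (y'.1 n) (hu' n) (hy1 n) (hy2 n)
    · intro z
      rw [nu_apply, nu_apply]
      congr 1
      funext n
      exact (V n).norm_map _
    · apply Subtype.ext
      funext n
      exact h1 n
    · apply Subtype.ext
      funext n
      exact h3 n
    · apply nu_eq
      refine squeeze_zero (fun n => norm_nonneg _) (fun n => h5 n) hd
    · apply nu_eq
      refine squeeze_zero (fun n => norm_nonneg _) (fun n => h6 n) hd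
    · intro p q
      apply nu_eq
      rw [tendsto_iff_norm_sub_tendsto_zero]
      have l1 : Tendsto (fun n => d n * Real.sqrt (p ^ 2 + q ^ 2)) atTop (nhds 0) := by
        have := hd.mul_const (Real.sqrt (p ^ 2 + q ^ 2))
        rwa [zero_mul] at this
      refine squeeze_zero (fun n => norm_nonneg _) (fun n => ?_) l1
      exact h7 n p q
  have hS : ∀ n, ∃ T : E ≃ₗᵢ[ℝ] E, T (w n) = e := fun n => htr (w n) e (h2 n) he
  choose S hS using hS
  set Q : E →ₗ[ℝ] Bd E := sq (fun n => (S n).symm.toLinearEquiv.toLinearMap)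
    (fun n z => ((S n).symm.norm_map z).le) with hQ
  refine H.refl Q ?_ e ?_
  · intro z
    apply nu_eq
    have : (fun n => ‖(Q z).1 n‖) = fun _ => ‖z‖ := by
      funext n
      exact (S n).symm.norm_map z
    rw [this]
    exact tendsto_const_nhds
  · apply Subtype.ext
    funext n
    show (S n).symm e = w n
    rw [← hS n, (S n).symm_apply_apply]

end Pool.Agent.W687.Rot
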