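import Mathlib

set_option autoImplicit false

/-!
# Lagrange-type matrices: any few rows are independent
-/

namespace Pool.Agent.W687.Block

open Finset Polynomial

variable {𝕜 : Type*} [RCLike 𝕜]

/-- the matrix of values of the Lagrange basis polynomials with nodes in `J` -/
noncomputable def T (𝕜 : Type*) [RCLike 𝕜] (J : Finset ℕ) (n j : ℕ) : 𝕜 :=
  (Lagrange.basis J (fun i : ℕ => (i : 𝕜)) j).eval (n : 𝕜)

theorem cast_injOn (s : Set ℕ) : Set.InjOn (fun i : ℕ => (i : 𝕜)) s :=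
  fun _ _ _ _ h => Nat.cast_injective h

theorem T_self (J : Finset ℕ) (n j : ℕ) (hn : n ∈ J) (hj : j ∈ J) :
    T 𝕜 J n j = if n = j then 1 else 0 := by
  unfold T
  split_ifs with h
  · subst h
    exact Lagrange.eval_basis_self (cast_injOn _) hn
  · exact Lagrange.eval_basis_of_ne (fun h' => h h'.symm) hn

theorem T_inj (J B : Finset ℕ) (hB : B.card ≤ J.card) (c : ℕ → 𝕜)
    (h : ∀ j ∈ J, ∑ n ∈ B, c n * T 𝕜 J n j = 0) : ∀ n ∈ B, c n = 0 := by
  intro n0 hn0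
  set P : 𝕜[X] := Lagrange.basis B (fun i : ℕ => (i : 𝕜)) n0 with hP
  have hcard : 0 < B.card := Finset.card_pos.2 ⟨n0, hn0⟩
  have hdeg : P.degree < J.card := by
    rw [hP, Lagrange.degree_basis (cast_injOn _) hn0]
    have : B.card - 1 < J.card := by omega
    exact_mod_cast this
  have hint := Lagrange.eq_interpolate (s := J) (v := fun i : ℕ => (i : 𝕜)) (cast_injOn _) hdeg
  have heval : ∀ n : ℕ, P.eval (n : 𝕜) = ∑ j ∈ J, P.eval (j : 𝕜) * T 𝕜 J n j := by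
    intro n
    conv_lhs => rw [hint]
    rw [Lagrange.interpolate_apply, Polynomial.eval_finsetSum]
    refine Finset.sum_congr rfl fun j _ => ?_
    rw [Polynomial.eval_mul, Polynomial.eval_C]
    rfl
  have h1 : ∑ n ∈ B, c n * P.eval (n : 𝕜) = 0 := by
    calc ∑ n ∈ B, c n * P.eval (n : 𝕜)
        = ∑ n ∈ B, ∑ j ∈ J, P.eval (j : 𝕜) * (c n * T 𝕜 J n j) := by
          refine Finset.sum_congr rfl fun n _ => ?_
          rw [heval, Finset.mul_sum]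
          refine Finset.sum_congr rfl fun j _ => ?_
          ring
      _ = ∑ j ∈ J, P.eval (j : 𝕜) * ∑ n ∈ B, c n * T 𝕜 J n j := by
          rw [Finset.sum_comm]
          refine Finset.sum_congr rfl fun j _ => ?_
          rw [Finset.mul_sum]
      _ = 0 := Finset.sum_eq_zero fun j hj => by rw [h j hj, mul_zero]
  rw [Finset.sum_eq_single n0] at h1
  · rw [hP, Lagrange.eval_basis_self (cast_injOn _) hn0, mul_one] at h1
    exact h1
  · intro b hb hne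
    rw [hP, Lagrange.eval_basis_of_ne (fun h' => hne h'.symm) hb, mul_zero]
  · intro h2
    exact absurd hn0 h2

/-- extension by zero of a function on a finset -/
noncomputable def ext0 (B : Finset ℕ) (c : B → 𝕜) (n : ℕ) : 𝕜 :=
  if h : n ∈ B then c ⟨n, h⟩ else 0

theorem sum_ext0 (B : Finset ℕ) (c : B → 𝕜) (t : ℕ → 𝕜) :
    ∑ n ∈ B, ext0 B c n * t n = ∑ n : B, c n * t n := by
  rw [← Finset.sum_coe_sort B]
  refine Finset.sum_congr rfl fun n _ => ?_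
  unfold ext0
  rw [dif_pos n.2]

/-- the linear map given by the rows in `B` -/
noncomputable def Tmap (𝕜 : Type*) [RCLike 𝕜] (J B : Finset ℕ) : (B → 𝕜) →ₗ[𝕜] (J → 𝕜) where
  toFun := fun c j => ∑ n : B, c n * T 𝕜 J n j
  map_add' := fun c d => by
    funext j
    simp only [Pi.add_apply, add_mul, Finset.sum_add_distrib]
  map_smul' := fun a c => by
    funext j
    simp only [Pi.smul_apply, smul_eq_mul, RingHom.id_apply, Finset.mul_sum, mul_assoc]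

theorem Tmap_inj (J B : Finset ℕ) (hB : B.card ≤ J.card) :
    Function.Injective (Tmap 𝕜 J B) := by
  rw [← LinearMap.ker_eq_bot, LinearMap.ker_eq_bot']
  intro c hc
  funext n
  have h := T_inj J B hB (ext0 B c) (fun j hj => by
    rw [sum_ext0 B c (fun n => T 𝕜 J n j)]
    exact congrFun hc ⟨j, hj⟩) n n.2
  unfold ext0 at h
  rw [dif_pos n.2] at h
  exact h

theorem T_surj (J B : Finset ℕ) (hB : B.card = J.card) (β : ℕ → 𝕜) :
    ∃ a : ℕ → 𝕜, ∀ j ∈ J, ∑ n ∈ B, a n * T 𝕜 J n j = β j := by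
  have h1 : Module.finrank 𝕜 (B → 𝕜) = Module.finrank 𝕜 (J → 𝕜) := by
    rw [Module.finrank_fintype_fun_eq_card, Module.finrank_fintype_fun_eq_card,
      Fintype.card_coe, Fintype.card_coe, hB]
  have h2 : Function.Surjective (Tmap 𝕜 J B) :=
    (LinearMap.injective_iff_surjective_of_finrank_eq_finrank h1).1 (Tmap_inj J B hB.le)
  obtain ⟨a, ha⟩ := h2 (fun j => β j)
  refine ⟨ext0 B a, fun j hj => ?_⟩
  rw [sum_ext0 B a (fun n => T 𝕜 J n j)]
  exact congrFun ha ⟨j, hj⟩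

theorem T_bound_aux (J B : Finset ℕ) (hB : B.card ≤ J.card) :
    ∃ K : ℝ, 0 ≤ K ∧ ∀ c : ℕ → 𝕜,
      ∑ n ∈ B, ‖c n‖ ≤ K * ∑ j ∈ J, ‖∑ n ∈ B, c n * T 𝕜 J n j‖ := by
  obtain ⟨K, hK0, hK⟩ := (Tmap 𝕜 J B).exists_antilipschitzWith
    (LinearMap.ker_eq_bot.2 (Tmap_inj J B hB))
  refine ⟨B.card * K, by positivity, fun c => ?_⟩
  let c' : B → 𝕜 := fun n => c n
  have h1 : ‖c'‖ ≤ K * ‖Tmap 𝕜 J B c'‖ := by
    have := hK.le_mul_dist c' 0
    rwa [map_zero, dist_zero_right, dist_zero_right] at this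
  have h2 : ‖Tmap 𝕜 J B c'‖ ≤ ∑ j ∈ J, ‖∑ n ∈ B, c n * T 𝕜 J n j‖ := by
    refine (pi_norm_le_iff_of_nonneg (Finset.sum_nonneg fun _ _ => norm_nonneg _)).2 fun j => ?_
    have h3 : Tmap 𝕜 J B c' j = ∑ n ∈ B, c n * T 𝕜 J n j := by
      rw [← Finset.sum_coe_sort B]
      rfl
    rw [h3]
    exact Finset.single_le_sum (f := fun j => ‖∑ n ∈ B, c n * T 𝕜 J n j‖)
      (fun _ _ => norm_nonneg _) j.2
  calc ∑ n ∈ B, ‖c n‖ ≤ ∑ n ∈ B, ‖c'‖ := Finset.sum_le_sum fun n hn =>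
        norm_le_pi_norm c' ⟨n, hn⟩
    _ = B.card * ‖c'‖ := by rw [Finset.sum_const, nsmul_eq_mul]
    _ ≤ B.card * (K * ‖Tmap 𝕜 J B c'‖) := by gcongr
    _ ≤ B.card * (K * ∑ j ∈ J, ‖∑ n ∈ B, c n * T 𝕜 J n j‖) := by gcongr
    _ = _ := by ring

/-- a common constant for all `B ⊆ A` with at most `J.card` elements -/
theorem T_bound (J A : Finset ℕ) :
    ∃ K : ℝ, 0 ≤ K ∧ ∀ B ⊆ A, B.card ≤ J.card → ∀ c : ℕ → 𝕜,
      ∑ n ∈ B, ‖c n‖ ≤ K * ∑ j ∈ J, ‖∑ n ∈ B, c n * T 𝕜 J n j‖ := by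
  have h : ∀ B : Finset ℕ, ∃ K : ℝ, 0 ≤ K ∧ (B.card ≤ J.card → ∀ c : ℕ → 𝕜,
      ∑ n ∈ B, ‖c n‖ ≤ K * ∑ j ∈ J, ‖∑ n ∈ B, c n * T 𝕜 J n j‖) := by
    intro B
    by_cases hB : B.card ≤ J.card
    · obtain ⟨K, h1, h2⟩ := T_bound_aux (𝕜 := 𝕜) J B hB
      exact ⟨K, h1, fun _ => h2⟩
    · exact ⟨0, le_rfl, fun h => absurd h hB⟩
  choose K hK0 hK using h
  refine ⟨∑ B ∈ A.powerset, K B, Finset.sum_nonneg fun B _ => hK0 B, fun B hBA hB c => ?_⟩
  refine (hK B hB c).trans ?_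
  refine mul_le_mul_of_nonneg_right ?_ (Finset.sum_nonneg fun _ _ => norm_nonneg _)
  exact Finset.single_le_sum (f := K) (fun B _ => hK0 B) (Finset.mem_powerset.2 hBA)

end Pool.Agent.W687.Block
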