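import Pool.Agent.W687.BlockA

set_option autoImplicit false

/-!
# The block lemma
-/

namespace Pool.Agent.W687.Block

open Finset

variable {𝕜 : Type*} [RCLike 𝕜] {E : Type*} [NormedAddCommGroup E] [NormedSpace 𝕜 E]

/-- the properties of the new block of a biorthogonal system -/
structure BlockProp (z : ℕ → StrongDual 𝕜 E) (e : ℕ → E) (m p m' : ℕ) (ε : ℝ)
    (y : ℕ → StrongDual 𝕜 E) (x : ℕ → E) : Prop where
  y_mem : ∀ n ∈ Ico m m', y n ∈ Submodule.span 𝕜 (z '' (Ico m m' : Finset ℕ))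
  x_mem : ∀ n ∈ Ico m m', x n ∈ Submodule.span 𝕜 (e '' (Ico m m' : Finset ℕ))
  z_mem : ∀ n ∈ Ico m m', z n ∈ Submodule.span 𝕜 (y '' (Ico m m' : Finset ℕ))
  e_mem : ∀ n ∈ Ico m m', e n ∈ Submodule.span 𝕜 (x '' (Ico m m' : Finset ℕ))
  biorth : ∀ i ∈ Ico m m', ∀ j ∈ Ico m m', y i (x j) = if i = j then 1 else 0
  dich : ∀ B : Finset ℕ, B ⊆ Ico m m' →
    (∀ u ∈ Submodule.span 𝕜 (z '' (Ico m p : Finset ℕ)),
      ∃ u' ∈ Submodule.span 𝕜 (y '' (B : Finset ℕ)), ‖u - u'‖ ≤ ε * ‖u‖) ∨
    (∀ ξ ∈ Submodule.span 𝕜 (y '' (B : Finset ℕ)),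
      ‖∑ l ∈ Ico p m', ξ (e l) • z l‖ ≤ ε * ∑ j ∈ Ico m p, ‖ξ (e j)‖)

theorem mem_span_finset_image {F : Type*} [AddCommGroup F] [Module 𝕜 F] {z : ℕ → F}
    {B : Finset ℕ} {u : F} (hu : u ∈ Submodule.span 𝕜 (z '' (B : Finset ℕ))) :
    ∃ c : ℕ → 𝕜, u = ∑ n ∈ B, c n • z n := by
  induction hu using Submodule.span_induction with
  | mem v hv =>
    obtain ⟨n, hn, rfl⟩ := hv
    refine ⟨fun k => if k = n then 1 else 0, ?_⟩
    simp only [ite_smul, one_smul, zero_smul]
    rw [Finset.sum_ite_eq', if_pos (Finset.mem_coe.1 hn)]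
  | zero => exact ⟨0, by simp⟩
  | add a b _ _ ha hb =>
    obtain ⟨c, rfl⟩ := ha
    obtain ⟨d, rfl⟩ := hb
    exact ⟨c + d, by simp [add_smul, Finset.sum_add_distrib]⟩
  | smul t a _ ha =>
    obtain ⟨c, rfl⟩ := ha
    exact ⟨fun n => t * c n, by simp [Finset.smul_sum, smul_smul]⟩

theorem sum_mem_span {F : Type*} [AddCommGroup F] [Module 𝕜 F] (z : ℕ → F)
    (B : Finset ℕ) (c : ℕ → 𝕜) :
    ∑ n ∈ B, c n • z n ∈ Submodule.span 𝕜 (z '' (B : Finset ℕ)) :=
  Submodule.sum_mem _ fun n hn => Submodule.smul_mem _ _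
    (Submodule.subset_span ⟨n, hn, rfl⟩)

theorem block_lemma (z : ℕ → StrongDual 𝕜 E) (e : ℕ → E)
    (hb : ∀ i j, z i (e j) = if i = j then 1 else 0) (m p m' : ℕ) (hmp : m ≤ p) (hpm : p ≤ m')
    (ε : ℝ) (hε : 0 < ε) :
    ∃ (y : ℕ → StrongDual 𝕜 E) (x : ℕ → E), BlockProp z e m p m' ε y x := by
  classical
  set A : Finset ℕ := Ico m m' with hA
  set J : Finset ℕ := Ico m p with hJ
  set L : Finset ℕ := Ico p m' with hL
  have hJL : ∀ n, n ∈ A ↔ n ∈ J ∨ n ∈ L := by
    intro n
    simp only [hA, hJ, hL, Finset.mem_Ico]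
    omega
  have hJnL : ∀ n, n ∈ J → n ∉ L := by
    intro n
    simp only [hJ, hL, Finset.mem_Ico]
    omega
  have hJA : J ⊆ A := fun n hn => (hJL n).2 (Or.inl hn)
  have hLA : L ⊆ A := fun n hn => (hJL n).2 (Or.inr hn)
  obtain ⟨K, hK0, hK⟩ := T_bound (𝕜 := 𝕜) J A
  set Z : ℝ := ∑ n ∈ A, ‖z n‖ with hZ
  have hZ0 : 0 ≤ Z := Finset.sum_nonneg fun _ _ => norm_nonneg _
  have hzZ : ∀ n ∈ A, ‖z n‖ ≤ Z := fun n hn =>
    Finset.single_le_sum (f := fun n => ‖z n‖) (fun _ _ => norm_nonneg _) hn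
  set Q : ℝ := ∑ j ∈ J, ‖e j‖ with hQ
  have hQ0 : 0 ≤ Q := Finset.sum_nonneg fun _ _ => norm_nonneg _
  set r : ℝ := ε / (Z * K * (1 + Q) + 1) with hr
  have hden : 0 < Z * K * (1 + Q) + 1 := by positivity
  have hr0 : 0 < r := by positivity
  have hrε : r * (Z * K * (1 + Q)) ≤ ε := by
    have h1 : r * (Z * K * (1 + Q) + 1) = ε := by
      rw [hr]; field_simp
    nlinarith
  set a : 𝕜 := (r : 𝕜) with ha
  have ha0 : a ≠ 0 := by
    rw [ha]
    exact_mod_cast hr0.ne'
  have hna : ‖a‖ = r := by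
    rw [ha, RCLike.norm_ofReal, abs_of_pos hr0]
  -- the new system
  let y : ℕ → StrongDual 𝕜 E := fun n =>
    (∑ j ∈ J, T 𝕜 J n j • z j) + if n ∈ L then a • z n else 0
  let x : ℕ → E := fun n =>
    if n ∈ L then a⁻¹ • e n else e n - ∑ l ∈ L, (a⁻¹ * T 𝕜 J l n) • e l
  have hyJ : ∀ n ∈ J, y n = z n := by
    intro n hn
    simp only [y]
    rw [if_neg (hJnL n hn), add_zero, Finset.sum_eq_single n]
    · rw [T_self J n n hn hn, if_pos rfl, one_smul]
    · intro j hj hjn
      rw [T_self J n j hn hj, if_neg (fun h => hjn h.symm)]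
      exact zero_smul 𝕜 (z j)
    · intro h; exact absurd hn h
  have hxL : ∀ n ∈ L, x n = a⁻¹ • e n := fun n hn => if_pos hn
  have hxJ : ∀ n ∈ J, x n = e n - ∑ l ∈ L, (a⁻¹ * T 𝕜 J l n) • e l := fun n hn =>
    if_neg (hJnL n hn)
  have hyeJ : ∀ i, ∀ k ∈ J, y i (e k) = T 𝕜 J i k := by
    intro i k hk
    simp only [y]
    rw [add_apply, _root_.sum_apply, Finset.sum_eq_single k]
    · rw [smul_apply, hb, if_pos rfl, smul_eq_mul, mul_one]
      by_cases hi : i ∈ L
      · rw [if_pos hi, smul_apply, hb, if_neg, smul_zero, add_zero]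
        rintro rfl
        exact hJnL _ hk hi
      · rw [if_neg hi]
        simp
    · intro j _ hjk
      rw [smul_apply, hb, if_neg hjk, smul_zero]
    · intro h; exact absurd hk h
  have hyeL : ∀ i, ∀ k ∈ L, y i (e k) = if i = k then a else 0 := by
    intro i k hk
    simp only [y]
    rw [add_apply, _root_.sum_apply, Finset.sum_eq_zero, zero_add]
    · by_cases hi : i ∈ L
      · rw [if_pos hi, smul_apply, hb, smul_eq_mul]
        split_ifs <;> simp
      · rw [if_neg hi, if_neg]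
        · simp
        · rintro rfl
          exact hi hk
    · intro j hj
      rw [smul_apply, hb, if_neg, smul_zero]
      rintro rfl
      exact hJnL _ hj hk
  refine ⟨y, x, ?_, ?_, ?_, ?_, ?_, ?_⟩
  · intro n hn
    refine Submodule.add_mem _ ?_ ?_
    · exact Submodule.sum_mem _ fun j hj => Submodule.smul_mem _ _
        (Submodule.subset_span ⟨j, hJA hj, rfl⟩)
    · split_ifs
      · exact Submodule.smul_mem _ _ (Submodule.subset_span ⟨n, hn, rfl⟩)
      · exact Submodule.zero_mem _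
  · intro n hn
    by_cases h : n ∈ L
    · rw [hxL n h]
      exact Submodule.smul_mem _ _ (Submodule.subset_span ⟨n, hn, rfl⟩)
    · rw [hxJ n (((hJL n).1 hn).resolve_right h)]
      refine Submodule.sub_mem _ (Submodule.subset_span ⟨n, hn, rfl⟩) ?_
      exact Submodule.sum_mem _ fun j hj => Submodule.smul_mem _ _
        (Submodule.subset_span ⟨j, hLA hj, rfl⟩)
  · have hzJ : ∀ n ∈ J, z n ∈ Submodule.span 𝕜 (y '' (A : Finset ℕ)) := by
      intro n hn
      rw [← hyJ n hn]
      exact Submodule.subset_span ⟨n, hJA hn, rfl⟩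
    intro n hn
    by_cases h : n ∈ L
    · have h1 : z n = a⁻¹ • (y n - ∑ j ∈ J, T 𝕜 J n j • z j) := by
        simp only [y]
        rw [if_pos h, add_sub_cancel_left, smul_smul, inv_mul_cancel₀ ha0, one_smul]
      rw [h1]
      refine Submodule.smul_mem _ _ (Submodule.sub_mem _ (Submodule.subset_span ⟨n, hn, rfl⟩) ?_)
      exact Submodule.sum_mem _ fun j hj => Submodule.smul_mem _ _ (hzJ j hj)
    · exact hzJ n (((hJL n).1 hn).resolve_right h)
  · have heL : ∀ n ∈ L, e n ∈ Submodule.span 𝕜 (x '' (A : Finset ℕ)) := by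
      intro n hn
      have h1 : e n = a • x n := by
        rw [hxL n hn, smul_smul, mul_inv_cancel₀ ha0, one_smul]
      rw [h1]
      exact Submodule.smul_mem _ _ (Submodule.subset_span ⟨n, hLA hn, rfl⟩)
    intro n hn
    by_cases h : n ∈ L
    · exact heL n h
    · have h1 : e n = x n + ∑ l ∈ L, (a⁻¹ * T 𝕜 J l n) • e l := by
        rw [hxJ n (((hJL n).1 hn).resolve_right h)]
        abel
      rw [h1]
      refine Submodule.add_mem _ (Submodule.subset_span ⟨n, hn, rfl⟩) ?_
      exact Submodule.sum_mem _ fun j hj => Submodule.smul_mem _ _ (heL j hj)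
  · intro i hi n hn
    by_cases h : n ∈ L
    · rw [hxL n h, map_smul, hyeL i n h, smul_eq_mul]
      split_ifs
      · exact inv_mul_cancel₀ ha0
      · exact mul_zero _
    · have hnJ := ((hJL n).1 hn).resolve_right h
      rw [hxJ n hnJ, map_sub, hyeJ i n hnJ, map_sum]
      have h1 : ∑ l ∈ L, y i ((a⁻¹ * T 𝕜 J l n) • e l) = if i ∈ L then T 𝕜 J i n else 0 := by
        have h2 : ∀ l ∈ L, y i ((a⁻¹ * T 𝕜 J l n) • e l) =
            if i = l then T 𝕜 J l n else 0 := by
          intro l hl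
          rw [map_smul, hyeL i l hl, smul_eq_mul]
          split_ifs
          · field_simp
          · exact mul_zero _
        rw [Finset.sum_congr rfl h2, Finset.sum_ite_eq]
      rw [h1]
      by_cases hiL : i ∈ L
      · rw [if_pos hiL, sub_self, if_neg]
        rintro rfl
        exact h hiL
      · rw [if_neg hiL, sub_zero, T_self J i n (((hJL i).1 hi).resolve_right hiL) hnJ]
  · intro B hBA
    have hyn : ∀ n, n ∈ A → ‖(if n ∈ L then a • z n else 0 : StrongDual 𝕜 E)‖ ≤ r * Z := by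
      intro n hn
      split_ifs
      · rw [norm_smul, hna]
        exact mul_le_mul_of_nonneg_left (hzZ n hn) hr0.le
      · rw [norm_zero]; positivity
    rcases le_or_gt J.card B.card with hcard | hcard
    · left
      obtain ⟨B', hB'B, hB'c⟩ := Finset.exists_subset_card_eq hcard
      intro u hu
      obtain ⟨b, hbu⟩ := mem_span_finset_image hu
      have hue : ∀ j ∈ J, u (e j) = b j := by
        intro j hj
        rw [hbu, _root_.sum_apply, Finset.sum_eq_single j]
        · rw [smul_apply, hb, if_pos rfl, smul_eq_mul, mul_one]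
        · intro i _ hij
          rw [smul_apply, hb, if_neg hij, smul_zero]
        · intro h; exact absurd hj h
      obtain ⟨c, hc⟩ := T_surj J B' hB'c b
      refine ⟨∑ n ∈ B', c n • y n, ?_, ?_⟩
      · exact Submodule.sum_mem _ fun n hn => Submodule.smul_mem _ _
          (Submodule.subset_span ⟨n, hB'B hn, rfl⟩)
      · have h1 : u - ∑ n ∈ B', c n • y n =
            - ∑ n ∈ B', c n • (if n ∈ L then a • z n else 0 : StrongDual 𝕜 E) := by
          have h2 : ∑ n ∈ B', c n • y n = u +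
              ∑ n ∈ B', c n • (if n ∈ L then a • z n else 0 : StrongDual 𝕜 E) := by
            simp only [y, smul_add, Finset.sum_add_distrib]
            congr 1
            rw [hbu]
            simp only [Finset.smul_sum, smul_smul]
            rw [Finset.sum_comm]
            refine Finset.sum_congr rfl fun j hj => ?_
            rw [← Finset.sum_smul, hc j hj]
          rw [h2]
          abel
        rw [h1, norm_neg]
        calc ‖∑ n ∈ B', c n • (if n ∈ L then a • z n else 0 : StrongDual 𝕜 E)‖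
            ≤ ∑ n ∈ B', ‖c n • (if n ∈ L then a • z n else 0 : StrongDual 𝕜 E)‖ :=
              norm_sum_le _ _
          _ ≤ ∑ n ∈ B', ‖c n‖ * (r * Z) := by
              refine Finset.sum_le_sum fun n hn => ?_
              rw [norm_smul]
              exact mul_le_mul_of_nonneg_left (hyn n (hBA (hB'B hn))) (norm_nonneg _)
          _ = (∑ n ∈ B', ‖c n‖) * (r * Z) := by rw [Finset.sum_mul]
          _ ≤ (K * ∑ j ∈ J, ‖∑ n ∈ B', c n * T 𝕜 J n j‖) * (r * Z) := by
              refine mul_le_mul_of_nonneg_right (hK B' (hB'B.trans hBA) hB'c.le c) ?_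
              positivity
          _ ≤ (K * (Q * ‖u‖)) * (r * Z) := by
              refine mul_le_mul_of_nonneg_right ?_ (by positivity)
              refine mul_le_mul_of_nonneg_left ?_ hK0
              rw [hQ, Finset.sum_mul]
              refine Finset.sum_le_sum fun j hj => ?_
              rw [hc j hj, ← hue j hj, mul_comm]
              exact u.le_opNorm _
          _ = (r * (Z * K * Q)) * ‖u‖ := by ring
          _ ≤ ε * ‖u‖ := by
              refine mul_le_mul_of_nonneg_right ?_ (norm_nonneg _)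
              refine le_trans ?_ hrε
              refine mul_le_mul_of_nonneg_left ?_ hr0.le
              refine mul_le_mul_of_nonneg_left ?_ (by positivity)
              linarith
    · right
      intro ξ hξ
      obtain ⟨c, hc⟩ := mem_span_finset_image hξ
      have h1 : ∀ j ∈ J, ξ (e j) = ∑ n ∈ B, c n * T 𝕜 J n j := by
        intro j hj
        rw [hc, _root_.sum_apply]
        refine Finset.sum_congr rfl fun n _ => ?_
        rw [smul_apply, hyeJ n j hj, smul_eq_mul]
      have h2 : ∀ l ∈ L, ‖ξ (e l)‖ ≤ r * ∑ n ∈ B, ‖c n‖ := by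
        intro l hl
        have h3 : ξ (e l) = if l ∈ B then c l * a else 0 := by
          rw [hc, _root_.sum_apply]
          have h4 : ∀ n ∈ B, (c n • y n) (e l) = if n = l then c n * a else 0 := by
            intro n _
            rw [smul_apply, hyeL n l hl, smul_eq_mul, mul_ite, mul_zero]
          rw [Finset.sum_congr rfl h4, Finset.sum_ite_eq']
        rw [h3]
        split_ifs with hlB
        · rw [norm_mul, hna, mul_comm]
          refine mul_le_mul_of_nonneg_left ?_ hr0.le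
          exact Finset.single_le_sum (f := fun n => ‖c n‖) (fun _ _ => norm_nonneg _) hlB
        · rw [norm_zero]
          exact mul_nonneg hr0.le (Finset.sum_nonneg fun _ _ => norm_nonneg _)
      have hS0 : 0 ≤ ∑ n ∈ B, ‖c n‖ := Finset.sum_nonneg fun _ _ => norm_nonneg _
      have hS1 : 0 ≤ ∑ j ∈ J, ‖ξ (e j)‖ := Finset.sum_nonneg fun _ _ => norm_nonneg _
      calc ‖∑ l ∈ L, ξ (e l) • z l‖ ≤ ∑ l ∈ L, ‖ξ (e l) • z l‖ := norm_sum_le _ _
        _ ≤ ∑ l ∈ L, (r * ∑ n ∈ B, ‖c n‖) * ‖z l‖ := by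
            refine Finset.sum_le_sum fun l hl => ?_
            rw [norm_smul]
            exact mul_le_mul_of_nonneg_right (h2 l hl) (norm_nonneg _)
        _ = (r * ∑ n ∈ B, ‖c n‖) * ∑ l ∈ L, ‖z l‖ := (Finset.mul_sum _ _ _).symm
        _ ≤ (r * ∑ n ∈ B, ‖c n‖) * Z := by
            refine mul_le_mul_of_nonneg_left ?_ (by positivity)
            exact Finset.sum_le_sum_of_subset_of_nonneg hLA fun _ _ _ => norm_nonneg _
        _ ≤ (r * (K * ∑ j ∈ J, ‖∑ n ∈ B, c n * T 𝕜 J n j‖)) * Z := by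
            refine mul_le_mul_of_nonneg_right ?_ hZ0
            exact mul_le_mul_of_nonneg_left (hK B hBA hcard.le c) hr0.le
        _ = (r * (Z * K)) * ∑ j ∈ J, ‖ξ (e j)‖ := by
            have h5 : ∑ j ∈ J, ‖∑ n ∈ B, c n * T 𝕜 J n j‖ = ∑ j ∈ J, ‖ξ (e j)‖ :=
              Finset.sum_congr rfl fun j hj => by rw [h1 j hj]
            rw [h5]
            ring
        _ ≤ ε * ∑ j ∈ J, ‖ξ (e j)‖ := by
            refine mul_le_mul_of_nonneg_right ?_ hS1
            refine le_trans ?_ hrε
            refine mul_le_mul_of_nonneg_left ?_ hr0.le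
            have : 0 ≤ Z * K * Q := by positivity
            nlinarith

end Pool.Agent.W687.Block
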