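import Pool.Agent.W687.BlockB

set_option autoImplicit false

/-!
# Two compactness lemmas on partial sums
-/

namespace Pool.Agent.W687.Block

open Finset

variable {𝕜 : Type*} [RCLike 𝕜] {E : Type*} [NormedAddCommGroup E] [NormedSpace 𝕜 E]

/-- partial sums of the expansion of a functional -/
noncomputable def S (z : ℕ → StrongDual 𝕜 E) (e : ℕ → E) (m : ℕ) :
    StrongDual 𝕜 E →ₗ[𝕜] StrongDual 𝕜 E where
  toFun := fun w => ∑ i ∈ range m, w (e i) • z i
  map_add' := fun v w => by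
    rw [← Finset.sum_add_distrib]
    exact Finset.sum_congr rfl fun i _ => add_smul (v (e i)) (w (e i)) (z i)
  map_smul' := fun t w => by simp [Finset.smul_sum, smul_smul]

theorem S_def (z : ℕ → StrongDual 𝕜 E) (e : ℕ → E) (m : ℕ) (w : StrongDual 𝕜 E) :
    S z e m w = ∑ i ∈ range m, w (e i) • z i := rfl

/-- bound for the norm of a partial sum operator -/
noncomputable def SB (z : ℕ → StrongDual 𝕜 E) (e : ℕ → E) (m : ℕ) : ℝ :=
  ∑ i ∈ range m, ‖e i‖ * ‖z i‖

theorem SB_nonneg (z : ℕ → StrongDual 𝕜 E) (e : ℕ → E) (m : ℕ) : 0 ≤ SB z e m :=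
  Finset.sum_nonneg fun _ _ => mul_nonneg (norm_nonneg _) (norm_nonneg _)

theorem norm_S_le (z : ℕ → StrongDual 𝕜 E) (e : ℕ → E) (m : ℕ) (w : StrongDual 𝕜 E) :
    ‖S z e m w‖ ≤ SB z e m * ‖w‖ := by
  rw [S_def]
  refine (norm_sum_le _ _).trans ?_
  unfold SB
  rw [Finset.sum_mul]
  refine Finset.sum_le_sum fun i _ => ?_
  rw [norm_smul]
  calc ‖w (e i)‖ * ‖z i‖ ≤ (‖w‖ * ‖e i‖) * ‖z i‖ :=
        mul_le_mul_of_nonneg_right (w.le_opNorm _) (norm_nonneg _)
    _ = ‖e i‖ * ‖z i‖ * ‖w‖ := by ring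

variable {z : ℕ → StrongDual 𝕜 E} {e : ℕ → E}

theorem S_apply_e (hb : ∀ i j, z i (e j) = if i = j then 1 else 0) (m : ℕ)
    (w : StrongDual 𝕜 E) (n : ℕ) : S z e m w (e n) = if n < m then w (e n) else 0 := by
  rw [S_def, _root_.sum_apply]
  have h : ∀ i ∈ range m, (w (e i) • z i) (e n) = if i = n then w (e i) else 0 := by
    intro i _
    rw [smul_apply, hb, smul_eq_mul, mul_ite, mul_one, mul_zero]
  rw [Finset.sum_congr rfl h, Finset.sum_ite_eq']
  simp only [Finset.mem_range]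

/-- partial sums of finite combinations -/
theorem S_of_mem (hb : ∀ i j, z i (e j) = if i = j then 1 else 0) {m N : ℕ} (hmN : m ≤ N)
    {w : StrongDual 𝕜 E} (hw : w ∈ Submodule.span 𝕜 (z '' (range N : Finset ℕ))) :
    w - S z e m w ∈ Submodule.span 𝕜 (z '' (Ico m N : Finset ℕ)) := by
  obtain ⟨c, hc⟩ := mem_span_finset_image hw
  have h1 : ∀ i ∈ range N, w (e i) = c i := by
    intro i hi
    rw [hc, _root_.sum_apply, Finset.sum_eq_single i]
    · rw [smul_apply, hb, if_pos rfl, smul_eq_mul, mul_one]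
    · intro j _ hji
      rw [smul_apply, hb, if_neg hji, smul_zero]
    · intro h; exact absurd hi h
  have h2 : w - S z e m w = ∑ i ∈ Ico m N, c i • z i := by
    have h3 : S z e m w = ∑ i ∈ range m, c i • z i := by
      rw [S_def]
      refine Finset.sum_congr rfl fun i hi => ?_
      rw [h1 i (Finset.mem_range.2 (lt_of_lt_of_le (Finset.mem_range.1 hi) hmN))]
    rw [h3, hc, ← Finset.sum_range_add_sum_Ico _ hmN]
    abel
  rw [h2]
  exact sum_mem_span z _ c

theorem exists_range_mem {F : Type*} [AddCommGroup F] [Module 𝕜 F] {v : ℕ → F} {u : F}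
    (hu : u ∈ Submodule.span 𝕜 (Set.range v)) :
    ∃ N : ℕ, u ∈ Submodule.span 𝕜 (v '' (range N : Finset ℕ)) := by
  induction hu using Submodule.span_induction with
  | mem w hw =>
    obtain ⟨n, rfl⟩ := hw
    exact ⟨n + 1, Submodule.subset_span ⟨n, by simp, rfl⟩⟩
  | zero => exact ⟨0, Submodule.zero_mem _⟩
  | add a b _ _ ha hb =>
    obtain ⟨N, hN⟩ := ha
    obtain ⟨M, hM⟩ := hb
    refine ⟨max N M, Submodule.add_mem _ ?_ ?_⟩
    · refine Submodule.span_mono (Set.image_mono ?_) hN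
      intro k hk
      simp only [Finset.coe_range, Set.mem_Iio] at hk ⊢
      omega
    · refine Submodule.span_mono (Set.image_mono ?_) hM
      intro k hk
      simp only [Finset.coe_range, Set.mem_Iio] at hk ⊢
      omega
  | smul t a _ ha =>
    obtain ⟨N, hN⟩ := ha
    exact ⟨N, Submodule.smul_mem _ _ hN⟩

/-- First lemma: a partial sum can be corrected in the next block to have norm at most
`2 ‖w‖`. -/
theorem lemma_one (hb : ∀ i j, z i (e j) = if i = j then 1 else 0)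
    (hz : Dense (Submodule.span 𝕜 (Set.range z) : Set (StrongDual 𝕜 E))) (m : ℕ) :
    ∃ p, m < p ∧ ∀ w : StrongDual 𝕜 E,
      ∃ u ∈ Submodule.span 𝕜 (z '' (Ico m p : Finset ℕ)), ‖S z e m w + u‖ ≤ 2 * ‖w‖ := by
  classical
  set Z : ℝ := ∑ i ∈ range m, ‖z i‖ with hZ
  have hZ0 : 0 ≤ Z := Finset.sum_nonneg fun _ _ => norm_nonneg _
  have hSB := SB_nonneg z e m
  set η : ℝ := 1 / (Z + SB z e m + 1) with hη
  have hη0 : 0 < η := by positivity
  have hη1 : η * (Z + SB z e m + 1) = 1 := by rw [hη]; field_simp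
  let Φ : StrongDual 𝕜 E → (Fin m → 𝕜) := fun w i => w (e i)
  have hbdd : TotallyBounded (Φ '' Metric.closedBall 0 1) := by
    have h1 : Φ '' Metric.closedBall 0 1 ⊆
        Metric.closedBall (0 : Fin m → 𝕜) (∑ i ∈ range m, ‖e i‖) := by
      rintro _ ⟨w, hw, rfl⟩
      rw [mem_closedBall_zero_iff] at hw ⊢
      rw [pi_norm_le_iff_of_nonneg (Finset.sum_nonneg fun _ _ => norm_nonneg _)]
      intro i
      calc ‖w (e i)‖ ≤ ‖w‖ * ‖e i‖ := w.le_opNorm _
        _ ≤ 1 * ‖e i‖ := mul_le_mul_of_nonneg_right hw (norm_nonneg _)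
        _ = ‖e i‖ := one_mul _
        _ ≤ ∑ i ∈ range m, ‖e i‖ := Finset.single_le_sum (f := fun i => ‖e i‖)
            (fun _ _ => norm_nonneg _) (Finset.mem_range.2 i.2)
    exact (isCompact_closedBall (0 : Fin m → 𝕜) _).totallyBounded.subset h1
  obtain ⟨t, htsub, htfin, htcov⟩ := Metric.finite_approx_of_totallyBounded hbdd η hη0
  -- choose approximants
  have hchoice : ∀ y ∈ t, ∃ v ∈ Submodule.span 𝕜 (Set.range z), ∃ w : StrongDual 𝕜 E,
      ‖w‖ ≤ 1 ∧ Φ w = y ∧ ‖w - v‖ < η := by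
    intro y hy
    obtain ⟨w, hw, hwy⟩ := htsub hy
    obtain ⟨v, hv, hwv⟩ := Metric.mem_closure_iff.1 (hz w) η hη0
    rw [dist_eq_norm] at hwv
    exact ⟨v, hv, w, by rwa [mem_closedBall_zero_iff] at hw, hwy, hwv⟩
  choose! v hv w0 hw01 hw02 hw03 using hchoice
  have hN : ∀ y ∈ t, ∃ N : ℕ, v y ∈ Submodule.span 𝕜 (z '' (range N : Finset ℕ)) := fun y hy =>
    exists_range_mem (hv y hy)
  choose! N hN using hN
  set p : ℕ := max (m + 1) (htfin.toFinset.sup N) with hp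
  refine ⟨p, lt_of_lt_of_le (Nat.lt_succ_self m) (le_max_left _ _), ?_⟩
  have hmp : m ≤ p := (Nat.le_succ m).trans (le_max_left _ _)
  -- the unit ball
  have hball : ∀ w : StrongDual 𝕜 E, ‖w‖ ≤ 1 →
      ∃ u ∈ Submodule.span 𝕜 (z '' (Ico m p : Finset ℕ)), ‖S z e m w + u‖ ≤ 2 := by
    intro w hw
    have h1 : Φ w ∈ ⋃ y ∈ t, Metric.ball y η := htcov ⟨w, by
      rwa [mem_closedBall_zero_iff], rfl⟩
    simp only [Set.mem_iUnion, exists_prop] at h1
    obtain ⟨y, hy, hwy⟩ := h1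
    refine ⟨v y - S z e m (v y), ?_, ?_⟩
    · refine S_of_mem hb hmp (Submodule.span_mono (Set.image_mono ?_) (hN y hy))
      intro k hk
      simp only [Finset.coe_range, Set.mem_Iio] at hk ⊢
      refine lt_of_lt_of_le hk (le_trans ?_ (le_max_right _ _))
      exact Finset.le_sup (f := N) (htfin.mem_toFinset.2 hy)
    · have h2 : S z e m w + (v y - S z e m (v y)) =
          S z e m (w - w0 y) + S z e m (w0 y - v y) + v y := by
        rw [map_sub, map_sub]; abel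
      rw [h2]
      have h3 : ‖S z e m (w - w0 y)‖ ≤ η * Z := by
        rw [S_def, hZ, Finset.mul_sum]
        refine (norm_sum_le _ _).trans (Finset.sum_le_sum fun i hi => ?_)
        rw [norm_smul]
        refine mul_le_mul_of_nonneg_right ?_ (norm_nonneg _)
        have h4 : (w - w0 y) (e i) = (Φ w - y) ⟨i, Finset.mem_range.1 hi⟩ := by
          have h7 := congrFun (hw02 y hy) ⟨i, Finset.mem_range.1 hi⟩
          rw [Pi.sub_apply, ← h7]
          rfl
        rw [h4]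
        refine (norm_le_pi_norm (Φ w - y) _).trans ?_
        rw [Metric.mem_ball, dist_eq_norm] at hwy
        exact hwy.le
      have h4 : ‖S z e m (w0 y - v y)‖ ≤ SB z e m * η :=
        (norm_S_le z e m _).trans (mul_le_mul_of_nonneg_left (hw03 y hy).le hSB)
      have h5 : ‖v y‖ ≤ 1 + η := by
        have h6 : v y = w0 y - (w0 y - v y) := by abel
        rw [h6]
        exact (norm_sub_le _ _).trans (add_le_add (hw01 y hy) (hw03 y hy).le)
      calc ‖S z e m (w - w0 y) + S z e m (w0 y - v y) + v y‖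
          ≤ ‖S z e m (w - w0 y) + S z e m (w0 y - v y)‖ + ‖v y‖ := norm_add_le _ _
        _ ≤ ‖S z e m (w - w0 y)‖ + ‖S z e m (w0 y - v y)‖ + ‖v y‖ :=
            add_le_add (norm_add_le _ _) le_rfl
        _ ≤ η * Z + SB z e m * η + (1 + η) := add_le_add (add_le_add h3 h4) h5
        _ = 2 := by linarith
  intro w
  by_cases hw : w = 0
  · exact ⟨0, Submodule.zero_mem _, by simp [hw]⟩
  · have hwn : 0 < ‖w‖ := norm_pos_iff.2 hw
    have hwn' : (‖w‖ : 𝕜) ≠ 0 := by exact_mod_cast hwn.ne'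
    obtain ⟨u, hu, hu2⟩ := hball ((‖w‖ : 𝕜)⁻¹ • w) (by
      rw [norm_smul, norm_inv, RCLike.norm_ofReal, abs_of_pos hwn, inv_mul_cancel₀ hwn.ne'])
    refine ⟨(‖w‖ : 𝕜) • u, Submodule.smul_mem _ _ hu, ?_⟩
    have h1 : S z e m w + (‖w‖ : 𝕜) • u =
        (‖w‖ : 𝕜) • (S z e m ((‖w‖ : 𝕜)⁻¹ • w) + u) := by
      rw [map_smul, smul_add, smul_smul, mul_inv_cancel₀ hwn', one_smul]
    rw [h1, norm_smul, RCLike.norm_ofReal, abs_of_pos hwn, mul_comm]
    exact mul_le_mul_of_nonneg_right hu2 hwn.le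

/-- Compactness of the unit sphere of a finite-dimensional subspace. -/
theorem compact_select {X : Type*} [NormedAddCommGroup X] [NormedSpace 𝕜 X] (F : Submodule 𝕜 X)
    [FiniteDimensional 𝕜 F] {ι : Type*} (P : ι → Prop) (U : ι → Set X) (hU : ∀ i, IsOpen (U i))
    (h : ∀ v ∈ F, ‖v‖ = 1 → ∃ i, P i ∧ v ∈ U i) :
    ∃ t : Finset ι, (∀ i ∈ t, P i) ∧ ∀ v ∈ F, ‖v‖ = 1 → ∃ i ∈ t, v ∈ U i := by
  classical
  have hprop : ProperSpace F := FiniteDimensional.proper 𝕜 F
  have hcomp : IsCompact ((fun v : F => (v : X)) '' Metric.sphere (0 : F) 1) :=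
    (isCompact_sphere (0 : F) 1).image continuous_subtype_val
  have hset : ((fun v : F => (v : X)) '' Metric.sphere (0 : F) 1) = {v : X | v ∈ F ∧ ‖v‖ = 1} := by
    ext v
    constructor
    · rintro ⟨w, hw, rfl⟩
      rw [mem_sphere_zero_iff_norm] at hw
      exact ⟨w.2, hw⟩
    · rintro ⟨hv1, hv2⟩
      refine ⟨⟨v, hv1⟩, ?_, rfl⟩
      rw [mem_sphere_zero_iff_norm]
      exact hv2
  rw [hset] at hcomp
  obtain ⟨t, ht⟩ := hcomp.elim_finite_subcover (fun i : {i : ι // P i} => U i)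
    (fun i => hU i) (by
      rintro v ⟨hv1, hv2⟩
      obtain ⟨i, hi, hvi⟩ := h v hv1 hv2
      exact Set.mem_iUnion.2 ⟨⟨i, hi⟩, hvi⟩)
  refine ⟨t.image (fun i : {i : ι // P i} => i.1), ?_, ?_⟩
  · intro i hi
    obtain ⟨j, _, rfl⟩ := Finset.mem_image.1 hi
    exact j.2
  · intro v hv1 hv2
    have h1 := ht ⟨hv1, hv2⟩
    simp only [Set.mem_iUnion, exists_prop] at h1
    obtain ⟨i, hi, hvi⟩ := h1
    exact ⟨i.1, Finset.mem_image_of_mem _ hi, hvi⟩

/-- Second lemma: partial sums are controlled on functionals with a long gap. -/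
theorem lemma_two (hb : ∀ i j, z i (e j) = if i = j then 1 else 0)
    (he : Dense (Submodule.span 𝕜 (Set.range e) : Set E)) (p : ℕ) :
    ∃ m', p < m' ∧ ∀ w : StrongDual 𝕜 E, (∀ n ∈ Ico p m', w (e n) = 0) →
      ‖S z e p w‖ ≤ 2 * ‖w‖ := by
  classical
  have hfd : FiniteDimensional 𝕜 (Submodule.span 𝕜 (z '' (range p : Finset ℕ))) :=
    FiniteDimensional.span_of_finite 𝕜 ((range p).finite_toSet.image z)
  obtain ⟨t, ht1, ht2⟩ := compact_select (Submodule.span 𝕜 (z '' (range p : Finset ℕ)))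
    (fun h : E => h ∈ Submodule.span 𝕜 (Set.range e) ∧ ‖h‖ < 1)
    (fun h : E => {v : StrongDual 𝕜 E | 1 / 2 < ‖v h‖})
    (fun h => isOpen_lt continuous_const
      ((ContinuousLinearMap.apply 𝕜 𝕜 h).continuous.norm)) (by
      intro v _ hv1
      obtain ⟨h, hh1, hh2⟩ := ContinuousLinearMap.exists_lt_apply_of_lt_opNorm
        v (r := 1 / 2) (by rw [hv1]; norm_num)
      have hopen : IsOpen {h : E | ‖h‖ < 1 ∧ 1 / 2 < ‖v h‖} :=
        (isOpen_lt continuous_norm continuous_const).inter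
          (isOpen_lt continuous_const v.continuous.norm)
      obtain ⟨h', hh', hh''⟩ := he.inter_open_nonempty _ hopen ⟨h, hh1, hh2⟩
      exact ⟨h', ⟨hh'', hh'.1⟩, hh'.2⟩)
  have hN : ∀ h ∈ t, ∃ N : ℕ, h ∈ Submodule.span 𝕜 (e '' (range N : Finset ℕ)) := fun h hh =>
    exists_range_mem (ht1 h hh).1
  choose! N hN using hN
  set m' : ℕ := max (p + 1) (t.sup N) with hm'
  refine ⟨m', lt_of_lt_of_le (Nat.lt_succ_self p) (le_max_left _ _), ?_⟩
  intro w hw
  by_cases h0 : S z e p w = 0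
  · rw [h0, norm_zero]
    positivity
  have hn : 0 < ‖S z e p w‖ := norm_pos_iff.2 h0
  have hSF : (‖S z e p w‖ : 𝕜)⁻¹ • S z e p w ∈ Submodule.span 𝕜 (z '' (range p : Finset ℕ)) :=
    Submodule.smul_mem _ _ (sum_mem_span z _ _)
  have hv1 : ‖(‖S z e p w‖ : 𝕜)⁻¹ • S z e p w‖ = 1 := by
    rw [norm_smul, norm_inv, RCLike.norm_ofReal, abs_of_pos hn]
    exact inv_mul_cancel₀ hn.ne'
  obtain ⟨h, hh, h2⟩ := ht2 _ hSF hv1
  -- the vector `h` does not see the difference between `w` and its partial sum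
  have h3 : S z e p w h = w h := by
    obtain ⟨c, hc⟩ := mem_span_finset_image (hN h hh)
    rw [hc, map_sum, map_sum]
    refine Finset.sum_congr rfl fun n hn => ?_
    rw [map_smul, map_smul, S_apply_e hb]
    by_cases hnp : n < p
    · rw [if_pos hnp]
    · rw [if_neg hnp, hw n]
      rw [Finset.mem_Ico]
      refine ⟨not_lt.1 hnp, lt_of_lt_of_le (Finset.mem_range.1 hn) (le_trans ?_
        (le_max_right _ _))⟩
      exact Finset.le_sup (f := N) hh
  have h2' : 1 / 2 < ‖((‖S z e p w‖ : 𝕜)⁻¹ • S z e p w) h‖ := h2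
  have h6 : 1 / 2 < ‖S z e p w‖⁻¹ * ‖w h‖ := by
    rw [smul_apply, h3, norm_smul, norm_inv, RCLike.norm_ofReal, abs_of_pos hn] at h2'
    exact h2'
  have h7 : ‖w h‖ ≤ ‖w‖ := by
    calc ‖w h‖ ≤ ‖w‖ * ‖h‖ := w.le_opNorm _
      _ ≤ ‖w‖ * 1 := mul_le_mul_of_nonneg_left (ht1 h hh).2.le (norm_nonneg _)
      _ = ‖w‖ := mul_one _
  have h8 : 1 / 2 * ‖S z e p w‖ < ‖w h‖ := by
    have := mul_lt_mul_of_pos_right h6 hn
    rw [mul_comm (‖S z e p w‖⁻¹), mul_assoc, inv_mul_cancel₀ hn.ne', mul_one] at this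
    exact this
  linarith

end Pool.Agent.W687.Block
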