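import Pool.Agent.W687.BlockC

set_option autoImplicit false

/-!
# The strong biorthogonal system
-/

namespace Pool.Agent.W687.Block

open Finset

variable {𝕜 : Type*} [RCLike 𝕜] {E : Type*} [NormedAddCommGroup E] [NormedSpace 𝕜 E]
variable {z : ℕ → StrongDual 𝕜 E} {e : ℕ → E}

theorem eq_sum_of_mem (hb : ∀ i j, z i (e j) = if i = j then 1 else 0) {B : Finset ℕ}
    {w : StrongDual 𝕜 E} (hw : w ∈ Submodule.span 𝕜 (z '' (B : Finset ℕ))) :
    w = ∑ i ∈ B, w (e i) • z i := by
  obtain ⟨c, hc⟩ := mem_span_finset_image hw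
  have h1 : ∀ i ∈ B, w (e i) = c i := by
    intro i hi
    rw [hc, _root_.sum_apply, Finset.sum_eq_single i]
    · rw [smul_apply, hb, if_pos rfl, smul_eq_mul, mul_one]
    · intro j _ hji
      rw [smul_apply, hb, if_neg hji, smul_zero]
    · intro h; exact absurd hi h
  conv_lhs => rw [hc]
  exact Finset.sum_congr rfl fun i hi => by rw [h1 i hi]

theorem apply_eq_zero_of_mem (hb : ∀ i j, z i (e j) = if i = j then 1 else 0) {B : Finset ℕ}
    {w : StrongDual 𝕜 E} (hw : w ∈ Submodule.span 𝕜 (z '' (B : Finset ℕ))) {n : ℕ}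
    (hn : n ∉ B) : w (e n) = 0 := by
  rw [eq_sum_of_mem hb hw, _root_.sum_apply]
  refine Finset.sum_eq_zero fun i hi => ?_
  rw [smul_apply, hb, if_neg, smul_zero]
  rintro rfl
  exact hn hi

/-- **Main construction.** -/
theorem main (hb : ∀ i j, z i (e j) = if i = j then 1 else 0)
    (hz : Dense (Submodule.span 𝕜 (Set.range z) : Set (StrongDual 𝕜 E)))
    (he : Dense (Submodule.span 𝕜 (Set.range e) : Set E)) :
    ∃ (y : ℕ → StrongDual 𝕜 E) (x : ℕ → E), (∀ i j, y i (x j) = if i = j then 1 else 0) ∧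
      Dense (Submodule.span 𝕜 (Set.range y) : Set (StrongDual 𝕜 E)) ∧
      Dense (Submodule.span 𝕜 (Set.range x) : Set E) ∧
      ∀ g : StrongDual 𝕜 E,
        g ∈ closure (Submodule.span 𝕜 (y '' {n | g (x n) ≠ 0}) : Set (StrongDual 𝕜 E)) := by
  classical
  choose P hP1 hP2 using lemma_one hb hz
  choose Q hQ1 hQ2 using lemma_two hb he
  obtain ⟨m, hm0, hms⟩ : ∃ m : ℕ → ℕ, m 0 = 0 ∧ ∀ k, m (k + 1) = Q (P (m k)) :=
    ⟨fun k => Nat.rec 0 (fun _ a => Q (P a)) k, rfl, fun k => rfl⟩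
  have hmP : ∀ k, m k < P (m k) := fun k => hP1 _
  have hPm : ∀ k, P (m k) < m (k + 1) := fun k => by rw [hms]; exact hQ1 _
  have hmono : StrictMono m := strictMono_nat_of_lt_succ fun k => (hmP k).trans (hPm k)
  let ε : ℕ → ℝ := fun k => 1 / (2 + SB z e (m k) + ∑ j ∈ Ico (m k) (P (m k)), ‖e j‖)
  have hden : ∀ k, 0 < 2 + SB z e (m k) + ∑ j ∈ Ico (m k) (P (m k)), ‖e j‖ := by
    intro k
    have h1 := SB_nonneg z e (m k)
    have h2 : 0 ≤ ∑ j ∈ Ico (m k) (P (m k)), ‖e j‖ := Finset.sum_nonneg fun _ _ => norm_nonneg _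
    linarith
  have hε : ∀ k, 0 < ε k := fun k => one_div_pos.2 (hden k)
  have hblock := fun k => block_lemma z e hb (m k) (P (m k)) (m (k + 1)) (hmP k).le (hPm k).le
    (ε k) (hε k)
  choose yk xk hk using hblock
  -- the block of an index
  have hex : ∀ n, ∃ k, m k ≤ n ∧ n < m (k + 1) := by
    intro n
    have h1 : ∃ k, n < m (k + 1) := ⟨n, lt_of_lt_of_le (Nat.lt_succ_self n) (hmono.id_le (n + 1))⟩
    refine ⟨Nat.find h1, ?_, Nat.find_spec h1⟩
    rcases Nat.eq_zero_or_pos (Nat.find h1) with h0 | h0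
    · rw [h0, hm0]; exact Nat.zero_le _
    · have h2 := Nat.find_min h1 (Nat.sub_lt h0 one_pos)
      have h3 : Nat.find h1 - 1 + 1 = Nat.find h1 := by omega
      rw [h3] at h2
      exact not_lt.1 h2
  choose κ hκ1 hκ2 using hex
  have hκ : ∀ k n, n ∈ Ico (m k) (m (k + 1)) → κ n = k := by
    intro k n hn
    rw [Finset.mem_Ico] at hn
    have h1 : m (κ n) < m (k + 1) := lt_of_le_of_lt (hκ1 n) hn.2
    have h2 : m k < m (κ n + 1) := lt_of_le_of_lt hn.1 (hκ2 n)
    have h3 := hmono.lt_iff_lt.1 h1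
    have h4 := hmono.lt_iff_lt.1 h2
    omega
  let y : ℕ → StrongDual 𝕜 E := fun n => yk (κ n) n
  let x : ℕ → E := fun n => xk (κ n) n
  have hy : ∀ k n, n ∈ Ico (m k) (m (k + 1)) → y n = yk k n := fun k n hn => by
    simp only [y, hκ k n hn]
  have hx : ∀ k n, n ∈ Ico (m k) (m (k + 1)) → x n = xk k n := fun k n hn => by
    simp only [x, hκ k n hn]
  have hin : ∀ n, n ∈ Ico (m (κ n)) (m (κ n + 1)) := fun n => Finset.mem_Ico.2 ⟨hκ1 n, hκ2 n⟩
  have himy : ∀ k, ∀ B : Finset ℕ, B ⊆ Ico (m k) (m (k + 1)) → yk k '' (B : Set ℕ) = y '' B := by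
    intro k B hB
    exact Set.image_congr fun n hn => (hy k n (hB hn)).symm
  have himx : ∀ k, ∀ B : Finset ℕ, B ⊆ Ico (m k) (m (k + 1)) → xk k '' (B : Set ℕ) = x '' B := by
    intro k B hB
    exact Set.image_congr fun n hn => (hx k n (hB hn)).symm
  -- memberships
  have hymem : ∀ n, y n ∈ Submodule.span 𝕜
      (z '' (Ico (m (κ n)) (m (κ n + 1)) : Finset ℕ)) := fun n => (hk (κ n)).y_mem n (hin n)
  have hxmem : ∀ n, x n ∈ Submodule.span 𝕜
      (e '' (Ico (m (κ n)) (m (κ n + 1)) : Finset ℕ)) := fun n => (hk (κ n)).x_mem n (hin n)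
  have hzmem : ∀ n, z n ∈ Submodule.span 𝕜
      (y '' (Ico (m (κ n)) (m (κ n + 1)) : Finset ℕ)) := fun n => by
    rw [← himy (κ n) _ subset_rfl]
    exact (hk (κ n)).z_mem n (hin n)
  have hemem : ∀ n, e n ∈ Submodule.span 𝕜
      (x '' (Ico (m (κ n)) (m (κ n + 1)) : Finset ℕ)) := fun n => by
    rw [← himx (κ n) _ subset_rfl]
    exact (hk (κ n)).e_mem n (hin n)
  have hbi : ∀ i j, y i (x j) = if i = j then 1 else 0 := by
    intro i j
    by_cases hij : κ i = κ j
    · have h1 := (hk (κ j)).biorth i (hij ▸ hin i) j (hin j)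
      rw [← hy (κ j) i (hij ▸ hin i), ← hx (κ j) j (hin j)] at h1
      exact h1
    · rw [if_neg (fun h => hij (by rw [h]))]
      obtain ⟨c, hc⟩ := mem_span_finset_image (hxmem j)
      rw [hc, map_sum]
      refine Finset.sum_eq_zero fun n hn => ?_
      rw [map_smul, apply_eq_zero_of_mem hb (hymem i), smul_zero]
      intro hn'
      exact hij ((hκ _ n hn').symm.trans (hκ _ n hn))
  have hzspan : Submodule.span 𝕜 (Set.range z) ≤ Submodule.span 𝕜 (Set.range y) := by
    rw [Submodule.span_le]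
    rintro _ ⟨n, rfl⟩
    exact Submodule.span_mono (Set.image_subset_range _ _) (hzmem n)
  have hespan : Submodule.span 𝕜 (Set.range e) ≤ Submodule.span 𝕜 (Set.range x) := by
    rw [Submodule.span_le]
    rintro _ ⟨n, rfl⟩
    exact Submodule.span_mono (Set.image_subset_range _ _) (hemem n)
  refine ⟨y, x, hbi, hz.mono hzspan, he.mono hespan, ?_⟩
  intro g
  set G0 : Submodule 𝕜 (StrongDual 𝕜 E) := Submodule.span 𝕜 (y '' {n | g (x n) ≠ 0}) with hG0
  have hyG0 : ∀ n, g (x n) • y n ∈ G0 := by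
    intro n
    by_cases h : g (x n) = 0
    · rw [h]
      have : (0 : 𝕜) • y n = 0 := zero_smul 𝕜 (y n)
      rw [this]
      exact G0.zero_mem
    · exact G0.smul_mem _ (Submodule.subset_span ⟨n, h, rfl⟩)
  -- the partial sums at block ends, in the new system
  have hblt : ∀ k n, n < m k → ∀ i ∈ Ico (m (κ n)) (m (κ n + 1)), i < m k := by
    intro k n hn i hi
    rw [Finset.mem_Ico] at hi
    have h1 : m (κ n) < m k := lt_of_le_of_lt (hκ1 n) hn
    have h2 := hmono.lt_iff_lt.1 h1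
    exact lt_of_lt_of_le hi.2 (hmono.monotone h2)
  have hpart : ∀ k, S z e (m k) g = ∑ n ∈ range (m k), g (x n) • y n := by
    intro k
    set D : StrongDual 𝕜 E := S z e (m k) g - ∑ n ∈ range (m k), g (x n) • y n with hD
    have hDmem : D ∈ Submodule.span 𝕜 (z '' (range (m k) : Finset ℕ)) := by
      refine Submodule.sub_mem _ (sum_mem_span z _ _) ?_
      refine Submodule.sum_mem _ fun n hn => Submodule.smul_mem _ _ ?_
      refine Submodule.span_mono (Set.image_mono ?_) (hymem n)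
      intro i hi
      exact Finset.mem_coe.2 (Finset.mem_range.2
        (hblt k n (Finset.mem_range.1 hn) i (Finset.mem_coe.1 hi)))
    have hDx : ∀ j < m k, D (x j) = 0 := by
      intro j hj
      have h1 : S z e (m k) g (x j) = g (x j) := by
        obtain ⟨c, hc⟩ := mem_span_finset_image (hxmem j)
        rw [hc, map_sum, map_sum]
        refine Finset.sum_congr rfl fun n hn => ?_
        rw [map_smul, map_smul, S_apply_e hb, if_pos (hblt k j hj n hn)]
      rw [hD, sub_apply, h1, _root_.sum_apply, Finset.sum_eq_single j]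
      · rw [smul_apply, hbi, if_pos rfl, smul_eq_mul, mul_one, sub_self]
      · intro n _ hnj
        rw [smul_apply, hbi, if_neg hnj, smul_zero]
      · intro h; exact absurd (Finset.mem_range.2 hj) h
    have hDe : ∀ j < m k, D (e j) = 0 := by
      intro j hj
      obtain ⟨c, hc⟩ := mem_span_finset_image (hemem j)
      rw [hc, map_sum]
      refine Finset.sum_eq_zero fun n hn => ?_
      rw [map_smul, hDx n (hblt k j hj n hn), smul_zero]
    have hD0 : D = 0 := by
      rw [eq_sum_of_mem hb hDmem]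
      refine Finset.sum_eq_zero fun i hi => ?_
      rw [hDe i (Finset.mem_range.1 hi)]
      exact zero_smul 𝕜 (z i)
    exact sub_eq_zero.1 hD0
  have hpartG0 : ∀ k, S z e (m k) g ∈ G0 := by
    intro k
    rw [hpart]
    exact G0.sum_mem fun n _ => hyG0 n
  -- the estimate
  rw [Metric.mem_closure_iff]
  intro δ hδ
  obtain ⟨v, hv, hgv⟩ := Metric.mem_closure_iff.1 (hz g) (δ / 7) (by positivity)
  rw [dist_eq_norm] at hgv
  obtain ⟨N, hN⟩ := exists_range_mem hv
  set k : ℕ := N with hkN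
  have hNm : N ≤ m k := hmono.id_le N
  have hvm : ∀ M, N ≤ M → v ∈ Submodule.span 𝕜 (z '' (range M : Finset ℕ)) := by
    intro M hM
    refine Submodule.span_mono (Set.image_mono ?_) hN
    intro i hi
    simp only [Finset.coe_range, Set.mem_Iio] at hi ⊢
    omega
  have hSv : ∀ M, N ≤ M → S z e M v = v := by
    intro M hM
    rw [S_def]
    exact (eq_sum_of_mem hb (hvm M hM)).symm
  have hve : ∀ n, m k ≤ n → v (e n) = 0 := by
    intro n hn
    refine apply_eq_zero_of_mem hb (hvm (m k) hNm) ?_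
    rw [Finset.mem_range]
    omega
  set w : StrongDual 𝕜 E := g - v with hw
  have hwδ : ‖w‖ < δ / 7 := hgv
  have hw0 : 0 ≤ ‖w‖ := norm_nonneg _
  set B : Finset ℕ := (Ico (m k) (m (k + 1))).filter (fun n => g (x n) ≠ 0) with hB
  have hBsub : B ⊆ Ico (m k) (m (k + 1)) := Finset.filter_subset _ _
  have hBG0 : Submodule.span 𝕜 (yk k '' (B : Finset ℕ)) ≤ G0 := by
    rw [himy k B hBsub]
    refine Submodule.span_mono (Set.image_mono ?_)
    intro n hn
    exact (Finset.mem_filter.1 (Finset.mem_coe.1 hn)).2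
  rcases (hk k).dich B hBsub with hα | hβ
  · obtain ⟨u, hu, hu2⟩ := hP2 (m k) w
    obtain ⟨u', hu', huu'⟩ := hα u hu
    have h1 : ‖u‖ ≤ (2 + SB z e (m k)) * ‖w‖ := by
      have h2 : u = (S z e (m k) w + u) - S z e (m k) w := by abel
      calc ‖u‖ = ‖(S z e (m k) w + u) - S z e (m k) w‖ := by rw [← h2]
        _ ≤ ‖S z e (m k) w + u‖ + ‖S z e (m k) w‖ := norm_sub_le _ _
        _ ≤ 2 * ‖w‖ + SB z e (m k) * ‖w‖ := add_le_add hu2 (norm_S_le z e (m k) w)
        _ = _ := by ring
    have h3 : ‖u - u'‖ ≤ ‖w‖ := by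
      refine huu'.trans ?_
      calc ε k * ‖u‖ ≤ ε k * ((2 + SB z e (m k)) * ‖w‖) :=
            mul_le_mul_of_nonneg_left h1 (hε k).le
        _ = (ε k * (2 + SB z e (m k))) * ‖w‖ := by ring
        _ ≤ 1 * ‖w‖ := by
            refine mul_le_mul_of_nonneg_right ?_ hw0
            simp only [ε]
            rw [one_div, inv_mul_le_iff₀ (hden k)]
            have : 0 ≤ ∑ j ∈ Ico (m k) (P (m k)), ‖e j‖ :=
              Finset.sum_nonneg fun _ _ => norm_nonneg _
            linarith
        _ = ‖w‖ := one_mul _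
    refine ⟨S z e (m k) g + u', G0.add_mem (hpartG0 k) (hBG0 hu'), ?_⟩
    rw [dist_eq_norm]
    have h4 : g - (S z e (m k) g + u') = w - (S z e (m k) w + u) + (u - u') := by
      have h5 : S z e (m k) g = S z e (m k) w + v := by
        have h6 : g = w + v := by rw [hw]; abel
        conv_lhs => rw [h6, map_add, hSv (m k) hNm]
      rw [h5, hw]
      abel
    rw [h4]
    calc ‖w - (S z e (m k) w + u) + (u - u')‖
        ≤ ‖w - (S z e (m k) w + u)‖ + ‖u - u'‖ := norm_add_le _ _
      _ ≤ (‖w‖ + ‖S z e (m k) w + u‖) + ‖u - u'‖ := add_le_add (norm_sub_le _ _) le_rfl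
      _ < δ := by linarith
  · -- the block part of `g`
    set ξ : StrongDual 𝕜 E := S z e (m (k + 1)) g - S z e (m k) g with hξ
    have hmk : m k ≤ m (k + 1) := (hmono (Nat.lt_succ_self k)).le
    have hξmem : ξ ∈ Submodule.span 𝕜 (yk k '' (B : Finset ℕ)) := by
      have h1 : ξ = ∑ n ∈ Ico (m k) (m (k + 1)), g (x n) • y n := by
        rw [hξ, hpart, hpart, ← Finset.sum_range_add_sum_Ico _ hmk]
        abel
      have h2 : ∑ n ∈ Ico (m k) (m (k + 1)), g (x n) • y n = ∑ n ∈ B, g (x n) • y n := by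
        rw [hB, Finset.sum_filter]
        refine Finset.sum_congr rfl fun n _ => ?_
        split_ifs with h
        · rfl
        · rw [not_not] at h
          rw [h]
          exact zero_smul 𝕜 (y n)
      rw [h1, h2, himy k B hBsub]
      exact sum_mem_span y _ _
    have hξe : ∀ n ∈ Ico (m k) (m (k + 1)), ξ (e n) = w (e n) := by
      intro n hn
      rw [Finset.mem_Ico] at hn
      rw [hξ, sub_apply, S_apply_e hb, S_apply_e hb, if_pos hn.2, if_neg (not_lt.2 hn.1),
        sub_zero, hw, sub_apply, hve n hn.1, sub_zero]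
    have h1 := hβ ξ hξmem
    set gL : StrongDual 𝕜 E := ∑ l ∈ Ico (P (m k)) (m (k + 1)), w (e l) • z l with hgL
    have h2 : ∑ l ∈ Ico (P (m k)) (m (k + 1)), ξ (e l) • z l = gL := by
      refine Finset.sum_congr rfl fun l hl => ?_
      rw [hξe l]
      rw [Finset.mem_Ico] at hl ⊢
      exact ⟨(hmP k).le.trans hl.1, hl.2⟩
    have h3 : ‖gL‖ ≤ ‖w‖ := by
      rw [← h2]
      refine h1.trans ?_
      calc ε k * ∑ j ∈ Ico (m k) (P (m k)), ‖ξ (e j)‖
          ≤ ε k * ((∑ j ∈ Ico (m k) (P (m k)), ‖e j‖) * ‖w‖) := by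
            refine mul_le_mul_of_nonneg_left ?_ (hε k).le
            rw [Finset.sum_mul]
            refine Finset.sum_le_sum fun j hj => ?_
            rw [hξe j, mul_comm]
            · exact w.le_opNorm _
            · rw [Finset.mem_Ico] at hj ⊢
              exact ⟨hj.1, hj.2.trans (hPm k)⟩
        _ = (ε k * (∑ j ∈ Ico (m k) (P (m k)), ‖e j‖)) * ‖w‖ := by ring
        _ ≤ 1 * ‖w‖ := by
            refine mul_le_mul_of_nonneg_right ?_ hw0
            simp only [ε]
            rw [one_div, inv_mul_le_iff₀ (hden k)]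
            have := SB_nonneg z e (m k)
            linarith
        _ = ‖w‖ := one_mul _
    have hgLe : ∀ n, gL (e n) = if n ∈ Ico (P (m k)) (m (k + 1)) then w (e n) else 0 := by
      intro n
      rw [hgL, _root_.sum_apply]
      have h4 : ∀ l ∈ Ico (P (m k)) (m (k + 1)), (w (e l) • z l) (e n) =
          if l = n then w (e l) else 0 := by
        intro l _
        rw [smul_apply, hb, smul_eq_mul, mul_ite, mul_one, mul_zero]
      rw [Finset.sum_congr rfl h4, Finset.sum_ite_eq']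
    have h4 : ‖S z e (P (m k)) (w - gL)‖ ≤ 2 * ‖w - gL‖ := by
      refine hQ2 (P (m k)) (w - gL) fun n hn => ?_
      have hn' : n ∈ Ico (P (m k)) (m (k + 1)) := by rw [hms]; exact hn
      rw [sub_apply, hgLe, if_pos hn', sub_self]
    have h5 : S z e (P (m k)) (w - gL) = S z e (P (m k)) w := by
      rw [S_def, S_def]
      refine Finset.sum_congr rfl fun i hi => ?_
      rw [sub_apply, hgLe, if_neg, sub_zero]
      rw [Finset.mem_range] at hi
      rw [Finset.mem_Ico]
      omega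
    have h6 : S z e (m (k + 1)) w = S z e (P (m k)) w + gL := by
      rw [S_def, S_def, hgL]
      exact (Finset.sum_range_add_sum_Ico _ (hPm k).le).symm
    have h7 : ‖w - gL‖ ≤ ‖w‖ + ‖w‖ := (norm_sub_le _ _).trans (add_le_add le_rfl h3)
    refine ⟨S z e (m (k + 1)) g, hpartG0 (k + 1), ?_⟩
    rw [dist_eq_norm]
    have h8 : g - S z e (m (k + 1)) g = w - (S z e (P (m k)) w + gL) := by
      have h5 : S z e (m (k + 1)) g = S z e (m (k + 1)) w + v := by
        have h6 : g = w + v := by rw [hw]; abel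
        conv_lhs => rw [h6, map_add, hSv (m (k + 1)) (hNm.trans hmk)]
      rw [h5, h6, hw]
      abel
    rw [h8]
    rw [h5] at h4
    calc ‖w - (S z e (P (m k)) w + gL)‖ ≤ ‖w‖ + ‖S z e (P (m k)) w + gL‖ := norm_sub_le _ _
      _ ≤ ‖w‖ + (‖S z e (P (m k)) w‖ + ‖gL‖) := add_le_add le_rfl (norm_add_le _ _)
      _ < δ := by linarith

end Pool.Agent.W687.Block
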