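import Mathlib

/-!
Scalar part: moving in the fibres of the multiplication of `ℂ × ℂ`.
-/

set_option autoImplicit false

namespace Pool.Agent.W687.OpenMul

open Complex Set

/-- a root of `(p + z) (q + z) = c` of small modulus -/
theorem exists_root (p q c : ℂ) : ∃ z : ℂ, (p + z) * (q + z) = c ∧ ‖z‖ ^ 2 ≤ ‖p * q - c‖ := by
  obtain ⟨s, hs⟩ := IsAlgClosed.exists_pow_nat_eq ((p + q) ^ 2 - 4 * (p * q - c))
    (n := 2) (by norm_num)
  set z₁ : ℂ := (-(p + q) + s) / 2 with hz₁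
  set z₂ : ℂ := (-(p + q) - s) / 2 with hz₂
  have h1 : (p + z₁) * (q + z₁) = c := by
    rw [hz₁]; linear_combination (1 / 4 : ℂ) * hs
  have h2 : (p + z₂) * (q + z₂) = c := by
    rw [hz₂]; linear_combination (1 / 4 : ℂ) * hs
  have h3 : z₁ * z₂ = p * q - c := by
    rw [hz₁, hz₂]; linear_combination (-1 / 4 : ℂ) * hs
  have h4 : ‖z₁‖ * ‖z₂‖ = ‖p * q - c‖ := by rw [← norm_mul, h3]
  rcases le_total ‖z₁‖ ‖z₂‖ with h | h
  · refine ⟨z₁, h1, ?_⟩
    rw [← h4, sq]
    exact mul_le_mul_of_nonneg_left h (norm_nonneg _)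
  · refine ⟨z₂, h2, ?_⟩
    rw [← h4, sq]
    exact mul_le_mul_of_nonneg_right h (norm_nonneg _)

/-- the part of the fibre over (a neighbourhood of) `c` close to `(f, g)` -/
def Near (f g c : ℂ) (R η : ℝ) : Set (ℂ × ℂ) :=
  {p | ‖p.1 - f‖ < R ∧ ‖p.2 - g‖ < R ∧ ‖p.1 * p.2 - c‖ < η}

theorem joinedIn_of_path {F : Set (ℂ × ℂ)} (α β : ℝ → ℂ) (hα : ContinuousOn α (Icc 0 1))
    (hβ : ContinuousOn β (Icc 0 1)) (h : ∀ t ∈ Icc (0 : ℝ) 1, (α t, β t) ∈ F) :
    JoinedIn F (α 0, β 0) (α 1, β 1) := by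
  have hc : ContinuousOn (fun t => (α t, β t)) (Icc (0:ℝ) 1) := hα.prodMk hβ
  refine ⟨⟨⟨fun t : unitInterval => (α t, β t), ?_⟩, by simp, by simp⟩, ?_⟩
  · exact (continuousOn_iff_continuous_domRestrict.1 hc)
  · intro t
    exact h t t.2

/-- the large case of the fibre lemma -/
theorem joined_large {f g a b a' b' c : ℂ} {r η : ℝ} (hη : 0 < η) (hfg : ‖f‖ ≤ ‖g‖)
    (hg : 2 * r ≤ ‖g‖) (hr : 0 < r) (hab : a * b = c) (hab' : a' * b' = c)
    (h1 : ‖a - f‖ < r) (h2 : ‖b - g‖ < r) (_h3 : ‖a' - f‖ < r) (h4 : ‖b' - g‖ < r) :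
    JoinedIn (Near f g c (7 * r) η) (a, b) (a', b') := by
  have hgpos : 0 < ‖g‖ := by linarith
  have key : ∀ t ∈ Icc (0 : ℝ) 1, ‖(b + (t : ℂ) * (b' - b)) - g‖ < r := by
    intro t ht
    have : (b + (t : ℂ) * (b' - b)) - g = (1 - t : ℝ) • (b - g) + t • (b' - g) := by
      simp only [Complex.real_smul]; push_cast; ring
    rw [this]
    have hmem := (convex_ball (0 : ℂ) r) (x := b - g) (by simpa using h2) (y := b' - g)
      (by simpa using h4) (a := 1 - t) (b := t) (by linarith [ht.2]) ht.1 (by ring)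
    simpa using hmem
  have key2 : ∀ t ∈ Icc (0 : ℝ) 1, ‖g‖ / 2 < ‖b + (t : ℂ) * (b' - b)‖ := by
    intro t ht
    have h5 := key t ht
    have h6 : ‖g‖ ≤ ‖b + (t : ℂ) * (b' - b)‖ + ‖(b + (t : ℂ) * (b' - b)) - g‖ := by
      have : g = (b + (t : ℂ) * (b' - b)) - ((b + (t : ℂ) * (b' - b)) - g) := by ring
      calc ‖g‖ = ‖(b + (t : ℂ) * (b' - b)) - ((b + (t : ℂ) * (b' - b)) - g)‖ := by
            rw [← this]
        _ ≤ _ := norm_sub_le _ _
    linarith
  have hb0 : b ≠ 0 := by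
    have := key2 0 (by simp)
    simp only [ofReal_zero, zero_mul, add_zero] at this
    rw [← norm_pos_iff]; linarith
  have hb0' : b' ≠ 0 := by
    have := key2 1 (by simp)
    simp only [ofReal_one, one_mul, add_sub_cancel] at this
    rw [← norm_pos_iff]; linarith
  have e0 : ((a, b) : ℂ × ℂ) = (c / (b + ((0 : ℝ) : ℂ) * (b' - b)), b + ((0 : ℝ) : ℂ) * (b' - b)) := by
    simp only [ofReal_zero, zero_mul, add_zero, Prod.mk.injEq, and_true]
    rw [← hab]; field_simp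
  have e1 : ((a', b') : ℂ × ℂ) = (c / (b + ((1 : ℝ) : ℂ) * (b' - b)), b + ((1 : ℝ) : ℂ) * (b' - b)) := by
    simp only [ofReal_one, one_mul, add_sub_cancel, Prod.mk.injEq, and_true]
    rw [← hab']; field_simp
  rw [e0, e1]
  have hcont : Continuous fun t : ℝ => b + (t : ℂ) * (b' - b) := by fun_prop
  refine joinedIn_of_path (fun t : ℝ => c / (b + (t : ℂ) * (b' - b)))
    (fun t : ℝ => b + (t : ℂ) * (b' - b)) ?_ hcont.continuousOn ?_
  · refine ContinuousOn.div continuousOn_const hcont.continuousOn ?_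
    intro t ht h0
    have := key2 t ht
    rw [h0, norm_zero] at this
    linarith
  · intro t ht
    have h5 := key t ht
    have h6 := key2 t ht
    set B := b + (t : ℂ) * (b' - b) with hB
    have hB0 : B ≠ 0 := by
      intro h0
      rw [h0, norm_zero] at h6; linarith
    refine ⟨?_, by linarith, ?_⟩
    · -- the first coordinate
      have e2 : c / B - f = (a - f) + a * (b - B) / B := by
        rw [← hab]; field_simp; ring
      have h7 : ‖b - B‖ < 2 * r := by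
        have : b - B = (b - g) - (B - g) := by ring
        rw [this]
        calc ‖(b - g) - (B - g)‖ ≤ ‖b - g‖ + ‖B - g‖ := norm_sub_le _ _
          _ < 2 * r := by linarith
      have h8 : ‖a‖ < 3 / 2 * ‖g‖ := by
        have : a = (a - f) + f := by ring
        calc ‖a‖ = ‖(a - f) + f‖ := by rw [← this]
          _ ≤ ‖a - f‖ + ‖f‖ := norm_add_le _ _
          _ < 3 / 2 * ‖g‖ := by linarith
      have h9 : ‖a * (b - B) / B‖ ≤ 6 * r := by
        rw [norm_div, norm_mul, div_le_iff₀ (by linarith)]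
        have h10 : ‖a‖ * ‖b - B‖ ≤ 3 / 2 * ‖g‖ * (2 * r) :=
          mul_le_mul h8.le h7.le (norm_nonneg _) (by positivity)
        nlinarith
      rw [e2]
      calc ‖(a - f) + a * (b - B) / B‖ ≤ ‖a - f‖ + ‖a * (b - B) / B‖ := norm_add_le _ _
        _ < 7 * r := by linarith
    · have : c / B * B - c = 0 := by rw [div_mul_cancel₀ _ hB0]; ring
      simp only
      rw [this, norm_zero]; exact hη

/-- the small case of the fibre lemma -/
theorem joined_small {f g a b a' b' c : ℂ} {r η : ℝ} (hη : 0 < η) (hf : ‖f‖ < 2 * r)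
    (hg : ‖g‖ < 2 * r) (hab : a * b = c) (hab' : a' * b' = c)
    (h1 : ‖a - f‖ < r) (h2 : ‖b - g‖ < r) (h3 : ‖a' - f‖ < r) (h4 : ‖b' - g‖ < r) :
    JoinedIn (Near f g c (7 * r) η) (a, b) (a', b') := by
  have hr : 0 < r := lt_of_le_of_lt (norm_nonneg _) h1
  have na : ‖a‖ < 3 * r := by
    calc ‖a‖ = ‖(a - f) + f‖ := by rw [sub_add_cancel]
      _ ≤ ‖a - f‖ + ‖f‖ := norm_add_le _ _
      _ < 3 * r := by linarith
  have nb : ‖b‖ < 3 * r := by
    calc ‖b‖ = ‖(b - g) + g‖ := by rw [sub_add_cancel]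
      _ ≤ ‖b - g‖ + ‖g‖ := norm_add_le _ _
      _ < 3 * r := by linarith
  have na' : ‖a'‖ < 3 * r := by
    calc ‖a'‖ = ‖(a' - f) + f‖ := by rw [sub_add_cancel]
      _ ≤ ‖a' - f‖ + ‖f‖ := norm_add_le _ _
      _ < 3 * r := by linarith
  have nb' : ‖b'‖ < 3 * r := by
    calc ‖b'‖ = ‖(b' - g) + g‖ := by rw [sub_add_cancel]
      _ ≤ ‖b' - g‖ + ‖g‖ := norm_add_le _ _
      _ < 3 * r := by linarith
  have fin : ∀ x y : ℂ, ‖x‖ < 3 * r → ‖y‖ < 3 * r → x * y = c → (x, y) ∈ Near f g c (7 * r) η := by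
    intro x y hx hy hxy
    refine ⟨?_, ?_, ?_⟩
    · calc ‖x - f‖ ≤ ‖x‖ + ‖f‖ := norm_sub_le _ _
        _ < 7 * r := by linarith
    · calc ‖y - g‖ ≤ ‖y‖ + ‖g‖ := norm_sub_le _ _
        _ < 7 * r := by linarith
    · simp only [hxy, sub_self, norm_zero]; exact hη
  by_cases hc : c = 0
  · -- through the origin
    have j1 : ∀ x y : ℂ, ‖x‖ < 3 * r → ‖y‖ < 3 * r → x * y = c →
        JoinedIn (Near f g c (7 * r) η) (x, y) (0, 0) := by
      intro x y hx hy hxy
      have e0 : ((x, y) : ℂ × ℂ) = (((1 - (0 : ℝ) : ℝ) : ℂ) * x, ((1 - (0 : ℝ) : ℝ) : ℂ) * y) := by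
        simp
      have e1 : ((0, 0) : ℂ × ℂ) = (((1 - (1 : ℝ) : ℝ) : ℂ) * x, ((1 - (1 : ℝ) : ℝ) : ℂ) * y) := by
        simp
      rw [e0, e1]
      refine joinedIn_of_path (fun t : ℝ => ((1 - t : ℝ) : ℂ) * x)
        (fun t : ℝ => ((1 - t : ℝ) : ℂ) * y) (by fun_prop) (by fun_prop) ?_
      intro t ht
      have ht' : |1 - t| ≤ 1 := by
        rw [abs_le]; constructor <;> linarith [ht.1, ht.2]
      apply fin
      · rw [norm_mul, Complex.norm_real, Real.norm_eq_abs]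
        calc |1 - t| * ‖x‖ ≤ 1 * ‖x‖ := mul_le_mul_of_nonneg_right ht' (norm_nonneg _)
          _ < 3 * r := by linarith
      · rw [norm_mul, Complex.norm_real, Real.norm_eq_abs]
        calc |1 - t| * ‖y‖ ≤ 1 * ‖y‖ := mul_le_mul_of_nonneg_right ht' (norm_nonneg _)
          _ < 3 * r := by linarith
      · have : ((1 - t : ℝ) : ℂ) * x * (((1 - t : ℝ) : ℂ) * y)
            = ((1 - t : ℝ) : ℂ) ^ 2 * (x * y) := by ring
        rw [this, hxy, hc, mul_zero]
    exact (j1 a b na nb hab).trans (j1 a' b' na' nb' hab').symm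
  · have ha0 : a ≠ 0 := by rintro rfl; exact hc (by rw [← hab, zero_mul])
    have hb0 : b ≠ 0 := by rintro rfl; exact hc (by rw [← hab, mul_zero])
    have ha0' : a' ≠ 0 := by rintro rfl; exact hc (by rw [← hab', zero_mul])
    have hb0' : b' ≠ 0 := by rintro rfl; exact hc (by rw [← hab', mul_zero])
    set L := Complex.log (a' / a) with hL
    have hexp : Complex.exp L = a' / a := Complex.exp_log (div_ne_zero ha0' ha0)
    have hexp' : Complex.exp (-L) = b' / b := by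
      rw [Complex.exp_neg, hexp, inv_div, div_eq_div_iff ha0' hb0, hab, mul_comm b' a', hab']
    have e0 : ((a, b) : ℂ × ℂ)
        = (a * Complex.exp (((0 : ℝ) : ℂ) * L), b * Complex.exp (((0 : ℝ) : ℂ) * (-L))) := by
      simp
    have e1 : ((a', b') : ℂ × ℂ)
        = (a * Complex.exp (((1 : ℝ) : ℂ) * L), b * Complex.exp (((1 : ℝ) : ℂ) * (-L))) := by
      simp only [ofReal_one, one_mul]
      rw [hexp, hexp', mul_div_cancel₀ _ ha0, mul_div_cancel₀ _ hb0]
    have bound : ∀ (x M : ℂ), x ≠ 0 → ∀ y : ℂ, Complex.exp M = y / x → ‖x‖ < 3 * r → ‖y‖ < 3 * r →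
        ∀ t ∈ Icc (0 : ℝ) 1, ‖x * Complex.exp ((t : ℂ) * M)‖ < 3 * r := by
      intro x M hx y hM hx3 hy3 t ht
      rw [norm_mul, Complex.norm_exp]
      have h5 : ((t : ℂ) * M).re = t * M.re := by simp
      rw [h5]
      have h6 : ‖x‖ * Real.exp M.re = ‖y‖ := by
        rw [← Complex.norm_exp, hM, norm_div, mul_div_cancel₀ _ (norm_ne_zero_iff.2 hx)]
      rcases le_total M.re 0 with h7 | h7
      · have : Real.exp (t * M.re) ≤ 1 := by
          rw [Real.exp_le_one_iff]; exact mul_nonpos_of_nonneg_of_nonpos ht.1 h7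
        calc ‖x‖ * Real.exp (t * M.re) ≤ ‖x‖ * 1 :=
              mul_le_mul_of_nonneg_left this (norm_nonneg _)
          _ < 3 * r := by linarith
      · have : Real.exp (t * M.re) ≤ Real.exp M.re := by
          apply Real.exp_le_exp.2
          nlinarith [ht.2]
        calc ‖x‖ * Real.exp (t * M.re) ≤ ‖x‖ * Real.exp M.re :=
              mul_le_mul_of_nonneg_left this (norm_nonneg _)
          _ < 3 * r := by rw [h6]; exact hy3
    rw [e0, e1]
    refine joinedIn_of_path (fun t : ℝ => a * Complex.exp ((t : ℂ) * L))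
      (fun t : ℝ => b * Complex.exp ((t : ℂ) * (-L))) (by fun_prop) (by fun_prop) ?_
    intro t ht
    apply fin
    · exact bound a L ha0 a' hexp na na' t ht
    · exact bound b (-L) hb0 b' hexp' nb nb' t ht
    · have : a * Complex.exp ((t : ℂ) * L) * (b * Complex.exp ((t : ℂ) * (-L)))
          = (a * b) * (Complex.exp ((t : ℂ) * L) * Complex.exp ((t : ℂ) * (-L))) := by ring
      rw [this, ← Complex.exp_add, hab]
      simp

theorem near_swap {f g c : ℂ} {R η : ℝ} {p q : ℂ × ℂ} (h : JoinedIn (Near g f c R η) p q) :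
    JoinedIn (Near f g c R η) p.swap q.swap := by
  obtain ⟨γ, hγ⟩ := h
  refine ⟨⟨⟨fun t => (γ t).swap, by fun_prop⟩, by simp, by simp⟩, ?_⟩
  intro t
  obtain ⟨h1, h2, h3⟩ := hγ t
  refine ⟨h2, h1, ?_⟩
  simp only [Prod.fst_swap, Prod.snd_swap, ContinuousMap.coe_mk, Path.coe_mk_mk]
  rw [mul_comm]; exact h3

/-- two points of a fibre close to `(f, g)` can be joined inside the fibre close to `(f, g)` -/
theorem joined_fibre {f g a b a' b' c : ℂ} {r η : ℝ} (hη : 0 < η)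
    (hab : a * b = c) (hab' : a' * b' = c)
    (h1 : ‖a - f‖ < r) (h2 : ‖b - g‖ < r) (h3 : ‖a' - f‖ < r) (h4 : ‖b' - g‖ < r) :
    JoinedIn (Near f g c (7 * r) η) (a, b) (a', b') := by
  have hr : 0 < r := lt_of_le_of_lt (norm_nonneg _) h1
  by_cases hs : ‖f‖ < 2 * r ∧ ‖g‖ < 2 * r
  · exact joined_small hη hs.1 hs.2 hab hab' h1 h2 h3 h4
  · rcases le_total ‖f‖ ‖g‖ with h | h
    · have hg : 2 * r ≤ ‖g‖ := by
        by_contra hcon
        push Not at hcon
        exact hs ⟨lt_of_le_of_lt h hcon, hcon⟩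
      exact joined_large hη h hg hr hab hab' h1 h2 h3 h4
    · have hf : 2 * r ≤ ‖f‖ := by
        by_contra hcon
        push Not at hcon
        exact hs ⟨hcon, lt_of_le_of_lt h hcon⟩
      exact near_swap (joined_large hη h hf hr (by rw [mul_comm]; exact hab)
        (by rw [mul_comm]; exact hab') h2 h1 h4 h3)

/-- the version with slightly different products -/
theorem joined_near {f g a b a' b' c c' : ℂ} {r η M s : ℝ} (hs : 0 < s)
    (hab : a * b = c) (hab' : a' * b' = c')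
    (h1 : ‖a - f‖ < r) (h2 : ‖b - g‖ < r) (h3 : ‖a' - f‖ < r) (h4 : ‖b' - g‖ < r)
    (hM : ‖a'‖ + ‖b'‖ ≤ M) (hcc : ‖c' - c‖ < s ^ 2) (hsη : s ^ 2 + M * s + s ^ 2 < η) :
    JoinedIn (Near f g c (7 * (r + s)) η) (a, b) (a', b') := by
  have hM0 : 0 ≤ M := le_trans (by positivity) hM
  have hr : 0 < r := lt_of_le_of_lt (norm_nonneg _) h1
  obtain ⟨z, hz, hz2⟩ := exists_root a' b' c
  rw [hab'] at hz2
  have hzs : ‖z‖ < s := by
    have : ‖z‖ ^ 2 < s ^ 2 := lt_of_le_of_lt hz2 hcc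
    exact lt_of_pow_lt_pow_left₀ 2 hs.le this
  have hη : 0 < η := lt_of_le_of_lt (by positivity) hsη
  have j1 : JoinedIn (Near f g c (7 * (r + s)) η) (a, b) (a' + z, b' + z) := by
    refine joined_fibre hη hab hz (by linarith) (by linarith) ?_ ?_
    · calc ‖a' + z - f‖ = ‖(a' - f) + z‖ := by ring_nf
        _ ≤ ‖a' - f‖ + ‖z‖ := norm_add_le _ _
        _ < r + s := by linarith
    · calc ‖b' + z - g‖ = ‖(b' - g) + z‖ := by ring_nf
        _ ≤ ‖b' - g‖ + ‖z‖ := norm_add_le _ _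
        _ < r + s := by linarith
  have j2 : JoinedIn (Near f g c (7 * (r + s)) η) (a', b') (a' + z, b' + z) := by
    have e0 : ((a', b') : ℂ × ℂ) = (a' + ((0 : ℝ) : ℂ) * z, b' + ((0 : ℝ) : ℂ) * z) := by simp
    have e1 : ((a' + z, b' + z) : ℂ × ℂ) = (a' + ((1 : ℝ) : ℂ) * z, b' + ((1 : ℝ) : ℂ) * z) := by
      simp
    rw [e0, e1]
    refine joinedIn_of_path (fun t : ℝ => a' + (t : ℂ) * z) (fun t : ℝ => b' + (t : ℂ) * z)
      (by fun_prop) (by fun_prop) ?_
    intro t ht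
    have ht' : ‖(t : ℂ) * z‖ < s := by
      rw [norm_mul, Complex.norm_real, Real.norm_eq_abs, abs_of_nonneg ht.1]
      calc t * ‖z‖ ≤ 1 * ‖z‖ := mul_le_mul_of_nonneg_right ht.2 (norm_nonneg _)
        _ < s := by linarith
    refine ⟨?_, ?_, ?_⟩
    · calc ‖a' + (t : ℂ) * z - f‖ = ‖(a' - f) + (t : ℂ) * z‖ := by ring_nf
        _ ≤ ‖a' - f‖ + ‖(t : ℂ) * z‖ := norm_add_le _ _
        _ < 7 * (r + s) := by linarith
    · calc ‖b' + (t : ℂ) * z - g‖ = ‖(b' - g) + (t : ℂ) * z‖ := by ring_nf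
        _ ≤ ‖b' - g‖ + ‖(t : ℂ) * z‖ := norm_add_le _ _
        _ < 7 * (r + s) := by linarith
    · set w := (t : ℂ) * z
      have e2 : (a' + w) * (b' + w) - c = (c' - c) + (a' + b') * w + w * w := by
        rw [← hab']; ring
      simp only
      rw [e2]
      have h5 : ‖(a' + b') * w‖ ≤ M * s := by
        rw [norm_mul]
        exact mul_le_mul ((norm_add_le _ _).trans hM) ht'.le (norm_nonneg _) hM0
      have h6 : ‖w * w‖ ≤ s ^ 2 := by
        rw [norm_mul, sq]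
        exact mul_le_mul ht'.le ht'.le (norm_nonneg _) hs.le
      calc ‖(c' - c) + (a' + b') * w + w * w‖ ≤ ‖(c' - c) + (a' + b') * w‖ + ‖w * w‖ :=
            norm_add_le _ _
        _ ≤ ‖c' - c‖ + ‖(a' + b') * w‖ + ‖w * w‖ := by gcongr; exact norm_add_le _ _
        _ < η := by linarith
  exact j1.trans j2.symm

end Pool.Agent.W687.OpenMul
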