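import Mathlib

/-!
Gluing over a finite open cover of order at most two.
-/

set_option autoImplicit false

namespace Pool.Agent.W687.OpenMul

open Set Filter Topology

/-- covering dimension at most `n`: every finite open cover has a finite open refinement such that
no point lies in more than `n + 1` of its members -/
def CovDimLE (n : ℕ) (X : Type*) [TopologicalSpace X] : Prop :=
  ∀ 𝒰 : Set (Set X), 𝒰.Finite → (∀ U ∈ 𝒰, IsOpen U) → ⋃₀ 𝒰 = univ →
    ∃ 𝒱 : Set (Set X), 𝒱.Finite ∧ (∀ V ∈ 𝒱, IsOpen V) ∧ ⋃₀ 𝒱 = univ ∧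
      (∀ V ∈ 𝒱, ∃ U ∈ 𝒰, V ⊆ U) ∧ ∀ x : X, {V | V ∈ 𝒱 ∧ x ∈ V}.ncard ≤ n + 1

theorem continuous_scale {X E : Type*} [TopologicalSpace X] [NormedAddCommGroup E]
    [NormedSpace ℝ E] (c : ℝ → E) (hc : Continuous c) (B : ℝ) (hB : ∀ t, ‖c t‖ ≤ B)
    (u v : X → ℝ) (hu : Continuous u) (hv : Continuous v) :
    Continuous (fun x => u x • c (v x / u x)) := by
  rw [continuous_iff_continuousAt]
  intro x
  by_cases hx : u x = 0
  · have h0 : Tendsto (fun y => u y • c (v y / u y)) (𝓝 x) (𝓝 0) := by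
      apply squeeze_zero_norm (a := fun y => |u y| * B)
      · intro y
        rw [norm_smul, Real.norm_eq_abs]
        exact mul_le_mul_of_nonneg_left (hB _) (abs_nonneg _)
      · have : Continuous fun y => |u y| * B := by fun_prop
        have h1 := this.tendsto x
        simpa [hx] using h1
    have h1 : u x • c (v x / u x) = 0 := by rw [hx, zero_smul]
    rw [ContinuousAt, h1]
    exact h0
  · exact hu.continuousAt.smul (hc.continuousAt.comp (hv.continuousAt.div hu.continuousAt hx))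

theorem exists_corr {E : Type*} [NormedAddCommGroup E] [NormedSpace ℝ E] {S : Set E} {P Q : E}
    (h : JoinedIn S P Q) : ∃ c : ℝ → E, Continuous c ∧ (∃ B, ∀ t, ‖c t‖ ≤ B) ∧ c 0 = 0 ∧ c 1 = 0 ∧
      ∀ t, 0 ≤ t → t ≤ 1 → (1 - t) • P + t • Q + c t ∈ S := by
  obtain ⟨γ, hγ⟩ := h
  let C : unitInterval → E := fun t => γ t - (1 - (t : ℝ)) • P - (t : ℝ) • Q
  have hC : Continuous C := by fun_prop
  refine ⟨fun t => C (projIcc 0 1 zero_le_one t), hC.comp continuous_projIcc, ?_, ?_, ?_, ?_⟩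
  · obtain ⟨B, hB⟩ := (isCompact_range hC).isBounded.exists_norm_le
    exact ⟨B, fun t => hB _ (mem_range_self _)⟩
  · simp [C]
  · simp [C]
  · intro t h0 h1
    have e : projIcc (0:ℝ) 1 zero_le_one t = ⟨t, h0, h1⟩ := projIcc_of_mem _ ⟨h0, h1⟩
    simp only [e, C]
    have : (1 - t) • P + t • Q + (γ ⟨t, h0, h1⟩ - (1 - t) • P - t • Q) = γ ⟨t, h0, h1⟩ := by
      abel
    rw [this]
    exact hγ _

/-- Gluing: over an open cover `V i` of order at most two, points `P i ∈ S i` such that `P i` and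
`P j` can be joined in `S i` whenever `V i` meets `V j` (`i < j`) are the values of a continuous
map with `F x ∈ S i` for some `i` with `x ∈ V i`. -/
theorem exists_glue {X E : Type*} [TopologicalSpace X] [CompactSpace X] [T2Space X]
    [NormedAddCommGroup E] [NormedSpace ℝ E] {n : ℕ} (V : Fin n → Set X) (hV : ∀ i, IsOpen (V i))
    (hcov : ⋃ i, V i = univ)
    (hord : ∀ i j k, i ≠ j → j ≠ k → i ≠ k → ∀ x, ¬ (x ∈ V i ∧ x ∈ V j ∧ x ∈ V k))
    (P : Fin n → E) (S : Fin n → Set E) (hP : ∀ i, P i ∈ S i)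
    (hS : ∀ i j, i < j → (V i ∩ V j).Nonempty → JoinedIn (S i) (P i) (P j)) :
    ∃ F : C(X, E), ∀ x, ∃ i, x ∈ V i ∧ F x ∈ S i := by
  classical
  obtain ⟨φ, hsupp, hsum, h01, -⟩ := exists_continuous_sum_one_of_isOpen_isCompact hV
    isCompact_univ (by rw [hcov])
  have hmem : ∀ i x, φ i x ≠ 0 → x ∈ V i := fun i x h => hsupp i (subset_tsupport _ h)
  have hc : ∀ i j, ∃ c : ℝ → E, Continuous c ∧ (∃ B, ∀ t, ‖c t‖ ≤ B) ∧ c 0 = 0 ∧ c 1 = 0 ∧
      ((i < j ∧ (V i ∩ V j).Nonempty) →
        ∀ t, 0 ≤ t → t ≤ 1 → (1 - t) • P i + t • P j + c t ∈ S i) := by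
    intro i j
    by_cases h : i < j ∧ (V i ∩ V j).Nonempty
    · obtain ⟨c, h1, h2, h3, h4, h5⟩ := exists_corr (hS i j h.1 h.2)
      exact ⟨c, h1, h2, h3, h4, fun _ => h5⟩
    · exact ⟨fun _ => 0, continuous_const, ⟨0, by simp⟩, rfl, rfl, fun h' => absurd h' h⟩
  choose c hc1 hc2 hc3 hc4 hc5 using hc
  choose B hB using hc2
  let T : Fin n × Fin n → X → E := fun p x =>
    if p.1 < p.2 then (φ p.1 x + φ p.2 x) • c p.1 p.2 (φ p.2 x / (φ p.1 x + φ p.2 x)) else 0
  have hT : ∀ p, Continuous (T p) := by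
    intro p
    by_cases hp : p.1 < p.2
    · simp only [T, hp, if_true]
      exact continuous_scale (c p.1 p.2) (hc1 _ _) (B p.1 p.2) (hB _ _)
        (fun x => φ p.1 x + φ p.2 x) (fun x => φ p.2 x) (by fun_prop) (by fun_prop)
    · simp only [T, hp, if_false]
      exact continuous_const
  have hF : Continuous fun x => ∑ i, φ i x • P i + ∑ p, T p x := by
    apply Continuous.add
    · exact continuous_finsetSum _ (fun i _ => by fun_prop)
    · exact continuous_finsetSum _ (fun p _ => hT p)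
  refine ⟨⟨_, hF⟩, fun x => ?_⟩
  simp only [ContinuousMap.coe_mk]
  have hsum' : ∑ i, φ i x = 1 := by
    have := hsum (mem_univ x)
    simpa using this
  -- the terms which vanish
  have hT0 : ∀ p : Fin n × Fin n, (φ p.1 x = 0 ∨ φ p.2 x = 0) → T p x = 0 := by
    intro p hp
    simp only [T]
    split_ifs with hlt
    · rcases hp with hp | hp
      · rw [hp, zero_add]
        by_cases h2 : φ p.2 x = 0
        · rw [h2, zero_smul]
        · rw [div_self h2, hc4, smul_zero]
      · rw [hp, zero_div, hc3, smul_zero]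
    · rfl
  obtain ⟨i, -, hi⟩ : ∃ i ∈ Finset.univ, φ i x ≠ 0 := by
    apply Finset.exists_ne_zero_of_sum_ne_zero
    rw [hsum']; exact one_ne_zero
  by_cases hex : ∃ j, j ≠ i ∧ φ j x ≠ 0
  · obtain ⟨j, hji, hj⟩ := hex
    -- the general statement for `i < j`
    have main : ∀ i j : Fin n, i < j → φ i x ≠ 0 → φ j x ≠ 0 →
        ∃ i, x ∈ V i ∧ ∑ i, φ i x • P i + ∑ p, T p x ∈ S i := by
      intro i j hij hi hj
      have hz : ∀ k, k ≠ i → k ≠ j → φ k x = 0 := by
        intro k hki hkj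
        by_contra hk
        exact hord k i j hki hij.ne hkj x ⟨hmem _ _ hk, hmem _ _ hi, hmem _ _ hj⟩
      have hs2 : φ i x + φ j x = 1 := by
        rw [← hsum', ← Finset.sum_pair hij.ne (f := fun i => φ i x)]
        apply Finset.sum_subset (Finset.subset_univ _)
        intro k _ hk
        simp only [Finset.mem_insert, Finset.mem_singleton, not_or] at hk
        exact hz k hk.1 hk.2
      have hs3 : ∑ i, φ i x • P i = φ i x • P i + φ j x • P j := by
        rw [← Finset.sum_pair hij.ne (f := fun i => φ i x • P i)]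
        symm
        apply Finset.sum_subset (Finset.subset_univ _)
        intro k _ hk
        simp only [Finset.mem_insert, Finset.mem_singleton, not_or] at hk
        rw [hz k hk.1 hk.2, zero_smul]
      have hs4 : ∑ p, T p x = T (i, j) x := by
        apply Finset.sum_eq_single
        · intro p _ hp
          by_cases hp1 : φ p.1 x = 0
          · exact hT0 p (Or.inl hp1)
          by_cases hp2 : φ p.2 x = 0
          · exact hT0 p (Or.inr hp2)
          simp only [T]
          rw [if_neg]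
          intro hlt
          have h1 : p.1 = i ∨ p.1 = j := by
            by_contra hcon
            push Not at hcon
            exact hp1 (hz _ hcon.1 hcon.2)
          have h2 : p.2 = i ∨ p.2 = j := by
            by_contra hcon
            push Not at hcon
            exact hp2 (hz _ hcon.1 hcon.2)
          rcases h1 with h1 | h1 <;> rcases h2 with h2 | h2
          · rw [h1, h2] at hlt; exact lt_irrefl _ hlt
          · exact hp (Prod.ext h1 h2)
          · rw [h1, h2] at hlt; exact lt_asymm hlt hij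
          · rw [h1, h2] at hlt; exact lt_irrefl _ hlt
        · intro h; exact absurd (Finset.mem_univ _) h
      refine ⟨i, hmem _ _ hi, ?_⟩
      rw [hs3, hs4]
      simp only [T, hij, if_true, hs2, one_smul, div_one]
      have h5 : φ i x = 1 - φ j x := by linarith
      rw [h5]
      exact hc5 i j ⟨hij, ⟨x, hmem _ _ hi, hmem _ _ hj⟩⟩ _ (h01 j x).1 (h01 j x).2
    rcases lt_or_gt_of_ne hji with h | h
    · exact main j i h hj hi
    · exact main i j h hi hj
  · push Not at hex
    have hs2 : φ i x = 1 := by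
      rw [← hsum']
      symm
      apply Finset.sum_eq_single
      · intro k _ hk; exact hex k hk
      · intro h; exact absurd (Finset.mem_univ _) h
    have hs3 : ∑ i, φ i x • P i = P i := by
      rw [Finset.sum_eq_single i, hs2, one_smul]
      · intro k _ hk; rw [hex k hk, zero_smul]
      · intro h; exact absurd (Finset.mem_univ _) h
    have hs4 : ∑ p, T p x = 0 := by
      apply Finset.sum_eq_zero
      intro p _
      by_cases hp1 : φ p.1 x = 0
      · exact hT0 p (Or.inl hp1)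
      by_cases hp2 : φ p.2 x = 0
      · exact hT0 p (Or.inr hp2)
      have h1 : p.1 = i := by
        by_contra hcon; exact hp1 (hex _ hcon)
      have h2 : p.2 = i := by
        by_contra hcon; exact hp2 (hex _ hcon)
      simp only [T]
      rw [if_neg]
      rw [h1, h2]; exact lt_irrefl _
    refine ⟨i, hmem _ _ hi, ?_⟩
    rw [hs3, hs4, add_zero]
    exact hP i

/-- indexed form of `CovDimLE 1` -/
theorem CovDimLE.exists_cover {X : Type*} [TopologicalSpace X] (h : CovDimLE 1 X)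
    (𝒰 : Set (Set X)) (hfin : 𝒰.Finite) (hopen : ∀ U ∈ 𝒰, IsOpen U) (hcov : ⋃₀ 𝒰 = univ) :
    ∃ (n : ℕ) (V : Fin n → Set X), (∀ i, IsOpen (V i)) ∧ (∀ i, (V i).Nonempty) ∧
      ⋃ i, V i = univ ∧ (∀ i, ∃ U ∈ 𝒰, V i ⊆ U) ∧
      ∀ i j k, i ≠ j → j ≠ k → i ≠ k → ∀ x, ¬ (x ∈ V i ∧ x ∈ V j ∧ x ∈ V k) := by
  obtain ⟨𝒱, h1, h2, h3, h4, h5⟩ := h 𝒰 hfin hopen hcov
  have hf : Finite {V : Set X // V ∈ 𝒱 ∧ V.Nonempty} :=
    (h1.subset (fun V (hV : V ∈ 𝒱 ∧ V.Nonempty) => hV.1)).to_subtype
  obtain ⟨n, ⟨e⟩⟩ := Finite.exists_equiv_fin {V : Set X // V ∈ 𝒱 ∧ V.Nonempty}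
  refine ⟨n, fun i => (e.symm i : Set X), fun i => h2 _ (e.symm i).2.1, fun i => (e.symm i).2.2,
    ?_, fun i => h4 _ (e.symm i).2.1, ?_⟩
  · apply eq_univ_of_forall
    intro x
    have hx : x ∈ ⋃₀ 𝒱 := by rw [h3]; exact mem_univ x
    obtain ⟨V, hV, hxV⟩ := hx
    refine mem_iUnion.2 ⟨e ⟨V, hV, ⟨x, hxV⟩⟩, ?_⟩
    simpa using hxV
  · intro i j k hij hjk hik x ⟨hi, hj, hk⟩
    have hne : ∀ a b : Fin n, a ≠ b → (e.symm a : Set X) ≠ (e.symm b : Set X) := by
      intro a b hab h
      exact hab (e.symm.injective (Subtype.ext h))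
    have hsub : ({(e.symm i : Set X), (e.symm j : Set X), (e.symm k : Set X)} : Set (Set X))
        ⊆ {V | V ∈ 𝒱 ∧ x ∈ V} := by
      rintro A hA
      simp only [mem_insert_iff, mem_singleton_iff] at hA
      rcases hA with rfl | rfl | rfl
      · exact ⟨(e.symm i).2.1, hi⟩
      · exact ⟨(e.symm j).2.1, hj⟩
      · exact ⟨(e.symm k).2.1, hk⟩
    have h6 := Set.ncard_le_ncard hsub (h1.subset (fun V hV => hV.1))
    have h7 : ({(e.symm i : Set X), (e.symm j : Set X), (e.symm k : Set X)} : Set (Set X)).ncard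
        = 3 := Set.ncard_eq_three.2 ⟨_, _, _, hne _ _ hij, hne _ _ hik, hne _ _ hjk, rfl⟩
    have h8 := h5 x
    omega

end Pool.Agent.W687.OpenMul
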