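import Pool.Agent.W687.OpenMulA
import Pool.Agent.W687.OpenMulB

/-!
Approximate and exact factorisation in `C(X, ℂ)` for `dim X ≤ 1`.
-/

set_option autoImplicit false

namespace Pool.Agent.W687.OpenMul

open Set Filter Topology

variable {X : Type*} [TopologicalSpace X] [CompactSpace X] [T2Space X]

/-- a finite open cover on whose members three given continuous functions oscillate little -/
theorem exists_fine_cover (f g h : C(X, ℂ)) {σ : ℝ} (hσ : 0 < σ) :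
    ∃ 𝒰 : Set (Set X), 𝒰.Finite ∧ (∀ U ∈ 𝒰, IsOpen U) ∧ ⋃₀ 𝒰 = univ ∧
      ∀ U ∈ 𝒰, ∀ x ∈ U, ∀ y ∈ U, ‖f x - f y‖ < σ ∧ ‖g x - g y‖ < σ ∧ ‖h x - h y‖ < σ := by
  let W : X → Set X := fun x => {y | ‖f y - f x‖ < σ / 2} ∩ {y | ‖g y - g x‖ < σ / 2} ∩
    {y | ‖h y - h x‖ < σ / 2}
  have hW : ∀ x, IsOpen (W x) := by
    intro x
    refine IsOpen.inter (IsOpen.inter ?_ ?_) ?_
    · exact isOpen_lt (by fun_prop) continuous_const
    · exact isOpen_lt (by fun_prop) continuous_const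
    · exact isOpen_lt (by fun_prop) continuous_const
  have hx : ∀ x, x ∈ W x := by
    intro x
    simp [W, hσ]
  obtain ⟨t, ht⟩ := isCompact_univ.elim_finite_subcover W hW
    (fun x _ => mem_iUnion.2 ⟨x, hx x⟩)
  refine ⟨W '' (t : Set X), t.finite_toSet.image _, ?_, ?_, ?_⟩
  · rintro _ ⟨x, -, rfl⟩; exact hW x
  · apply eq_univ_of_forall
    intro x
    have := ht (mem_univ x)
    simp only [mem_iUnion] at this
    obtain ⟨y, hy, hxy⟩ := this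
    exact ⟨W y, ⟨y, hy, rfl⟩, hxy⟩
  · rintro _ ⟨z, -, rfl⟩ x hx y hy
    obtain ⟨⟨a1, a2⟩, a3⟩ := hx
    obtain ⟨⟨b1, b2⟩, b3⟩ := hy
    simp only [mem_ofPred_eq] at a1 a2 a3 b1 b2 b3
    have key : ∀ u v w : ℂ, ‖u - w‖ < σ / 2 → ‖v - w‖ < σ / 2 → ‖u - v‖ < σ := by
      intro u v w h1 h2
      have : u - v = (u - w) - (v - w) := by ring
      rw [this]
      calc ‖(u - w) - (v - w)‖ ≤ ‖u - w‖ + ‖v - w‖ := norm_sub_le _ _
        _ < σ := by linarith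
    exact ⟨key _ _ _ a1 b1, key _ _ _ a2 b2, key _ _ _ a3 b3⟩

/-- approximate factorisation -/
theorem approx (hX : CovDimLE 1 X) (f g h : C(X, ℂ)) {ρ η : ℝ} (hρ : 0 < ρ) (hη : 0 < η)
    (hfg : ‖h - f * g‖ < ρ ^ 2) :
    ∃ a b : C(X, ℂ), ‖a - f‖ ≤ 8 * ρ ∧ ‖b - g‖ ≤ 8 * ρ ∧ ‖h - a * b‖ ≤ η := by
  set M : ℝ := ‖f‖ + ‖g‖ + 2 * ρ with hM
  have hM0 : 0 < M := by positivity
  -- choice of the small scale `s`
  obtain ⟨s, hs, hs1, hs2, hs3⟩ : ∃ s : ℝ, 0 < s ∧ s < 1 ∧ 22 * s ≤ ρ ∧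
      s ^ 2 + M * s + s ^ 2 < η / 2 := by
    have hcont : Tendsto (fun s : ℝ => s ^ 2 + M * s + s ^ 2) (𝓝[>] 0) (𝓝 0) := by
      have : Continuous fun s : ℝ => s ^ 2 + M * s + s ^ 2 := by fun_prop
      have h1 := (this.tendsto 0).mono_left (nhdsWithin_le_nhds (s := Ioi 0))
      simpa using h1
    have e1 : ∀ᶠ s in 𝓝[>] (0:ℝ), s ^ 2 + M * s + s ^ 2 < η / 2 :=
      hcont.eventually (gt_mem_nhds (by positivity))
    have e2 : ∀ᶠ s in 𝓝[>] (0:ℝ), s < min 1 (ρ / 22) :=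
      nhdsWithin_le_nhds (gt_mem_nhds (by positivity))
    have e3 : ∀ᶠ s in 𝓝[>] (0:ℝ), 0 < s := self_mem_nhdsWithin
    obtain ⟨s, ⟨h1, h2⟩, h3⟩ := ((e1.and e2).and e3).exists
    refine ⟨s, h3, lt_of_lt_of_le h2 (min_le_left _ _), ?_, h1⟩
    have := (lt_of_lt_of_le h2 (min_le_right _ _)).le
    linarith
  -- the oscillation `σ`
  obtain ⟨σ, hσ, hσ1, hσ2, hσ3⟩ : ∃ σ : ℝ, 0 < σ ∧ 2 * σ < s ^ 2 ∧ 15 * σ ≤ 15 * s ∧ σ ≤ η / 2 := by
    refine ⟨min (s ^ 2 / 3) (min s (η / 2)), by positivity, ?_, ?_, ?_⟩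
    · have := min_le_left (s ^ 2 / 3) (min s (η / 2))
      have h2 : 0 < s ^ 2 := by positivity
      linarith
    · have := (min_le_right (s ^ 2 / 3) (min s (η / 2))).trans (min_le_left _ _)
      linarith
    · exact (min_le_right (s ^ 2 / 3) (min s (η / 2))).trans (min_le_right _ _)
  obtain ⟨𝒰, u1, u2, u3, u4⟩ := exists_fine_cover f g h hσ
  obtain ⟨n, V, v1, v2, v3, v4, v5⟩ := hX.exists_cover 𝒰 u1 u2 u3
  have osc : ∀ i, ∀ x ∈ V i, ∀ y ∈ V i, ‖f x - f y‖ < σ ∧ ‖g x - g y‖ < σ ∧ ‖h x - h y‖ < σ := by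
    intro i x hx y hy
    obtain ⟨U, hU, hVU⟩ := v4 i
    exact u4 U hU x (hVU hx) y (hVU hy)
  choose x hx using v2
  choose z hz1 hz2 using fun i => exists_root (f (x i)) (g (x i)) (h (x i))
  have hz3 : ∀ i, ‖z i‖ < ρ := by
    intro i
    have h1 : ‖f (x i) * g (x i) - h (x i)‖ ≤ ‖h - f * g‖ := by
      rw [norm_sub_rev]
      exact (h - f * g).norm_coe_le_norm (x i)
    exact lt_of_pow_lt_pow_left₀ 2 hρ.le (lt_of_le_of_lt ((hz2 i).trans h1) hfg)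
  let P : Fin n → ℂ × ℂ := fun i => (f (x i) + z i, g (x i) + z i)
  let S : Fin n → Set (ℂ × ℂ) := fun i =>
    Near (f (x i)) (g (x i)) (h (x i)) (7 * (ρ + 2 * σ + s)) (η / 2)
  have hP : ∀ i, P i ∈ S i := by
    intro i
    refine ⟨?_, ?_, ?_⟩
    · simp only [P, add_sub_cancel_left]
      have := hz3 i; linarith
    · simp only [P, add_sub_cancel_left]
      have := hz3 i; linarith
    · simp only [P, hz1, sub_self, norm_zero]; positivity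
  have hS : ∀ i j, i < j → (V i ∩ V j).Nonempty → JoinedIn (S i) (P i) (P j) := by
    intro i j _ ⟨y, hyi, hyj⟩
    obtain ⟨a1, a2, a3⟩ := osc i y hyi (x i) (hx i)
    obtain ⟨b1, b2, b3⟩ := osc j (x j) (hx j) y hyj
    have tri : ∀ u v w : ℂ, ‖u - v‖ < σ → ‖v - w‖ < σ → ‖u - w‖ < 2 * σ := by
      intro u v w h1 h2
      have : u - w = (u - v) + (v - w) := by ring
      rw [this]
      calc ‖(u - v) + (v - w)‖ ≤ ‖u - v‖ + ‖v - w‖ := norm_add_le _ _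
        _ < 2 * σ := by linarith
    have c1 := tri _ _ _ b1 a1
    have c2 := tri _ _ _ b2 a2
    have c3 := tri _ _ _ b3 a3
    refine joined_near (M := M) hs (hz1 i) (hz1 j) ?_ ?_ ?_ ?_ ?_ (lt_trans c3 hσ1) hs3
    · rw [add_sub_cancel_left]; have := hz3 i; linarith
    · rw [add_sub_cancel_left]; have := hz3 i; linarith
    · calc ‖f (x j) + z j - f (x i)‖ = ‖(f (x j) - f (x i)) + z j‖ := by ring_nf
        _ ≤ ‖f (x j) - f (x i)‖ + ‖z j‖ := norm_add_le _ _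
        _ < ρ + 2 * σ := by have := hz3 j; linarith
    · calc ‖g (x j) + z j - g (x i)‖ = ‖(g (x j) - g (x i)) + z j‖ := by ring_nf
        _ ≤ ‖g (x j) - g (x i)‖ + ‖z j‖ := norm_add_le _ _
        _ < ρ + 2 * σ := by have := hz3 j; linarith
    · have h1 := norm_add_le (f (x j)) (z j)
      have h2 := norm_add_le (g (x j)) (z j)
      have h3 := f.norm_coe_le_norm (x j)
      have h4 := g.norm_coe_le_norm (x j)
      have h5 := hz3 j
      linarith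
  obtain ⟨F, hF⟩ := exists_glue V v1 v3 v5 P S hP hS
  refine ⟨⟨fun y => (F y).1, by fun_prop⟩, ⟨fun y => (F y).2, by fun_prop⟩, ?_, ?_, ?_⟩
  · rw [ContinuousMap.norm_le _ (by positivity)]
    intro y
    obtain ⟨i, hyi, h1, h2, h3⟩ := hF y
    obtain ⟨a1, a2, a3⟩ := osc i (x i) (hx i) y hyi
    simp only [ContinuousMap.sub_apply, ContinuousMap.coe_mk]
    calc ‖(F y).1 - f y‖ = ‖((F y).1 - f (x i)) + (f (x i) - f y)‖ := by ring_nf
      _ ≤ ‖(F y).1 - f (x i)‖ + ‖f (x i) - f y‖ := norm_add_le _ _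
      _ ≤ 8 * ρ := by linarith
  · rw [ContinuousMap.norm_le _ (by positivity)]
    intro y
    obtain ⟨i, hyi, h1, h2, h3⟩ := hF y
    obtain ⟨a1, a2, a3⟩ := osc i (x i) (hx i) y hyi
    simp only [ContinuousMap.sub_apply, ContinuousMap.coe_mk]
    calc ‖(F y).2 - g y‖ = ‖((F y).2 - g (x i)) + (g (x i) - g y)‖ := by ring_nf
      _ ≤ ‖(F y).2 - g (x i)‖ + ‖g (x i) - g y‖ := norm_add_le _ _
      _ ≤ 8 * ρ := by linarith
  · rw [ContinuousMap.norm_le _ hη.le]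
    intro y
    obtain ⟨i, hyi, h1, h2, h3⟩ := hF y
    obtain ⟨a1, a2, a3⟩ := osc i y hyi (x i) (hx i)
    simp only [ContinuousMap.sub_apply, ContinuousMap.mul_apply, ContinuousMap.coe_mk]
    calc ‖h y - (F y).1 * (F y).2‖
        = ‖(h y - h (x i)) - ((F y).1 * (F y).2 - h (x i))‖ := by ring_nf
      _ ≤ ‖h y - h (x i)‖ + ‖(F y).1 * (F y).2 - h (x i)‖ := norm_sub_le _ _
      _ ≤ η := by linarith

/-- exact factorisation -/
theorem exact (hX : CovDimLE 1 X) (f g h : C(X, ℂ)) {ρ : ℝ} (hρ : 0 < ρ)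
    (hfg : ‖h - f * g‖ < ρ ^ 2) :
    ∃ a b : C(X, ℂ), ‖a - f‖ ≤ 16 * ρ ∧ ‖b - g‖ ≤ 16 * ρ ∧ a * b = h := by
  have step : ∀ (n : ℕ) (p : C(X, ℂ) × C(X, ℂ)), ∃ q : C(X, ℂ) × C(X, ℂ),
      ‖h - p.1 * p.2‖ < (ρ / 2 ^ n) ^ 2 →
        (‖h - q.1 * q.2‖ < (ρ / 2 ^ (n + 1)) ^ 2 ∧ ‖q.1 - p.1‖ ≤ 8 * (ρ / 2 ^ n) ∧
          ‖q.2 - p.2‖ ≤ 8 * (ρ / 2 ^ n)) := by
    intro n p
    by_cases hp : ‖h - p.1 * p.2‖ < (ρ / 2 ^ n) ^ 2
    · have hpos : 0 < (ρ / 2 ^ (n + 1)) ^ 2 := by positivity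
      obtain ⟨a, b, h1, h2, h3⟩ := approx hX p.1 p.2 h (ρ := ρ / 2 ^ n)
        (η := (ρ / 2 ^ (n + 1)) ^ 2 / 2) (by positivity) (by positivity) hp
      exact ⟨(a, b), fun _ => ⟨by simp only; linarith, h1, h2⟩⟩
    · exact ⟨p, fun h' => absurd h' hp⟩
  choose nxt hnxt using step
  let u : ℕ → C(X, ℂ) × C(X, ℂ) := fun n => Nat.rec (f, g) (fun n p => nxt n p) n
  have hu0 : u 0 = (f, g) := rfl
  have hus : ∀ n, u (n + 1) = nxt n (u n) := fun n => rfl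
  have hgood : ∀ n, ‖h - (u n).1 * (u n).2‖ < (ρ / 2 ^ n) ^ 2 := by
    intro n
    induction n with
    | zero => rw [hu0]; simpa using hfg
    | succ n ih => rw [hus]; exact (hnxt n (u n) ih).1
  have hd1 : ∀ n, dist (u n).1 (u (n + 1)).1 ≤ 16 * ρ / 2 / 2 ^ n := by
    intro n
    rw [dist_comm, dist_eq_norm, hus]
    refine ((hnxt n (u n) (hgood n)).2.1).trans (le_of_eq ?_)
    ring
  have hd2 : ∀ n, dist (u n).2 (u (n + 1)).2 ≤ 16 * ρ / 2 / 2 ^ n := by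
    intro n
    rw [dist_comm, dist_eq_norm, hus]
    refine ((hnxt n (u n) (hgood n)).2.2).trans (le_of_eq ?_)
    ring
  obtain ⟨a, ha⟩ := cauchySeq_tendsto_of_complete (cauchySeq_of_le_geometric_two hd1)
  obtain ⟨b, hb⟩ := cauchySeq_tendsto_of_complete (cauchySeq_of_le_geometric_two hd2)
  refine ⟨a, b, ?_, ?_, ?_⟩
  · have := dist_le_of_le_geometric_two_of_tendsto₀ hd1 ha
    rw [dist_comm, dist_eq_norm, hu0] at this
    exact this
  · have := dist_le_of_le_geometric_two_of_tendsto₀ hd2 hb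
    rw [dist_comm, dist_eq_norm, hu0] at this
    exact this
  · have h1 : Tendsto (fun n => h - (u n).1 * (u n).2) atTop (𝓝 (h - a * b)) :=
      tendsto_const_nhds.sub (ha.mul hb)
    have h2 : Tendsto (fun n => h - (u n).1 * (u n).2) atTop (𝓝 0) := by
      apply squeeze_zero_norm (a := fun n : ℕ => (ρ / 2 ^ n) ^ 2)
      · intro n; exact (hgood n).le
      · have h3 : Tendsto (fun n : ℕ => (1 / 2 : ℝ) ^ n) atTop (𝓝 0) :=
          tendsto_pow_atTop_nhds_zero_of_lt_one (by norm_num) (by norm_num)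
        have h4 : Tendsto (fun n : ℕ => (ρ * (1 / 2 : ℝ) ^ n) ^ 2) atTop (𝓝 ((ρ * 0) ^ 2)) :=
          (h3.const_mul ρ).pow 2
        have h5 : (fun n : ℕ => (ρ / 2 ^ n) ^ 2) = fun n : ℕ => (ρ * (1 / 2 : ℝ) ^ n) ^ 2 := by
          funext n
          rw [one_div, inv_pow, div_eq_mul_inv]
        rw [h5]
        simpa using h4
    have h6 := tendsto_nhds_unique h1 h2
    exact (sub_eq_zero.1 h6).symm

end Pool.Agent.W687.OpenMul
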