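import Pool.Agent.H590R3.AbFop
import Pool.Agent.H590R3.AbParti

/-!
# Smooth functional calculus for the cosine of an isometry
-/

set_option autoImplicit false

namespace Pool.Agent.W687.Rot

open Pool.H590R3.Ab Pool.Agent.H984R3.AbPartiOf
open scoped BigOperators

lemma prodS : Prod_stmt := prod series

lemma decS : Dec_stmt := Pool.Agent.H663R4.AB.dec2 Pool.Agent.H343R3.Ab.dec1

/-- coefficients of `g (cos θ)` -/
noncomputable def cg (g : ℝ → ℝ) : ℤ → ℝ := ca (fun θ => g (Real.cos θ))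

lemma cont_cos {g : ℝ → ℝ} (hg : ContDiff ℝ 2 g) : Continuous (fun θ => g (Real.cos θ)) :=
  hg.continuous.comp Real.continuous_cos

lemma sm {g : ℝ → ℝ} (hg : ContDiff ℝ 2 g) : Summable (fun k : ℤ => |cg g k|) := by
  set c : ℕ → ℝ := fun j => -1 + j with hc
  set G : ℕ → ℝ → ℝ := fun j u => g (u + c j) * w u with hG
  have h1 : ∀ j, Summable (fun k : ℤ => |ca (fun θ => G j ((Real.cos θ - c j) / 1)) k|) := by
    intro j
    refine (decS (G j) ?_ ?_).1 1 one_pos le_rfl (c j)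
    · exact (hg.comp (contDiff_id.add contDiff_const)).mul w_contDiff
    · intro u hu
      simp only [hG, w_zero u hu, mul_zero]
  have h2 : (fun θ => g (Real.cos θ)) =
      fun θ => ∑ j ∈ Finset.range 3, G j ((Real.cos θ - c j) / 1) := by
    funext θ
    have h3 := w_sum 2 (Real.cos θ + 1)
    have h4 : ∀ j : ℕ, G j ((Real.cos θ - c j) / 1) = g (Real.cos θ) * w (Real.cos θ + 1 - j) := by
      intro j
      simp only [hG, div_one, hc, sub_add_cancel]
      congr 2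
      ring
    simp only [h4]
    rw [← Finset.mul_sum]
    have h5 : ∑ i ∈ Finset.range 3, w (Real.cos θ + 1 - (i : ℝ)) = 1 := by
      rw [h3, Real.smoothTransition.one_of_one_le (by linarith [Real.neg_one_le_cos θ]),
        Real.smoothTransition.zero_of_nonpos (by push_cast; linarith [Real.cos_le_one θ]), sub_zero]
    rw [h5, mul_one]
  have hcont : ∀ j, Continuous (fun θ => G j ((Real.cos θ - c j) / 1)) := by
    intro j
    have : ContDiff ℝ 2 (G j) := (hg.comp (contDiff_id.add contDiff_const)).mul w_contDiff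
    exact this.continuous.comp ((Real.continuous_cos.sub continuous_const).div_const _)
  unfold cg
  rw [h2]
  have h6 : ∀ k, ca (fun θ => ∑ j ∈ Finset.range 3, G j ((Real.cos θ - c j) / 1)) k =
      ∑ j ∈ Finset.range 3, ca (fun θ => G j ((Real.cos θ - c j) / 1)) k :=
    fun k => ca_sum _ _ (fun i _ => hcont i) k
  refine Summable.of_nonneg_of_le (fun _ => abs_nonneg _) (fun k => ?_)
    (summable_sum (s := Finset.range 3) (fun j _ => h1 j))
  rw [h6]
  exact Finset.abs_sum_le_sum_abs _ _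

lemma cg_neg (g : ℝ → ℝ) (k : ℤ) : cg g (-k) = cg g k := by
  unfold cg ca
  congr 1
  apply intervalIntegral.integral_congr
  intro θ _
  simp only
  congr 1
  push_cast
  rw [neg_mul, Real.cos_neg]

variable {E : Type*} [NormedAddCommGroup E] [NormedSpace ℝ E] [CompleteSpace E]

lemma Fop_mul (n : E ≃ₗᵢ[ℝ] E) {a b : ℤ → ℝ} (ha : Summable fun k => |a k|)
    (hb : Summable fun k => |b k|) :
    Fop n a * Fop n b = Fop n (fun m => ∑' k : ℤ, a k * b (m - k)) := by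
  have h1 := tsum_mul_tsum_of_summable_norm (summable_term_norm n ha) (summable_term_norm n hb)
  unfold Fop
  rw [h1]
  have hs := summable_mul_of_summable_norm (summable_term_norm n ha) (summable_term_norm n hb)
  let e : ℤ × ℤ ≃ ℤ × ℤ :=
    { toFun := fun p => (p.2, p.1 - p.2)
      invFun := fun q => (q.1 + q.2, q.1)
      left_inv := fun p => by ext <;> simp
      right_inv := fun q => by ext <;> simp }
  rw [← e.tsum_eq]
  have hs' := e.summable_iff.2 hs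
  have h2 : ∀ p : ℤ × ℤ, (a (e p).1 • op (n ^ (e p).1)) * (b (e p).2 • op (n ^ (e p).2))
      = (a p.2 * b (p.1 - p.2)) • op (n ^ p.1) := by
    intro p
    show (a p.2 • op (n ^ p.2)) * (b (p.1 - p.2) • op (n ^ (p.1 - p.2))) = _
    rw [smul_mul_smul_comm, ← op_mul, ← zpow_add, add_sub_cancel]
  have hs'' : Summable (fun p : ℤ × ℤ => (a p.2 * b (p.1 - p.2)) • op (n ^ p.1)) := by
    refine hs'.congr (fun p => ?_)
    exact h2 p
  rw [tsum_congr h2, hs''.tsum_prod]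
  refine tsum_congr (fun m => ?_)
  have hab : Summable (fun k : ℤ => a k * b (m - k)) := by
    obtain ⟨C, hC⟩ : ∃ C : ℝ, ∀ k, |b k| ≤ C :=
      ⟨∑' k, |b k|, fun k => hb.le_tsum k (fun _ _ => abs_nonneg _)⟩
    refine Summable.of_norm_bounded (ha.mul_right C) (fun k => ?_)
    rw [norm_mul, Real.norm_eq_abs, Real.norm_eq_abs]
    exact mul_le_mul_of_nonneg_left (hC _) (abs_nonneg _)
  show ∑' (c : ℤ), (a c * b (m - c)) • op (n ^ m) = _
  rw [hab.tsum_smul_const]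

/-- `g` of the cosine of `U` -/
noncomputable def Ps (U : E ≃ₗᵢ[ℝ] E) (g : ℝ → ℝ) : E →L[ℝ] E := Fop U (cg g)

lemma Ps_norm (U : E ≃ₗᵢ[ℝ] E) {g : ℝ → ℝ} (hg : ContDiff ℝ 2 g) :
    ‖Ps U g‖ ≤ ∑' k, |cg g k| := Fop_norm_le U (sm hg)

lemma Ps_mul (U : E ≃ₗᵢ[ℝ] E) {g h : ℝ → ℝ} (hg : ContDiff ℝ 2 g) (hh : ContDiff ℝ 2 h) :
    Ps U g * Ps U h = Ps U (fun u => g u * h u) := by
  unfold Ps
  rw [Fop_mul U (sm hg) (sm hh)]
  congr 1
  funext m
  exact prodS (fun θ => g (Real.cos θ)) (fun θ => h (Real.cos θ)) (cont_cos hg) (cont_cos hh)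
    (fun θ => by simp only [Real.cos_neg]) (fun θ => by simp only [Real.cos_add_two_pi])
    (fun θ => by simp only [Real.cos_neg]) (fun θ => by simp only [Real.cos_add_two_pi])
    (sm hg) (sm hh) m

lemma Ps_sub (U : E ≃ₗᵢ[ℝ] E) {g h : ℝ → ℝ} (hg : ContDiff ℝ 2 g) (hh : ContDiff ℝ 2 h) :
    Ps U g - Ps U h = Ps U (fun u => g u - h u) := by
  have h1 := Fop_lin U (sm hg) (sm hh) 1 (-1)
  rw [one_smul, neg_one_smul, ← sub_eq_add_neg] at h1
  unfold Ps
  rw [h1]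
  congr 1
  funext k
  unfold cg
  rw [ca_sub (cont_cos hg) (cont_cos hh)]
  ring

lemma Ps_sum (U : E ≃ₗᵢ[ℝ] E) {g : ℕ → ℝ → ℝ} (hg : ∀ j, ContDiff ℝ 2 (g j)) (s : Finset ℕ) :
    ∑ j ∈ s, Ps U (g j) = Ps U (fun u => ∑ j ∈ s, g j u) := by
  unfold Ps
  rw [Fop_sum U (fun j => sm (hg j))]
  congr 1
  funext k
  unfold cg
  rw [ca_sum _ _ (fun i _ => cont_cos (hg i))]

lemma Ps_congr (U : E ≃ₗᵢ[ℝ] E) {g h : ℝ → ℝ} (H : ∀ u, -1 ≤ u → u ≤ 1 → g u = h u) :
    Ps U g = Ps U h := by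
  unfold Ps cg
  congr 2
  funext θ
  exact H _ (Real.neg_one_le_cos θ) (Real.cos_le_one θ)

lemma Ps_one (U : E ≃ₗᵢ[ℝ] E) : Ps U (fun _ => 1) = 1 := by
  unfold Ps cg
  have : ca (fun _ => 1) = fun k : ℤ => if k = 0 then (1 : ℝ) else 0 := by
    funext k; exact ca_one k
  rw [this, Fop_delta]

lemma Co_Ps (U : E ≃ₗᵢ[ℝ] E) {g : ℝ → ℝ} (hg : ContDiff ℝ 2 g) (c : ℝ) :
    (Co U - c • 1) * Ps U g = Ps U (fun u => (u - c) * g u) := by
  unfold Ps
  rw [Co_mul_Fop U (sm hg)]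
  congr 1
  funext k
  unfold cg
  rw [← ca_cos_mul (cont_cos hg), ← ca_const_mul,
    ← ca_sub (F := fun θ => Real.cos θ * g (Real.cos θ)) (G := fun θ => c * g (Real.cos θ))
      (Real.continuous_cos.mul (cont_cos hg)) (continuous_const.mul (cont_cos hg))]
  congr 1
  funext θ
  ring

lemma Ps_comm (U : E ≃ₗᵢ[ℝ] E) {g h : ℝ → ℝ} (hg : ContDiff ℝ 2 g) (hh : ContDiff ℝ 2 h) :
    Ps U g * Ps U h = Ps U h * Ps U g := by
  rw [Ps_mul U hg hh, Ps_mul U hh hg]
  congr 1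
  funext u
  ring

/-- commutation with an involution which inverts `U` -/
lemma Ps_inv (U s : E ≃ₗᵢ[ℝ] E) (hs : s * U * s⁻¹ = U⁻¹) {g : ℝ → ℝ} (hg : ContDiff ℝ 2 g)
    (z : E) : s (Ps U g (s⁻¹ z)) = Ps U g z := by
  have h1 := Fop_conj U s (sm hg)
  rw [hs] at h1
  have h2 : Fop U⁻¹ (cg g) = Fop U (cg g) := by
    unfold Fop
    rw [← (Equiv.neg ℤ).tsum_eq]
    refine tsum_congr (fun k => ?_)
    show cg g (-k) • op (U⁻¹ ^ (-k)) = cg g k • op (U ^ k)
    rw [cg_neg, inv_zpow, zpow_neg, inv_inv]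
  rw [h2] at h1
  exact DFunLike.congr_fun h1 z

end Pool.Agent.W687.Rot
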