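import Pool.Agent.W687.RotPlane

/-!
# Absolute norms on the plane with an almost rotation are almost Euclidean
-/

set_option autoImplicit false

namespace Pool.Agent.W687.Rot

namespace AbsNorm

variable {n : ℝ → ℝ → ℝ} (hn : AbsNorm n)

include hn

/-- polar coordinates -/
lemma polar (p q : ℝ) : ∃ φ : ℝ, 0 ≤ φ ∧ φ ≤ Real.pi / 2 ∧
    n p q = Real.sqrt (p ^ 2 + q ^ 2) * n (Real.cos φ) (Real.sin φ) := by
  have hpi := Real.pi_pos
  -- reduce to the first quadrant
  have habs : n p q = n |p| |q| := by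
    have a1 : ∀ p q, n p |q| = n p q := by
      intro p q
      rcases abs_choice q with h | h
      · rw [h]
      · rw [h, hn.s2]
    have a2 : ∀ p q, n |p| q = n p q := by
      intro p q
      rcases abs_choice p with h | h
      · rw [h]
      · rw [h]
        have := hn.hom (-1) p q
        rw [neg_one_mul, neg_one_mul, hn.s2, abs_neg, abs_one, one_mul] at this
        exact this
    rw [a1, a2]
  set ρ : ℝ := Real.sqrt (p ^ 2 + q ^ 2) with hρ
  have hρ2 : ρ ^ 2 = p ^ 2 + q ^ 2 := Real.sq_sqrt (by positivity)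
  rcases (Real.sqrt_nonneg (p ^ 2 + q ^ 2)).eq_or_lt with h | h
  · rw [← hρ] at h
    rw [← h] at hρ2
    have hp : p = 0 := by nlinarith [sq_nonneg p, sq_nonneg q]
    have hq : q = 0 := by nlinarith [sq_nonneg p, sq_nonneg q]
    refine ⟨0, le_rfl, by positivity, ?_⟩
    rw [hp, hq, hn.e1, ← h, zero_mul, abs_zero]
  · rw [← hρ] at h
    have hqρ : |q| / ρ ≤ 1 := by
      rw [div_le_one h]
      exact Real.abs_le_sqrt (by nlinarith [sq_nonneg p])
    have hq0 : 0 ≤ |q| / ρ := by positivity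
    refine ⟨Real.arcsin (|q| / ρ), Real.arcsin_nonneg.2 hq0, Real.arcsin_le_pi_div_two _, ?_⟩
    have h3 : Real.cos (Real.arcsin (|q| / ρ)) = |p| / ρ := by
      rw [Real.cos_arcsin, div_pow, hρ2, sq_abs, ← sq_abs p]
      have h4 : 1 - q ^ 2 / (|p| ^ 2 + q ^ 2) = (|p| / ρ) ^ 2 := by
        rw [div_pow, hρ2, sq_abs]
        have : p ^ 2 + q ^ 2 ≠ 0 := by rw [← hρ2]; positivity
        field_simp
        ring
      rw [h4, Real.sqrt_sq (by positivity)]
    rw [Real.sin_arcsin (by linarith) hqρ, h3]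
    have h5 := hn.hom ρ (|p| / ρ) (|q| / ρ)
    rw [mul_div_cancel₀ _ h.ne', mul_div_cancel₀ _ h.ne', abs_of_pos h] at h5
    rw [habs, h5]

/-- almost rotations: the norm is almost Euclidean -/
lemma near_euclid {c θ K : ℝ} (hc : c ≤ 1 / 16) (hθ : 0 < θ) (hθc : θ ≤ c) (hK : 0 < K)
    (h : ∀ k : ℕ, k * θ ≤ Real.pi / 2 →
      |n (Real.cos (k * θ)) (K * Real.sin (k * θ)) - 1| ≤ c) :
    |K - 1| ≤ 4 * c ∧
      ∀ p q, |n p q - Real.sqrt (p ^ 2 + q ^ 2)| ≤ 7 * c * Real.sqrt (p ^ 2 + q ^ 2) := by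
  have hpi := Real.pi_pos
  have fl : ∀ ψ : ℝ, 0 ≤ ψ → ∃ k : ℕ, k * θ ≤ ψ ∧ |ψ - k * θ| ≤ c := by
    intro ψ hψ
    have g1 := Nat.floor_le (div_nonneg hψ hθ.le)
    have g2 := Nat.lt_floor_add_one (ψ / θ)
    rw [le_div_iff₀ hθ] at g1
    rw [div_lt_iff₀ hθ] at g2
    refine ⟨⌊ψ / θ⌋₊, g1, ?_⟩
    rw [abs_le]
    constructor <;> nlinarith
  have lipc : ∀ x y : ℝ, |Real.cos x - Real.cos y| ≤ |x - y| := Real.abs_cos_sub_cos_le
  have lips : ∀ x y : ℝ, |Real.sin x - Real.sin y| ≤ |x - y| := Real.abs_sin_sub_sin_le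
  obtain ⟨l, hl1, hl⟩ := fl (Real.pi / 2) (by positivity)
  have c1 := (lipc (Real.pi / 2) (l * θ)).trans hl
  have s1 := (lips (Real.pi / 2) (l * θ)).trans hl
  rw [Real.cos_pi_div_two, zero_sub, abs_neg] at c1
  rw [Real.sin_pi_div_two] at s1
  have hl2 := h l hl1
  have hl3 := abs_le.1 hl2
  have K1 : K * Real.sin (l * θ) ≤ 1 + c := by
    have := (le_abs_self _).trans (hn.right (Real.cos (l * θ)) (K * Real.sin (l * θ)))
    linarith
  have s2 : 1 - c ≤ Real.sin (l * θ) := by
    have := (abs_le.1 s1).2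
    linarith
  have K2 : K ≤ 4 / 3 := by nlinarith
  have K3 : |K - 1| ≤ 4 * c := by
    have g1 := hn.lip (Real.cos (l * θ)) (K * Real.sin (l * θ)) 0 K
    rw [hn.e2, abs_of_pos hK, sub_zero] at g1
    have g2 : |K * Real.sin (l * θ) - K| ≤ K * c := by
      have : K * Real.sin (l * θ) - K = - (K * (1 - Real.sin (l * θ))) := by ring
      rw [this, abs_neg, abs_mul, abs_of_pos hK]
      exact mul_le_mul_of_nonneg_left s1 hK.le
    have g3 : |K - 1| ≤ |n (Real.cos (l * θ)) (K * Real.sin (l * θ)) - K| +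
        |n (Real.cos (l * θ)) (K * Real.sin (l * θ)) - 1| := by
      have : K - 1 = - (n (Real.cos (l * θ)) (K * Real.sin (l * θ)) - K) +
        (n (Real.cos (l * θ)) (K * Real.sin (l * θ)) - 1) := by ring
      rw [this]
      refine (abs_add_le _ _).trans ?_
      rw [abs_neg]
    nlinarith
  refine ⟨K3, fun p q => ?_⟩
  obtain ⟨φ, h0, h1, h2⟩ := hn.polar p q
  have hb : |n (Real.cos φ) (Real.sin φ) - 1| ≤ 7 * c := by
    obtain ⟨k, hk1, hk⟩ := fl φ h0
    have g1 := hn.lip (Real.cos φ) (Real.sin φ) (Real.cos (k * θ)) (K * Real.sin (k * θ))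
    have g0 := h k (hk1.trans h1)
    have g2 := (lipc φ (k * θ)).trans hk
    have g3 := (lips φ (k * θ)).trans hk
    have g4 : |Real.sin φ - K * Real.sin (k * θ)| ≤ c + |K - 1| := by
      have e : Real.sin φ - K * Real.sin (k * θ) =
          (Real.sin φ - Real.sin (k * θ)) + (1 - K) * Real.sin (k * θ) := by ring
      rw [e]
      refine (abs_add_le _ _).trans (add_le_add g3 ?_)
      rw [abs_mul, abs_sub_comm 1 K]
      exact mul_le_of_le_one_right (abs_nonneg _) (Real.abs_sin_le_one _)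
    have g5 : |n (Real.cos φ) (Real.sin φ) - 1| ≤
        |n (Real.cos φ) (Real.sin φ) - n (Real.cos (k * θ)) (K * Real.sin (k * θ))| +
        |n (Real.cos (k * θ)) (K * Real.sin (k * θ)) - 1| := by
      have : n (Real.cos φ) (Real.sin φ) - 1 =
        (n (Real.cos φ) (Real.sin φ) - n (Real.cos (k * θ)) (K * Real.sin (k * θ))) +
        (n (Real.cos (k * θ)) (K * Real.sin (k * θ)) - 1) := by ring
      rw [this]
      exact abs_add_le _ _
    linarith
  rw [h2]
  have e : Real.sqrt (p ^ 2 + q ^ 2) * n (Real.cos φ) (Real.sin φ) - Real.sqrt (p ^ 2 + q ^ 2) =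
      (n (Real.cos φ) (Real.sin φ) - 1) * Real.sqrt (p ^ 2 + q ^ 2) := by ring
  rw [e, abs_mul, abs_of_nonneg (Real.sqrt_nonneg _)]
  exact mul_le_mul_of_nonneg_right hb (Real.sqrt_nonneg _)

end AbsNorm

open Real in
/-- powers of an almost rotation -/
lemma iter {E : Type*} [NormedAddCommGroup E] [NormedSpace ℝ E] (U : E ≃ₗᵢ[ℝ] E) (x v : E)
    (θ K ε1 ε2 : ℝ) (hK : 0 < K)
    (h1 : ‖U x - (cos θ • x + (K * sin θ) • v)‖ ≤ ε1)
    (h2 : ‖U v - (-(sin θ / K) • x + cos θ • v)‖ ≤ ε2) (k : ℕ) :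
    ‖(U ^ k) x - (cos (k * θ) • x + (K * sin (k * θ)) • v)‖ ≤ k * (ε1 + K * ε2) ∧
    ‖(U ^ k) v - (-(sin (k * θ) / K) • x + cos (k * θ) • v)‖ ≤ k * (ε1 / K + ε2) := by
  set e1 : E := U x - (cos θ • x + (K * sin θ) • v) with he1d
  set e2 : E := U v - (-(sin θ / K) • x + cos θ • v) with he2d
  have hUx : U x = cos θ • x + (K * sin θ) • v + e1 := by rw [he1d]; abel
  have hUv : U v = -(sin θ / K) • x + cos θ • v + e2 := by rw [he2d]; abel
  have hs : ∀ t : ℝ, |sin t| ≤ 1 := Real.abs_sin_le_one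
  have hc : ∀ t : ℝ, |cos t| ≤ 1 := Real.abs_cos_le_one
  induction k with
  | zero =>
    constructor
    · simp
    · simp
  | succ k ih =>
    obtain ⟨ih1, ih2⟩ := ih
    have hkθ : ((k + 1 : ℕ) : ℝ) * θ = k * θ + θ := by push_cast; ring
    have hp : ∀ z : E, (U ^ (k + 1)) z = U ((U ^ k) z) := by
      intro z
      rw [pow_succ']
      rfl
    rw [hkθ, cos_add, sin_add, hp, hp]
    set α : ℝ := k * θ with hα
    set f1 : E := (U ^ k) x - (cos α • x + (K * sin α) • v) with hf1
    set f2 : E := (U ^ k) v - (-(sin α / K) • x + cos α • v) with hf2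
    have g1 : (U ^ k) x = cos α • x + (K * sin α) • v + f1 := by rw [hf1]; abel
    have g2 : (U ^ k) v = -(sin α / K) • x + cos α • v + f2 := by rw [hf2]; abel
    constructor
    · have e : U ((U ^ k) x) - ((cos α * cos θ - sin α * sin θ) • x +
          (K * (sin α * cos θ + cos α * sin θ)) • v) =
          U f1 + cos α • e1 + (K * sin α) • e2 := by
        rw [g1, map_add, map_add, map_smul, map_smul, hUx, hUv]
        have : (K * sin α) • (-(sin θ / K) • x + cos θ • v + e2) =
            (-(sin α * sin θ)) • x + (K * sin α * cos θ) • v + (K * sin α) • e2 := by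
          rw [smul_add, smul_add, smul_smul, smul_smul]
          congr 3
          field_simp
        rw [this]
        module
      rw [e]
      have n1 : ‖cos α • e1‖ ≤ ε1 := by
        rw [norm_smul, Real.norm_eq_abs]
        calc |cos α| * ‖e1‖ ≤ 1 * ε1 := mul_le_mul (hc α) h1 (norm_nonneg _) zero_le_one
          _ = ε1 := one_mul _
      have n2 : ‖(K * sin α) • e2‖ ≤ K * ε2 := by
        rw [norm_smul, Real.norm_eq_abs, abs_mul, abs_of_pos hK, mul_assoc]
        refine mul_le_mul_of_nonneg_left ?_ hK.le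
        calc |sin α| * ‖e2‖ ≤ 1 * ε2 := mul_le_mul (hs α) h2 (norm_nonneg _) zero_le_one
          _ = ε2 := one_mul _
      have n3 : ‖U f1‖ ≤ k * (ε1 + K * ε2) := by rw [U.norm_map]; exact ih1
      have := norm_add₃_le (a := U f1) (b := cos α • e1) (c := (K * sin α) • e2)
      refine this.trans ?_
      push_cast
      linarith
    · have e : U ((U ^ k) v) - (-((sin α * cos θ + cos α * sin θ) / K) • x +
          (cos α * cos θ - sin α * sin θ) • v) =
          U f2 + (-(sin α / K)) • e1 + cos α • e2 := by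
        rw [g2, map_add, map_add, map_smul, map_smul, hUx, hUv]
        have : (-(sin α / K)) • (cos θ • x + (K * sin θ) • v + e1) =
            (-(sin α * cos θ / K)) • x + (-(sin α * sin θ)) • v + (-(sin α / K)) • e1 := by
          rw [smul_add, smul_add, smul_smul, smul_smul]
          congr 3
          · ring
          · field_simp
        rw [this]
        have e5 : (sin α * cos θ + cos α * sin θ) / K = sin α * cos θ / K + cos α * (sin θ / K) := by
          ring
        rw [e5]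
        module
      rw [e]
      have n1 : ‖(-(sin α / K)) • e1‖ ≤ ε1 / K := by
        rw [norm_smul, Real.norm_eq_abs, abs_neg, abs_div, abs_of_pos hK, div_mul_eq_mul_div]
        refine div_le_div_of_nonneg_right ?_ hK.le
        calc |sin α| * ‖e1‖ ≤ 1 * ε1 := mul_le_mul (hs α) h1 (norm_nonneg _) zero_le_one
          _ = ε1 := one_mul _
      have n2 : ‖cos α • e2‖ ≤ ε2 := by
        rw [norm_smul, Real.norm_eq_abs]
        calc |cos α| * ‖e2‖ ≤ 1 * ε2 := mul_le_mul (hc α) h2 (norm_nonneg _) zero_le_one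
          _ = ε2 := one_mul _
      have n3 : ‖U f2‖ ≤ k * (ε1 / K + ε2) := by rw [U.norm_map]; exact ih2
      have := norm_add₃_le (a := U f2) (b := (-(sin α / K)) • e1) (c := cos α • e2)
      refine this.trans ?_
      push_cast
      linarith

end Pool.Agent.W687.Rot
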