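import Mathlib

/-!
# The law for isotropic kernels
-/

set_option autoImplicit false

namespace Pool.Agent.W687.Rot

/-- a seminormed space with an isotropic projection and a rotation by `π / 4` in the plane of `w`
and `v` -/
structure Iso2 {F : Type*} [AddCommGroup F] [Module ℝ F] (N : Seminorm ℝ F) (P V : F →ₗ[ℝ] F)
    (w v : F) : Prop where
  proj : ∀ x, P (P x) = P x
  lip : ∀ u y y', P u = u → P y = 0 → P y' = 0 → |N (u + y) - N (u + y')| ≤ |N y - N y'|
  iso : ∀ z, N (V z) = N z
  hw : P w = 0
  hv : P v = v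
  Vw : N (V w - Real.sqrt (1 / 2) • (w + v)) = 0
  Vv : N (V v - Real.sqrt (1 / 2) • (v - w)) = 0
  eu : ∀ p q : ℝ, N (p • w + q • v) = Real.sqrt (p ^ 2 + q ^ 2)

variable {F : Type*} [AddCommGroup F] [Module ℝ F] {N : Seminorm ℝ F} {P V : F →ₗ[ℝ] F} {w v : F}

lemma sem_congr (N : Seminorm ℝ F) {x y : F} (h : N (x - y) = 0) : N x = N y := by
  have h1 := abs_sub_map_le_sub N x y
  rw [h] at h1
  exact sub_eq_zero.1 (abs_nonpos_iff.1 h1)

namespace Iso2

variable (H : Iso2 N P V w v)

include H

lemma Nw : N w = 1 := by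
  have := H.eu 1 0
  simpa using this

/-- only the seminorm of the component in the kernel matters -/
lemma eq_of (u y y' : F) (hu : P u = u) (hy : P y = 0) (hy' : P y' = 0) (h : N y = N y') :
    N (u + y) = N (u + y') := by
  have h1 := H.lip u y y' hu hy hy'
  rw [h, sub_self, abs_zero] at h1
  exact sub_eq_zero.1 (abs_nonpos_iff.1 h1)

lemma c1 (y : F) (hy : P y = 0) (a c : ℝ) :
    N (c • v + (y + a • w)) ^ 2 = c ^ 2 + N (y + a • w) ^ 2 := by
  have h2 : N (y + a • w) = N (N (y + a • w) • w) := by
    rw [map_smul_eq_mul, H.Nw, mul_one, Real.norm_of_nonneg (apply_nonneg N _)]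
  have h3 := H.eq_of (c • v) (y + a • w) (N (y + a • w) • w) (by rw [map_smul, H.hv])
    (by rw [map_add, map_smul, hy, H.hw, smul_zero, add_zero])
    (by rw [map_smul, H.hw, smul_zero]) h2
  rw [h3, add_comm, H.eu, Real.sq_sqrt (by positivity)]
  ring

lemma c2 (y : F) (hy : P y = 0) (a c : ℝ) :
    N ((P (V y) + c • v) + ((V y - P (V y)) + a • w)) ^ 2 =
      (c - a) ^ 2 / 2 + N (y + (Real.sqrt (1 / 2) * (a + c)) • w) ^ 2 := by
  set k : ℝ := Real.sqrt (1 / 2) with hk
  have hk2 : k * k = 1 / 2 := Real.mul_self_sqrt (by norm_num)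
  have h1 := H.c1 y hy (k * (a + c)) (k * (c - a))
  have h2 := H.iso ((k * (c - a)) • v + (y + (k * (a + c)) • w))
  have h3 : N ((P (V y) + c • v) + ((V y - P (V y)) + a • w)) =
      N (V ((k * (c - a)) • v + (y + (k * (a + c)) • w))) := by
    symm
    apply sem_congr
    have e : V ((k * (c - a)) • v + (y + (k * (a + c)) • w)) -
        ((P (V y) + c • v) + ((V y - P (V y)) + a • w)) =
        (k * (c - a)) • (V v - k • (v - w)) + (k * (a + c)) • (V w - k • (w + v)) := by
      rw [map_add, map_add, map_smul, map_smul]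
      have e1 : c • v = (2 * (k * k) * c) • v := by
        rw [hk2]; congr 1; ring
      have e2 : a • w = (2 * (k * k) * a) • w := by
        rw [hk2]; congr 1; ring
      rw [e1, e2]
      module
    rw [e]
    refine le_antisymm ?_ (apply_nonneg N _)
    refine (map_add_le_add N _ _).trans ?_
    rw [map_smul_eq_mul, map_smul_eq_mul, H.Vw, H.Vv, mul_zero, mul_zero, add_zero]
  rw [h3, h2, h1]
  have e3 : (k * (c - a)) ^ 2 = k * k * (c - a) ^ 2 := by ring
  rw [e3, hk2]
  ring

/-- the increments of `m (a) = N (y + a w) ^ 2` -/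
lemma c3 (y : F) (hy : P y = 0) (A B : ℝ)
    (h : N ((V y - P (V y)) + A • w) = N ((V y - P (V y)) + B • w)) (c : ℝ) :
    (c - A) ^ 2 / 2 + N (y + (Real.sqrt (1 / 2) * (A + c)) • w) ^ 2 =
      (c - B) ^ 2 / 2 + N (y + (Real.sqrt (1 / 2) * (B + c)) • w) ^ 2 := by
  rw [← H.c2 y hy, ← H.c2 y hy]
  have hk : ∀ a : ℝ, P ((V y - P (V y)) + a • w) = 0 := by
    intro a
    rw [map_add, map_sub, H.proj, sub_self, map_smul, H.hw, smul_zero, zero_add]
  rw [H.eq_of (P (V y) + c • v) _ _ ?_ (hk A) (hk B) h]
  rw [map_add, H.proj, map_smul, H.hv]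

/-- all large steps occur -/
lemma c4 (y' : F) (h' : ℝ) (hh : 2 * N y' ≤ h') (hh0 : 0 ≤ h') :
    ∃ A : ℝ, N (y' + A • w) = N (y' + (A + h') • w) := by
  have hlip : ∀ a b : ℝ, |N (y' + a • w) - N (y' + b • w)| ≤ |a - b| := by
    intro a b
    refine (abs_sub_map_le_sub N _ _).trans ?_
    have : y' + a • w - (y' + b • w) = (a - b) • w := by module
    rw [this, map_smul_eq_mul, H.Nw, mul_one, Real.norm_eq_abs]
  have hcont : Continuous (fun a : ℝ => N (y' + a • w)) := by
    refine LipschitzWith.continuous (K := 1) (LipschitzWith.of_dist_le_mul fun a b => ?_)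
    rw [Real.dist_eq, Real.dist_eq, NNReal.coe_one, one_mul]
    exact hlip a b
  set f : ℝ → ℝ := fun a => N (y' + (a + h') • w) - N (y' + a • w) with hf
  have hfc : Continuous f := by
    refine Continuous.sub ?_ hcont
    exact hcont.comp (continuous_id.add continuous_const)
  have hlow : ∀ a : ℝ, |a| - N y' ≤ N (y' + a • w) := by
    intro a
    have h1 : N (a • w) ≤ N (y' + a • w) + N y' := by
      have : a • w = (y' + a • w) - y' := by abel
      nth_rewrite 1 [this]
      exact map_sub_le_add N _ _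
    rw [map_smul_eq_mul, H.Nw, mul_one, Real.norm_eq_abs] at h1
    linarith
  have h0 : 0 ≤ f 0 := by
    simp only [hf, zero_add, zero_smul, add_zero]
    have := hlow h'
    rw [abs_of_nonneg hh0] at this
    linarith
  have h1 : f (-h') ≤ 0 := by
    simp only [hf, neg_add_cancel, zero_smul, add_zero]
    have := hlow (-h')
    rw [abs_neg, abs_of_nonneg hh0] at this
    linarith
  obtain ⟨A, -, hA⟩ := intermediate_value_Icc (by linarith : -h' ≤ 0) hfc.continuousOn ⟨h1, h0⟩
  exact ⟨A, (sub_eq_zero.1 hA).symm⟩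

/-- the law -/
lemma law (y : F) (hy : P y = 0) (a : ℝ) :
    N (y + a • w) ^ 2 = N y ^ 2 + a ^ 2 + a * (N (y + w) ^ 2 - N y ^ 2 - 1) := by
  set k : ℝ := Real.sqrt (1 / 2) with hk
  have hk2 : k * k = 1 / 2 := Real.mul_self_sqrt (by norm_num)
  have hk0 : 0 < k := Real.sqrt_pos.2 (by norm_num)
  set y' : F := V y - P (V y) with hy'
  set g : ℝ → ℝ := fun t => N (y + t • w) ^ 2 - t ^ 2 with hg
  -- constant increments for large steps
  have hinc : ∀ h : ℝ, k * (2 * N y') ≤ h → 0 ≤ h → ∀ t t' : ℝ,
      g (t + h) - g t = g (t' + h) - g t' := by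
    intro h hh hh0 t t'
    have hh1 : 2 * N y' ≤ h / k := by
      rw [le_div_iff₀ hk0]; linarith
    obtain ⟨A, hA⟩ := H.c4 y' (h / k) hh1 (by positivity)
    have h3 := H.c3 y hy A (A + h / k) hA
    have key : ∀ t : ℝ, g (t + h) - g t = - (h * k * (4 * A + h / k)) - h ^ 2 := by
      intro t
      have h4 := h3 (t / k - A)
      have e1 : k * (A + (t / k - A)) = t := by field_simp; ring
      have e2 : k * (A + h / k + (t / k - A)) = t + h := by field_simp; ring
      rw [e1, e2] at h4
      simp only [hg]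
      have e3 : (t / k - A - A) ^ 2 / 2 - (t / k - A - (A + h / k)) ^ 2 / 2 =
          (h / k) * (2 * (t / k) - 4 * A - h / k) / 2 := by ring
      have e4 : (h / k) * (2 * (t / k) - 4 * A - h / k) / 2 =
          2 * h * t - h * k * (4 * A + h / k) := by
        have e5 : h / k = 2 * k * h := by
          rw [div_eq_iff hk0.ne']
          have : 2 * k * h * k = 2 * (k * k) * h := by ring
          rw [this, hk2]; ring
        have e6 : t / k = 2 * k * t := by
          rw [div_eq_iff hk0.ne']
          have : 2 * k * t * k = 2 * (k * k) * t := by ring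
          rw [this, hk2]; ring
        rw [e5, e6]
        have : 2 * k * h * (2 * (2 * k * t) - 4 * A - 2 * k * h) / 2 =
          (k * k) * (4 * h * t - 2 * h * h) - 4 * (h * k * A) := by ring
        rw [this, hk2]
        have : h * k * (4 * A + 2 * k * h) = 4 * (h * k * A) + 2 * (k * k) * (h * h) := by ring
        rw [this, hk2]
        ring
      nlinarith
    rw [key, key]
  have hadd : ∀ s t : ℝ, g (s + t) - g s = g t - g 0 := by
    intro s t
    set M : ℝ := k * (2 * N y') with hM
    have hM0 : 0 ≤ M := by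
      have := apply_nonneg N y'
      positivity
    have h1 := hinc (M + |t| + t) (by linarith [neg_abs_le t]) (by linarith [neg_abs_le t])
      (s - (M + |t|)) (0 - (M + |t|))
    have h2 := hinc (M + |t|) (by linarith [abs_nonneg t]) (by positivity)
      (s - (M + |t|)) (0 - (M + |t|))
    have e1 : s - (M + |t|) + (M + |t| + t) = s + t := by ring
    have e2 : 0 - (M + |t|) + (M + |t| + t) = t := by ring
    have e3 : s - (M + |t|) + (M + |t|) = s := by ring
    have e4 : 0 - (M + |t|) + (M + |t|) = 0 := by ring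
    rw [e1, e2] at h1
    rw [e3, e4] at h2
    linarith
  have hlip : ∀ a b : ℝ, |N (y + a • w) - N (y + b • w)| ≤ |a - b| := by
    intro a b
    refine (abs_sub_map_le_sub N _ _).trans ?_
    have : y + a • w - (y + b • w) = (a - b) • w := by module
    rw [this, map_smul_eq_mul, H.Nw, mul_one, Real.norm_eq_abs]
  have hcont : Continuous (fun a : ℝ => N (y + a • w)) := by
    refine LipschitzWith.continuous (K := 1) (LipschitzWith.of_dist_le_mul fun a b => ?_)
    rw [Real.dist_eq, Real.dist_eq, NNReal.coe_one, one_mul]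
    exact hlip a b
  have hgc : Continuous g := (hcont.pow 2).sub (continuous_id.pow 2)
  set G : ℝ →+ ℝ :=
    { toFun := fun t => g t - g 0
      map_zero' := sub_self _
      map_add' := fun s t => by have := hadd s t; linarith } with hG
  have hGc : Continuous G := hgc.sub continuous_const
  have hlin : G a = a * G 1 := by
    have h1 := (G.toRealLinearMap hGc).map_smul a 1
    rw [smul_eq_mul, mul_one, smul_eq_mul] at h1
    exact h1
  have e1 : G a = g a - g 0 := rfl
  have e2 : G 1 = g 1 - g 0 := rfl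
  rw [e1, e2] at hlin
  simp only [hg, zero_smul, add_zero, one_smul] at hlin
  nlinarith

end Iso2

end Pool.Agent.W687.Rot
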