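import Pool.Agent.H590R3.AbCore

/-!
# Power type decompositions of transitive spaces

`P` and `R` are projections with `θ ‖x‖ = θ ‖P x‖ + θ ‖x - P x‖` for `θ t = t ^ p` (or with the
maximum instead of the sum).  The key identity is purely algebraic: the vector
`x + b y + s R y` is decomposed with respect to `P` and with respect to `R`.
-/

set_option autoImplicit false

namespace Pool.Agent.W687.Rot

variable {E : Type*} [NormedAddCommGroup E] [NormedSpace ℝ E]

/-- the key identity, for an arbitrary function `M` in place of the power of the norm -/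
lemma key (M : E → ℝ) (hM0 : M 0 = 0) (hMn : ∀ z, M (-z) = M z) (P R : E →L[ℝ] E)
    (hP : ∀ x, P (P x) = P x) (hR : ∀ x, R (R x) = R x)
    (hPn : ∀ x, M x = M (P x) + M (x - P x)) (hRn : ∀ x, M x = M (R x) + M (x - R x))
    (x y : E) (hx : P x = x) (hy : P y = 0) :
    M (x + P (R y)) + M (x - P (R y)) = 2 * M x + 2 * M (P (R y)) := by
  have A : ∀ (u : E), P u = u → ∀ b s : ℝ, M (u + s • P (R y)) + M (b • y + s • (R y - P (R y)))
      = M (R u + (b + s) • R y) + M ((u - R u) + b • (y - R y)) := by
    intro u hu b s
    have h1 := hPn (u + b • y + s • R y)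
    have h2 := hRn (u + b • y + s • R y)
    have e1 : P (u + b • y + s • R y) = u + s • P (R y) := by
      simp only [map_add, map_smul, hu, hy, smul_zero, add_zero]
    have e2 : (u + b • y + s • R y) - (u + s • P (R y)) = b • y + s • (R y - P (R y)) := by
      rw [smul_sub]; abel
    have e3 : R (u + b • y + s • R y) = R u + (b + s) • R y := by
      simp only [map_add, map_smul, hR, add_smul, add_assoc]
    have e4 : (u + b • y + s • R y) - (R u + (b + s) • R y) = (u - R u) + b • (y - R y) := by
      rw [smul_sub, add_smul]; abel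
    rw [e1, e2] at h1
    rw [e3, e4] at h2
    rw [← h1, h2]
  have x1 := A x hx 0 1
  have x2 := A x hx 1 (-1)
  have x3 := A x hx 1 0
  have x4 := A x hx 0 0
  have z0 : P (0 : E) = 0 := map_zero P
  have y1 := A 0 z0 0 1
  have y2 := A 0 z0 1 (-1)
  have y3 := A 0 z0 1 0
  simp only [one_smul, zero_smul, add_zero, zero_add, neg_smul, map_zero, sub_zero, hM0,
    add_neg_cancel, ← sub_eq_add_neg] at x1 x2 x3 x4 y1 y2 y3
  rw [zero_sub, hMn] at y2
  linarith

end Pool.Agent.W687.Rot
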