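import Pool.Agent.H590R3.AbCore

/-!
# Conjugates of a projection close to the projection
-/

set_option autoImplicit false

namespace Pool.Agent.W687.Rot

open Pool.H590R3.Ab

variable {E : Type*} [NormedAddCommGroup E] [NormedSpace ℝ E]

/-- there are conjugates `R = T P T⁻¹` and `y` in the kernel of `P` such that `R y` is not zero but
almost in the range of `P` -/
lemma near [CompleteSpace E] [TopologicalSpace.SeparableSpace E]
    (htr : ∀ x y : E, ‖x‖ = 1 → ‖y‖ = 1 → ∃ T : E ≃ₗᵢ[ℝ] E, T x = y)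
    (P : E →L[ℝ] E) (hPn : ∀ x, ‖P x‖ ≤ ‖x‖) (hP'n : ∀ x, ‖x - P x‖ ≤ ‖x‖)
    (y0 w0 : E) (hy0 : ‖y0‖ = 1) (hw0 : ‖w0‖ = 1) (hy : P y0 = 0) (hw : P w0 = w0)
    (τ : ℝ) (hτ : 0 < τ) :
    ∃ T : E ≃ₗᵢ[ℝ] E, T (P (T.symm y0)) ≠ 0 ∧
      ‖T (P (T.symm y0)) - P (T (P (T.symm y0)))‖ ≤ τ * ‖T (P (T.symm y0))‖ := by
  set κ : ℝ := min (τ / 8) (1 / 8) with hκ
  have hκ0 : 0 < κ := by positivity
  have hκ1 : κ ≤ 1 / 8 := min_le_right _ _
  have hκ2 : κ ≤ τ / 8 := min_le_left _ _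
  obtain ⟨t, ht, H⟩ := near_open_sub (⊤ : Subgroup (E ≃ₗᵢ[ℝ] E))
    (fun x y hx hy => by
      obtain ⟨T, hT⟩ := htr x y hx hy
      exact ⟨T, trivial, hT⟩) (![w0] : Fin 1 → E) y0 hy0 hκ0
  set ε : ℝ := min t 1 / 2 with hε
  have hm1 : min t 1 ≤ 1 := min_le_right _ _
  have hmt : min t 1 ≤ t := min_le_left _ _
  have hmin : 0 < min t 1 := lt_min ht one_pos
  have hε0 : 0 < ε := by positivity
  have hε1 : ε ≤ 1 / 2 := by rw [hε]; linarith
  set z : E := y0 + ε • w0 with hz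
  have hεw : ‖ε • w0‖ = ε := by rw [norm_smul, hw0, mul_one, Real.norm_of_nonneg hε0.le]
  have hz1 : |‖z‖ - 1| ≤ ε := by
    have := abs_norm_sub_norm_le z y0
    rwa [hy0, hz, add_sub_cancel_left, hεw] at this
  have hz2 := abs_le.1 hz1
  have hzpos : 0 < ‖z‖ := by linarith [hz2.1]
  set v : E := ‖z‖⁻¹ • z with hv
  have hv1 : ‖v‖ = 1 := by
    rw [hv, norm_smul, norm_inv, norm_norm, inv_mul_cancel₀ hzpos.ne']
  have hvz : z = ‖z‖ • v := by
    rw [hv, smul_smul, mul_inv_cancel₀ hzpos.ne', one_smul]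
  have hvy : ‖v - y0‖ ≤ t := by
    have h1 : ‖v - z‖ = |‖z‖ - 1| := by
      have h2 : v - z = (1 - ‖z‖) • v := by
        rw [sub_smul, one_smul, ← hvz]
      rw [h2, norm_smul, hv1, mul_one, Real.norm_eq_abs, abs_sub_comm]
    have h3 : ‖z - y0‖ = ε := by rw [hz, add_sub_cancel_left, hεw]
    calc ‖v - y0‖ = ‖(v - z) + (z - y0)‖ := by rw [sub_add_sub_cancel]
      _ ≤ ‖v - z‖ + ‖z - y0‖ := norm_add_le _ _
      _ ≤ ε + ε := by rw [h1, h3]; linarith
      _ ≤ t := by rw [hε]; linarith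
  obtain ⟨T, -, hT1, hT2⟩ := H v hv1 hvy (ε * κ) (by positivity)
  have hTw : ‖T w0 - w0‖ ≤ κ := by simpa using hT2 0
  have hTsw : ‖T.symm w0 - w0‖ ≤ κ := by
    have h1 : T.symm w0 - w0 = T.symm (w0 - T w0) := by rw [map_sub, T.symm_apply_apply]
    rw [h1, T.symm.norm_map, norm_sub_rev]
    exact hTw
  refine ⟨T, ?_⟩
  -- R y0 = - ε R w0 + e1
  have he : ‖T (P (T.symm z))‖ ≤ 2 * (ε * κ) := by
    have h1 : T (P (T.symm z)) = T (P (T.symm (z - ‖z‖ • T y0))) := by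
      rw [map_sub, map_smul, T.symm_apply_apply, map_sub, map_smul, hy, smul_zero, sub_zero]
    rw [h1, T.norm_map]
    refine (hPn _).trans ?_
    rw [T.symm.norm_map]
    nth_rewrite 1 [hvz]
    rw [← smul_sub, norm_smul, norm_norm, norm_sub_rev]
    have : ‖z‖ ≤ 2 := by linarith [hz2.2]
    exact mul_le_mul this hT1 (norm_nonneg _) (by norm_num)
  have hRw : ‖T (P (T.symm w0)) - w0‖ ≤ 2 * κ := by
    have h1 : T (P (T.symm w0)) - w0 = T (P (T.symm w0 - w0)) + (T w0 - w0) := by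
      rw [map_sub P, hw, map_sub]; abel
    rw [h1]
    refine (norm_add_le _ _).trans ?_
    rw [T.norm_map]
    have := (hPn (T.symm w0 - w0)).trans hTsw
    linarith
  have hsum : T (P (T.symm z)) = T (P (T.symm y0)) + ε • T (P (T.symm w0)) := by
    rw [hz, map_add, map_add, map_add, map_smul, map_smul, map_smul]
  set a : E := T (P (T.symm y0)) with ha
  set b : E := T (P (T.symm w0)) with hb
  set c : E := T (P (T.symm z)) with hc
  have hac : a = c - ε • b := by rw [hsum]; abel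
  have hb1 : 1 - 2 * κ ≤ ‖b‖ := by
    have := norm_sub_norm_le w0 b
    rw [hw0, norm_sub_rev] at this
    linarith
  have ha1 : ε * (1 - 4 * κ) ≤ ‖a‖ := by
    have h1 : ‖ε • b‖ ≤ ‖c‖ + ‖a‖ := by
      have : ε • b = c - a := by rw [hac]; abel
      rw [this]; exact norm_sub_le _ _
    rw [norm_smul, Real.norm_of_nonneg hε0.le] at h1
    nlinarith
  have ha2 : ‖a - P a‖ ≤ 4 * (ε * κ) := by
    have h1 : a - P a = (c - P c) - ε • ((b - w0) - P (b - w0)) := by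
      rw [hac, map_sub, map_smul, map_sub, hw]
      simp only [smul_sub]
      abel
    rw [h1]
    refine (norm_sub_le _ _).trans ?_
    rw [norm_smul, Real.norm_of_nonneg hε0.le]
    have h2 := (hP'n c).trans he
    have h3 := (hP'n (b - w0)).trans hRw
    nlinarith
  have hpos : 0 < ε * (1 - 4 * κ) := by
    have : 0 < 1 - 4 * κ := by linarith
    positivity
  refine ⟨norm_pos_iff.1 (lt_of_lt_of_le hpos ha1), ha2.trans ?_⟩
  calc 4 * (ε * κ) ≤ τ * (ε * (1 - 4 * κ)) := by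
        have h1 : 4 * κ ≤ τ * (1 - 4 * κ) := by nlinarith
        nlinarith
    _ ≤ τ * ‖a‖ := mul_le_mul_of_nonneg_left ha1 hτ.le

end Pool.Agent.W687.Rot
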