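import Mathlib

/-!
# Absolute norms on the plane with small rotations are Euclidean
-/

set_option autoImplicit false

namespace Pool.Agent.W687.Rot

/-- absolute norms on the plane, normalised -/
structure AbsNorm (n : ℝ → ℝ → ℝ) : Prop where
  sub : ∀ p q p' q', n (p + p') (q + q') ≤ n p q + n p' q'
  hom : ∀ t p q, n (t * p) (t * q) = |t| * n p q
  left : ∀ p q, |p| ≤ n p q
  right : ∀ p q, |q| ≤ n p q
  e1 : ∀ p, n p 0 = |p|
  e2 : ∀ q, n 0 q = |q|
  s2 : ∀ p q, n p (-q) = n p q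

namespace AbsNorm

variable {n : ℝ → ℝ → ℝ} (hn : AbsNorm n)

include hn

lemma le_add (p q : ℝ) : n p q ≤ |p| + |q| := by
  have := hn.sub p 0 0 q
  rwa [add_zero, zero_add, hn.e1, hn.e2] at this

lemma lip (p q p' q' : ℝ) : |n p q - n p' q'| ≤ |p - p'| + |q - q'| := by
  have h1 := hn.sub p' q' (p - p') (q - q')
  have h2 := hn.sub p q (p' - p) (q' - q)
  have h3 := hn.le_add (p - p') (q - q')
  have h4 := hn.le_add (p' - p) (q' - q)
  rw [abs_sub_comm p' p, abs_sub_comm q' q] at h4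
  rw [add_sub_cancel, add_sub_cancel] at h1
  rw [add_sub_cancel, add_sub_cancel] at h2
  rw [abs_le]
  constructor <;> linarith

/-- the algebra of one exact identity -/
lemma quad {lam a r r' : ℝ} (h0 : 0 < lam) (h1 : lam < 1) (ha : 0 ≤ a) (hr : 0 ≤ r) (hr' : 0 ≤ r')
    (I : ∀ α β : ℝ, n α (β * a) = n ((α + β * lam) * r) ((α - β * (1 - lam)) * r')) :
    0 < r ∧ 0 < r' ∧ r ^ 2 = 1 - lam ∧ a = r * r' := by
  have h1' : 0 < 1 - lam := by linarith
  have hrpos : 0 < r := by
    rcases hr.lt_or_eq with h | h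
    · exact h
    · exfalso
      have := I 1 (1 / (1 - lam))
      rw [← h, mul_zero, div_mul_cancel₀ _ h1'.ne', sub_self, zero_mul, hn.e1, abs_zero] at this
      have h2 := hn.left 1 (1 / (1 - lam) * a)
      rw [this, abs_one] at h2
      linarith
  have hr'pos : 0 < r' := by
    rcases hr'.lt_or_eq with h | h
    · exact h
    · exfalso
      have := I lam (-1)
      rw [← h, mul_zero, neg_one_mul lam, add_neg_cancel, zero_mul, hn.e1, abs_zero] at this
      have h2 := hn.left lam (-1 * a)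
      rw [this, abs_of_pos h0] at h2
      linarith
  have hapos : 0 < a := by
    rcases ha.lt_or_eq with h | h
    · exact h
    · exfalso
      have := I 0 1
      rw [← h, mul_zero, hn.e1, abs_zero] at this
      have h2 := hn.left ((0 + 1 * lam) * r) ((0 - 1 * (1 - lam)) * r')
      rw [← this, zero_add, one_mul, abs_of_pos (mul_pos h0 hrpos)] at h2
      have := mul_pos h0 hrpos
      linarith
  -- the isometry and its inverse
  have L : ∀ p q : ℝ, n ((p + q / a * lam) * r) ((p - q / a * (1 - lam)) * r') = n p q := by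
    intro p q
    rw [← I p (q / a), div_mul_cancel₀ _ hapos.ne']
  have M : ∀ p q : ℝ, n ((1 - lam) * p / r + lam * q / r') ((p / r - q / r') * a) = n p q := by
    intro p q
    rw [I]
    congr 1
    · field_simp; ring
    · field_simp; ring
  have n10 : n 1 0 = 1 := by rw [hn.e1, abs_one]
  have n01 : n 0 1 = 1 := by rw [hn.e2, abs_one]
  -- four inequalities
  have i1 : r ^ 2 + r * r' / a * lam ≤ 1 := by
    have e1 := L 1 0
    have e2 := L ((1 + 0 / a * lam) * r) ((1 - 0 / a * (1 - lam)) * r')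
    rw [e1, n10] at e2
    have h2 := hn.left (((1 + 0 / a * lam) * r + (1 - 0 / a * (1 - lam)) * r' / a * lam) * r)
      (((1 + 0 / a * lam) * r - (1 - 0 / a * (1 - lam)) * r' / a * (1 - lam)) * r')
    rw [e2] at h2
    refine le_trans (le_of_eq ?_) ((le_abs_self _).trans h2)
    field_simp; ring
  have i2 : (r * r' / a) * lam + (1 - lam) ^ 2 * (r' / a) ^ 2 ≤ 1 := by
    have e1 := L 0 1
    have e2 := L ((0 + 1 / a * lam) * r) ((0 - 1 / a * (1 - lam)) * r')
    rw [e1, n01] at e2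
    have h2 := hn.right (((0 + 1 / a * lam) * r + (0 - 1 / a * (1 - lam)) * r' / a * lam) * r)
      (((0 + 1 / a * lam) * r - (0 - 1 / a * (1 - lam)) * r' / a * (1 - lam)) * r')
    rw [e2] at h2
    refine le_trans (le_of_eq ?_) ((le_abs_self _).trans h2)
    field_simp; ring
  have i3 : (1 - lam) ^ 2 / r ^ 2 + lam * (a / (r * r')) ≤ 1 := by
    have e1 := M 1 0
    have e2 := M ((1 - lam) * 1 / r + lam * 0 / r') ((1 / r - 0 / r') * a)
    rw [e1, n10] at e2
    have h2 := hn.left ((1 - lam) * ((1 - lam) * 1 / r + lam * 0 / r') / r +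
      lam * ((1 / r - 0 / r') * a) / r')
      ((((1 - lam) * 1 / r + lam * 0 / r') / r - (1 / r - 0 / r') * a / r') * a)
    rw [e2] at h2
    refine le_trans (le_of_eq ?_) ((le_abs_self _).trans h2)
    field_simp; ring
  have i4 : lam * (a / (r * r')) + (a / r') ^ 2 ≤ 1 := by
    have e1 := M 0 1
    have e2 := M ((1 - lam) * 0 / r + lam * 1 / r') ((0 / r - 1 / r') * a)
    rw [e1, n01] at e2
    have h2 := hn.right ((1 - lam) * ((1 - lam) * 0 / r + lam * 1 / r') / r +
      lam * ((0 / r - 1 / r') * a) / r')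
      ((((1 - lam) * 0 / r + lam * 1 / r') / r - (0 / r - 1 / r') * a / r') * a)
    rw [e2] at h2
    refine le_trans (le_of_eq ?_) ((le_abs_self _).trans h2)
    field_simp; ring
  -- the determinant
  set d : ℝ := r * r' / a with hd
  have hdpos : 0 < d := by positivity
  have hra : r' / a = d / r := by rw [hd]; field_simp
  have had : a / (r * r') = 1 / d := by rw [hd]; field_simp
  have har' : a / r' = r / d := by rw [hd]; field_simp
  rw [hra] at i2
  rw [had] at i3 i4
  rw [har'] at i4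
  have hr2 : 0 < r ^ 2 := by positivity
  have j2 : (1 - lam) ^ 2 * d ^ 2 ≤ r ^ 2 * (1 - d * lam) := by
    have : (1 - lam) ^ 2 * (d / r) ^ 2 = (1 - lam) ^ 2 * d ^ 2 / r ^ 2 := by ring
    rw [this] at i2
    have h3 : (1 - lam) ^ 2 * d ^ 2 / r ^ 2 ≤ 1 - d * lam := by linarith
    rw [div_le_iff₀ hr2] at h3
    linarith
  have hd1 : d ≤ 1 := by
    have h3 : 0 ≤ 1 - d * lam := by nlinarith
    have h4 : r ^ 2 ≤ 1 - d * lam := by linarith
    have h5 : ((1 - lam) * d) ^ 2 ≤ (1 - d * lam) ^ 2 := by nlinarith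
    have h6 : (1 - lam) * d ≤ 1 - d * lam := by
      rw [sq_le_sq₀ (by positivity) h3] at h5
      exact h5
    linarith
  have j4 : r ^ 2 ≤ d ^ 2 - d * lam := by
    have h3 : (r / d) ^ 2 ≤ 1 - lam * (1 / d) := by linarith
    have h4 : (r / d) ^ 2 * d ^ 2 ≤ (1 - lam * (1 / d)) * d ^ 2 :=
      mul_le_mul_of_nonneg_right h3 (by positivity)
    have e1 : (r / d) ^ 2 * d ^ 2 = r ^ 2 := by field_simp
    have e2 : (1 - lam * (1 / d)) * d ^ 2 = d ^ 2 - d * lam := by field_simp
    rw [e1, e2] at h4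
    exact h4
  have j3 : (1 - lam) ^ 2 * d ≤ r ^ 2 * (d - lam) := by
    have h3 : (1 - lam) ^ 2 / r ^ 2 ≤ 1 - lam * (1 / d) := by linarith
    rw [div_le_iff₀ hr2] at h3
    have h4 := mul_le_mul_of_nonneg_right h3 hdpos.le
    have e2 : (1 - lam * (1 / d)) * r ^ 2 * d = r ^ 2 * (d - lam) := by field_simp
    rw [e2] at h4
    exact h4
  have hd2 : 1 ≤ d := by
    have h3 : 0 < d - lam := by
      have : 0 < d * (d - lam) := by nlinarith
      exact (mul_pos_iff_of_pos_left hdpos).1 this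
    have h4 : (1 - lam) ^ 2 * d ≤ d * (d - lam) ^ 2 := by
      have : r ^ 2 * (d - lam) ≤ (d ^ 2 - d * lam) * (d - lam) :=
        mul_le_mul_of_nonneg_right j4 h3.le
      nlinarith
    have h5 : (1 - lam) ^ 2 ≤ (d - lam) ^ 2 := by
      have : (1 - lam) ^ 2 * d ≤ (d - lam) ^ 2 * d := by linarith
      exact le_of_mul_le_mul_right this hdpos
    rw [sq_le_sq₀ h1'.le h3.le] at h5
    linarith
  have hd3 : d = 1 := le_antisymm hd1 hd2
  rw [hd3] at i1 j2 j3
  refine ⟨hrpos, hr'pos, le_antisymm (by linarith) ?_, ?_⟩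
  · have : (1 - lam) * (1 - lam) ≤ r ^ 2 * (1 - lam) := by nlinarith
    exact le_of_mul_le_mul_right this h1'
  · rw [hd3] at hd
    have := hapos.ne'
    field_simp at hd
    linarith

/-- from the identity to a rotation -/
lemma rot {lam a r r' : ℝ} (h0 : 0 < lam) (h1 : lam < 1) (ha : 0 ≤ a) (hr : 0 ≤ r) (hr' : 0 ≤ r')
    (I : ∀ α β : ℝ, n α (β * a) = n ((α + β * lam) * r) ((α - β * (1 - lam)) * r')) :
    ∃ θ K : ℝ, 0 < θ ∧ θ < Real.pi / 2 ∧ 0 < K ∧ Real.sin θ ^ 2 = lam ∧
      ∀ k : ℕ, n (Real.cos (k * θ)) (K * Real.sin (k * θ)) = 1 := by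
  obtain ⟨hrpos, hr'pos, hr2, har⟩ := hn.quad h0 h1 ha hr hr' I
  have hsq : 0 < Real.sqrt lam := Real.sqrt_pos.2 h0
  have hsq1 : Real.sqrt lam < 1 := by
    rw [Real.sqrt_lt' one_pos]; linarith
  set θ : ℝ := Real.arcsin (Real.sqrt lam) with hθ
  have hθ0 : 0 < θ := Real.arcsin_pos.2 hsq
  have hθ1 : θ < Real.pi / 2 := Real.arcsin_lt_pi_div_two.2 hsq1
  have hs : Real.sin θ = Real.sqrt lam := Real.sin_arcsin (by linarith) hsq1.le
  have hs2 : Real.sin θ ^ 2 = lam := by rw [hs, Real.sq_sqrt h0.le]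
  have hspos : 0 < Real.sin θ := by rw [hs]; exact hsq
  have hc : Real.cos θ = r := by
    have h2 : Real.cos θ ^ 2 = r ^ 2 := by
      have := Real.sin_sq_add_cos_sq θ
      linarith
    have h3 : 0 ≤ Real.cos θ := Real.cos_nonneg_of_mem_Icc ⟨by linarith [Real.pi_pos], hθ1.le⟩
    exact (sq_eq_sq₀ h3 hrpos.le).1 h2
  have hapos : 0 < a := by rw [har]; positivity
  refine ⟨θ, r' / Real.sin θ, hθ0, hθ1, by positivity, hs2, ?_⟩
  have step : ∀ φ : ℝ, n (Real.cos (φ + θ)) (r' / Real.sin θ * Real.sin (φ + θ)) =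
      n (Real.cos φ) (r' / Real.sin θ * Real.sin φ) := by
    intro φ
    have h2 := I (Real.cos (φ + θ)) ((r' / Real.sin θ * Real.sin (φ + θ)) / a)
    rw [div_mul_cancel₀ _ hapos.ne'] at h2
    rw [h2, ← hn.s2]
    have hcpos : 0 < Real.cos θ := by rw [hc]; exact hrpos
    have e0 : Real.cos φ = Real.cos (φ + θ) * Real.cos θ + Real.sin (φ + θ) * Real.sin θ := by
      rw [← Real.cos_sub]; congr 1; ring
    have e0' : Real.sin φ = Real.sin (φ + θ) * Real.cos θ - Real.cos (φ + θ) * Real.sin θ := by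
      rw [← Real.sin_sub]; congr 1; ring
    have hl : lam = Real.sin θ ^ 2 := hs2.symm
    have hl' : 1 - lam = Real.cos θ ^ 2 := by rw [hc, hr2]
    have hcne := hcpos.ne'
    have hsne := hspos.ne'
    have hr'ne := hr'pos.ne'
    congr 1
    · rw [e0, har, ← hc, hl]
      field_simp
    · rw [e0', hl', har, ← hc]
      field_simp
      ring
  intro k
  induction k with
  | zero => simp [hn.e1]
  | succ k ih =>
    have : ((k + 1 : ℕ) : ℝ) * θ = k * θ + θ := by push_cast; ring
    rw [this, step, ih]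

/-- arbitrarily small rotations: the norm is Euclidean -/
lemma euclid (H : ∀ c : ℝ, 0 < c → ∃ θ K : ℝ, 0 < θ ∧ θ < c ∧ 0 < K ∧
      ∀ k : ℕ, n (Real.cos (k * θ)) (K * Real.sin (k * θ)) = 1) (p q : ℝ) :
    n p q ^ 2 = p ^ 2 + q ^ 2 := by
  have hpi := Real.pi_pos
  have main : ∀ φ : ℝ, 0 ≤ φ → φ ≤ Real.pi / 2 → n (Real.cos φ) (Real.sin φ) = 1 := by
    intro φ h0 h1
    have bound : ∀ c : ℝ, 0 < c → c < 1 / 4 → |n (Real.cos φ) (Real.sin φ) - 1| ≤ 6 * c := by
      intro c hc hc4
      obtain ⟨θ, K, hθ, hθc, hK, h⟩ := H c hc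
      have fl : ∀ ψ : ℝ, 0 ≤ ψ → ∃ k : ℕ, |ψ - k * θ| ≤ c := by
        intro ψ hψ
        refine ⟨⌊ψ / θ⌋₊, ?_⟩
        have g1 := Nat.floor_le (div_nonneg hψ hθ.le)
        have g2 := Nat.lt_floor_add_one (ψ / θ)
        rw [le_div_iff₀ hθ] at g1
        rw [div_lt_iff₀ hθ] at g2
        rw [abs_le]
        constructor <;> nlinarith
      have lipc : ∀ x y : ℝ, |Real.cos x - Real.cos y| ≤ |x - y| := Real.abs_cos_sub_cos_le
      have lips : ∀ x y : ℝ, |Real.sin x - Real.sin y| ≤ |x - y| := Real.abs_sin_sub_sin_le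
      obtain ⟨k, hk⟩ := fl φ h0
      obtain ⟨l, hl⟩ := fl (Real.pi / 2) (by positivity)
      have c1 := (lipc (Real.pi / 2) (l * θ)).trans hl
      have s1 := (lips (Real.pi / 2) (l * θ)).trans hl
      rw [Real.cos_pi_div_two, zero_sub, abs_neg] at c1
      rw [Real.sin_pi_div_two] at s1
      have K1 : K * Real.sin (l * θ) ≤ 1 := by
        rw [← h l]
        exact (le_abs_self _).trans (hn.right _ _)
      have s2 : 3 / 4 ≤ Real.sin (l * θ) := by
        have := (abs_le.1 s1).2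
        linarith
      have K2 : K ≤ 4 / 3 := by nlinarith
      have K3 : |K - 1| ≤ c + K * c := by
        have g1 := hn.lip (Real.cos (l * θ)) (K * Real.sin (l * θ)) 0 K
        rw [h l, hn.e2, abs_of_pos hK, sub_zero] at g1
        have g2 : |K * Real.sin (l * θ) - K| ≤ K * c := by
          have : K * Real.sin (l * θ) - K = - (K * (1 - Real.sin (l * θ))) := by ring
          rw [this, abs_neg, abs_mul, abs_of_pos hK]
          exact mul_le_mul_of_nonneg_left s1 hK.le
        rw [abs_sub_comm]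
        linarith
      have g1 := hn.lip (Real.cos φ) (Real.sin φ) (Real.cos (k * θ)) (K * Real.sin (k * θ))
      rw [h k] at g1
      have g2 := (lipc φ (k * θ)).trans hk
      have g3 := (lips φ (k * θ)).trans hk
      have g4 : |Real.sin φ - K * Real.sin (k * θ)| ≤ c + |K - 1| := by
        have e : Real.sin φ - K * Real.sin (k * θ) =
            (Real.sin φ - Real.sin (k * θ)) + (1 - K) * Real.sin (k * θ) := by ring
        rw [e]
        refine (abs_add_le _ _).trans (add_le_add g3 ?_)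
        rw [abs_mul, abs_sub_comm 1 K]
        exact mul_le_of_le_one_right (abs_nonneg _) (Real.abs_sin_le_one _)
      nlinarith
    by_contra hne
    have hpos : 0 < |n (Real.cos φ) (Real.sin φ) - 1| := abs_pos.2 (sub_ne_zero.2 hne)
    have := bound (min (1 / 8) (|n (Real.cos φ) (Real.sin φ) - 1| / 12)) (by positivity)
      (lt_of_le_of_lt (min_le_left _ _) (by norm_num))
    have h2 := min_le_right (1 / 8 : ℝ) (|n (Real.cos φ) (Real.sin φ) - 1| / 12)
    linarith
  -- reduce to the first quadrant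
  have habs : n p q = n |p| |q| := by
    have a1 : ∀ p q, n p |q| = n p q := by
      intro p q
      rcases abs_choice q with h | h
      · rw [h]
      · rw [h, hn.s2]
    have a2 : ∀ p q, n |p| q = n p q := by
      intro p q
      rcases abs_choice p with h | h
      · rw [h]
      · rw [h]
        have := hn.hom (-1) p q
        rw [neg_one_mul, neg_one_mul, hn.s2, abs_neg, abs_one, one_mul] at this
        exact this
    rw [a1, a2]
  set ρ : ℝ := Real.sqrt (p ^ 2 + q ^ 2) with hρ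
  have hρ2 : ρ ^ 2 = p ^ 2 + q ^ 2 := Real.sq_sqrt (by positivity)
  rcases (Real.sqrt_nonneg (p ^ 2 + q ^ 2)).eq_or_lt with h | h
  · rw [← hρ] at h
    rw [← h] at hρ2
    have hp : p = 0 := by nlinarith [sq_nonneg p, sq_nonneg q]
    have hq : q = 0 := by nlinarith [sq_nonneg p, sq_nonneg q]
    rw [hp, hq, hn.e1]
    simp
  · rw [← hρ] at h
    have hqρ : |q| / ρ ≤ 1 := by
      rw [div_le_one h]
      exact Real.abs_le_sqrt (by nlinarith [sq_nonneg p])
    have hq0 : 0 ≤ |q| / ρ := by positivity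
    have h2 := main (Real.arcsin (|q| / ρ)) (Real.arcsin_nonneg.2 hq0)
      (Real.arcsin_le_pi_div_two _)
    rw [Real.sin_arcsin (by linarith) hqρ] at h2
    have h3 : Real.cos (Real.arcsin (|q| / ρ)) = |p| / ρ := by
      rw [Real.cos_arcsin, div_pow, hρ2, sq_abs, ← sq_abs p]
      have h4 : 1 - q ^ 2 / (|p| ^ 2 + q ^ 2) = (|p| / ρ) ^ 2 := by
        rw [div_pow, hρ2, sq_abs]
        have : p ^ 2 + q ^ 2 ≠ 0 := by rw [← hρ2]; positivity
        field_simp
        ring
      rw [h4, Real.sqrt_sq (by positivity)]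
    rw [h3] at h2
    have h5 := hn.hom ρ (|p| / ρ) (|q| / ρ)
    rw [mul_div_cancel₀ _ h.ne', mul_div_cancel₀ _ h.ne', h2, mul_one, abs_of_pos h] at h5
    rw [habs, h5, hρ2]

end AbsNorm

end Pool.Agent.W687.Rot
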