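import Pool.Agent.W687.RotSpec
import Pool.Agent.W687.RotPlane
import Pool.Agent.W687.RotNear
import Pool.Agent.W687.RotLp

/-!
# Separable transitive spaces which are absolute sums are Hilbert spaces
-/

set_option autoImplicit false

namespace Pool.Agent.W687.Rot

open Pool.H590R3.Ab

variable {E : Type*} [NormedAddCommGroup E] [NormedSpace ℝ E]

/-- the reflection `1 - 2 P` -/
noncomputable def rfx (P : E →L[ℝ] E) (hP : ∀ x, P (P x) = P x)
    (hs : ∀ z, ‖z - (2 : ℝ) • P z‖ = ‖z‖) : E ≃ₗᵢ[ℝ] E :=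
  { LinearEquiv.ofInvolutive ((LinearMap.id : E →ₗ[ℝ] E) - (2 : ℝ) • (P : E →ₗ[ℝ] E)) (by
      intro z
      simp only [LinearMap.sub_apply, LinearMap.id_coe, id_eq, LinearMap.smul_apply,
        ContinuousLinearMap.coe_coe, map_sub, map_smul, hP]
      module) with
    norm_map' := fun z => hs z }

lemma rfx_apply (P : E →L[ℝ] E) (hP : ∀ x, P (P x) = P x)
    (hs : ∀ z, ‖z - (2 : ℝ) • P z‖ = ‖z‖) (z : E) : rfx P hP hs z = z - (2 : ℝ) • P z := rfl

lemma rfx_sq (P : E →L[ℝ] E) (hP : ∀ x, P (P x) = P x)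
    (hs : ∀ z, ‖z - (2 : ℝ) • P z‖ = ‖z‖) : rfx P hP hs * rfx P hP hs = 1 := by
  ext z
  show rfx P hP hs (rfx P hP hs z) = z
  rw [rfx_apply, rfx_apply, map_sub, map_smul, hP]
  module

/-- a vector on which an isometry is unipotent is fixed -/
lemma unip_vec (n : E ≃ₗᵢ[ℝ] E) (x : E) (h : n (n x) = (2:ℝ) • n x - x) : n x = x := by
  have hk : ∀ k : ℕ, (n^[k]) x = x + (k : ℝ) • (n x - x) ∧
      n ((n^[k]) x) = x + ((k : ℝ) + 1) • (n x - x) := by
    intro k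
    induction k with
    | zero => simp
    | succ k ih =>
      have h1 : (n^[k+1]) x = x + ((k : ℝ) + 1) • (n x - x) := by
        rw [Function.iterate_succ_apply']
        exact ih.2
      refine ⟨by rw [h1]; push_cast; rfl, ?_⟩
      rw [h1, map_add, map_smul, map_sub, h]
      push_cast
      module
  have hb : ∀ k : ℕ, (k : ℝ) * ‖n x - x‖ ≤ 2 * ‖x‖ := by
    intro k
    have h1 : (k : ℝ) • (n x - x) = (n^[k]) x - x := by
      rw [(hk k).1]; abel
    have h2 : ∀ k : ℕ, ‖(n^[k]) x‖ = ‖x‖ := by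
      intro k
      induction k with
      | zero => rfl
      | succ k ih =>
        rw [Function.iterate_succ_apply', n.norm_map]
        exact ih
    have h3 : ‖(k : ℝ) • (n x - x)‖ ≤ ‖(n^[k]) x‖ + ‖x‖ := by rw [h1]; exact norm_sub_le _ _
    rw [norm_smul, Real.norm_of_nonneg (Nat.cast_nonneg k), h2] at h3
    linarith
  by_contra hne
  have hpos : 0 < ‖n x - x‖ := norm_pos_iff.2 (sub_ne_zero.2 hne)
  obtain ⟨k, hk'⟩ := exists_nat_gt (2 * ‖x‖ / ‖n x - x‖)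
  rw [div_lt_iff₀ hpos] at hk'
  have := hb k
  linarith

/-- approximate eigenvectors give approximate identities in the plane -/
lemma approx {n : ℝ → ℝ → ℝ} (hn : AbsNorm n) (P R : E →L[ℝ] E)
    (hR : ∀ x, R (R x) = R x)
    (hPn : ∀ z, ‖z‖ = n ‖z - P z‖ ‖P z‖) (hRn : ∀ z, ‖z‖ = n ‖z - R z‖ ‖R z‖)
    (hP : ∀ x, P (P x) = P x)
    (hR1 : ∀ z, ‖R z‖ ≤ ‖z‖) (hR2 : ∀ z, ‖z - R z‖ ≤ ‖z‖)
    (x : E) (hx : ‖x‖ = 1) (hPx : P x = 0) (lam ε : ℝ)
    (he : ‖R x - P (R x) - lam • x‖ ≤ ε) (α β : ℝ) :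
    |n α (β * ‖P (R x)‖) - n ((α + β * lam) * ‖x - R x‖) ((α - β * (1 - lam)) * ‖R x‖)|
      ≤ 2 * |β| * ε := by
  set e : E := R x - P (R x) - lam • x with hedef
  -- sign changes
  have nabs : ∀ p q, n p q = n |p| |q| := by
    have a1 : ∀ p q, n p |q| = n p q := by
      intro p q
      rcases abs_choice q with h | h
      · rw [h]
      · rw [h, hn.s2]
    have a2 : ∀ p q, n |p| q = n p q := by
      intro p q
      rcases abs_choice p with h | h
      · rw [h]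
      · rw [h]
        have := hn.hom (-1) p q
        rw [neg_one_mul, neg_one_mul, hn.s2, abs_neg, abs_one, one_mul] at this
        exact this
    intro p q
    rw [a1, a2]
  set z : E := α • x - β • P (R x) with hz
  have h1 : P z = - (β • P (R x)) := by
    rw [hz, map_sub, map_smul, map_smul, hPx, hP, smul_zero, zero_sub]
  have h2 : z - P z = α • x := by rw [h1, hz]; abel
  have h3 : ‖z‖ = n α (β * ‖P (R x)‖) := by
    rw [hPn z, h2, h1, norm_neg, norm_smul, norm_smul, hx, mul_one, nabs α, abs_mul,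
      Real.norm_eq_abs, Real.norm_eq_abs, abs_of_nonneg (norm_nonneg (P (R x)))]
  have hPR : P (R x) = R x - lam • x - e := by rw [hedef]; abel
  have h4 : R z = (α - β * (1 - lam)) • R x + β • R e := by
    rw [hz, hPR, map_sub, map_smul, map_smul, map_sub, map_sub, map_smul, hR]
    module
  have h5 : z - R z = (α + β * lam) • (x - R x) + β • (e - R e) := by
    rw [h4, hz, hPR]
    module
  have h6 : |‖R z‖ - |α - β * (1 - lam)| * ‖R x‖| ≤ |β| * ε := by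
    have h7 := abs_norm_sub_norm_le (R z) ((α - β * (1 - lam)) • R x)
    rw [norm_smul, Real.norm_eq_abs] at h7
    refine h7.trans ?_
    rw [h4, add_sub_cancel_left, norm_smul, Real.norm_eq_abs]
    exact mul_le_mul_of_nonneg_left ((hR1 e).trans he) (abs_nonneg _)
  have h7 : |‖z - R z‖ - |α + β * lam| * ‖x - R x‖| ≤ |β| * ε := by
    have h7 := abs_norm_sub_norm_le (z - R z) ((α + β * lam) • (x - R x))
    rw [norm_smul, Real.norm_eq_abs] at h7
    refine h7.trans ?_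
    rw [h5, add_sub_cancel_left, norm_smul, Real.norm_eq_abs]
    exact mul_le_mul_of_nonneg_left ((hR2 e).trans he) (abs_nonneg _)
  rw [← h3, hRn z]
  have h8 : n ((α + β * lam) * ‖x - R x‖) ((α - β * (1 - lam)) * ‖R x‖) =
      n (|α + β * lam| * ‖x - R x‖) (|α - β * (1 - lam)| * ‖R x‖) := by
    rw [nabs, abs_mul, abs_mul, abs_of_nonneg (norm_nonneg (x - R x)),
      abs_of_nonneg (norm_nonneg (R x))]
  rw [h8]
  refine (hn.lip _ _ _ _).trans ?_
  linarith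

/-- compactness -/
lemma exact_of_approx {n : ℝ → ℝ → ℝ} (hcont : Continuous (fun p : ℝ × ℝ => n p.1 p.2))
    (l u : ℝ)
    (H : ∀ ε : ℝ, 0 < ε → ∃ lam a r r' : ℝ, l ≤ lam ∧ lam ≤ u ∧ 0 ≤ a ∧ a ≤ 1 ∧ 0 ≤ r ∧ r ≤ 1 ∧
      0 ≤ r' ∧ r' ≤ 1 ∧ ∀ α β : ℝ,
        |n α (β * a) - n ((α + β * lam) * r) ((α - β * (1 - lam)) * r')| ≤ 2 * |β| * ε) :
    ∃ lam a r r' : ℝ, l ≤ lam ∧ lam ≤ u ∧ 0 ≤ a ∧ 0 ≤ r ∧ 0 ≤ r' ∧ ∀ α β : ℝ,
        n α (β * a) = n ((α + β * lam) * r) ((α - β * (1 - lam)) * r') := by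
  have H' : ∀ k : ℕ, ∃ p : ℝ × ℝ × ℝ × ℝ,
      p ∈ Set.Icc l u ×ˢ Set.Icc (0:ℝ) 1 ×ˢ Set.Icc (0:ℝ) 1 ×ˢ Set.Icc (0:ℝ) 1 ∧ ∀ α β : ℝ,
        |n α (β * p.2.1) - n ((α + β * p.1) * p.2.2.1) ((α - β * (1 - p.1)) * p.2.2.2)|
          ≤ 2 * |β| * (1 / ((k : ℝ) + 1)) := by
    intro k
    obtain ⟨lam, a, r, r', h1, h2, h3, h4, h5, h6, h7, h8, h9⟩ :=
      H (1 / ((k : ℝ) + 1)) (by positivity)
    exact ⟨(lam, a, r, r'), ⟨⟨h1, h2⟩, ⟨h3, h4⟩, ⟨h5, h6⟩, ⟨h7, h8⟩⟩, h9⟩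
  choose p hp hp' using H'
  have hK : IsCompact (Set.Icc l u ×ˢ Set.Icc (0:ℝ) 1 ×ˢ Set.Icc (0:ℝ) 1 ×ˢ Set.Icc (0:ℝ) 1) :=
    isCompact_Icc.prod (isCompact_Icc.prod (isCompact_Icc.prod isCompact_Icc))
  obtain ⟨p0, hp0, φ, hφ, hlim⟩ := hK.tendsto_subseq hp
  refine ⟨p0.1, p0.2.1, p0.2.2.1, p0.2.2.2, hp0.1.1, hp0.1.2, hp0.2.1.1, hp0.2.2.1.1,
    hp0.2.2.2.1, fun α β => ?_⟩
  have hF : Continuous (fun p : ℝ × ℝ × ℝ × ℝ =>
      |n α (β * p.2.1) - n ((α + β * p.1) * p.2.2.1) ((α - β * (1 - p.1)) * p.2.2.2)|) := by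
    have c1 : Continuous (fun p : ℝ × ℝ × ℝ × ℝ => n α (β * p.2.1)) :=
      hcont.comp (by fun_prop : Continuous (fun p : ℝ × ℝ × ℝ × ℝ => (α, β * p.2.1)))
    have c2 : Continuous (fun p : ℝ × ℝ × ℝ × ℝ =>
        n ((α + β * p.1) * p.2.2.1) ((α - β * (1 - p.1)) * p.2.2.2)) :=
      hcont.comp (by fun_prop : Continuous (fun p : ℝ × ℝ × ℝ × ℝ =>
        ((α + β * p.1) * p.2.2.1, (α - β * (1 - p.1)) * p.2.2.2)))
    exact (c1.sub c2).abs
  have l1 := (hF.tendsto p0).comp hlim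
  have l2 : Filter.Tendsto (fun k : ℕ => 2 * |β| * (1 / (((φ k : ℕ) : ℝ) + 1))) Filter.atTop
      (nhds (2 * |β| * 0)) := by
    have := (tendsto_one_div_add_atTop_nhds_zero_nat (𝕜 := ℝ)).comp hφ.tendsto_atTop
    exact this.const_mul _
  rw [mul_zero] at l2
  have l3 := le_of_tendsto_of_tendsto' l1 l2 (fun k => hp' (φ k) α β)
  exact sub_eq_zero.1 (abs_nonpos_iff.1 l3)

/-- the norm is Euclidean with respect to the decomposition -/
theorem pythagoras [CompleteSpace E] [TopologicalSpace.SeparableSpace E]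
    (htr : ∀ x y : E, ‖x‖ = 1 → ‖y‖ = 1 → ∃ T : E ≃ₗᵢ[ℝ] E, T x = y)
    (P : E →L[ℝ] E) (hP : ∀ x, P (P x) = P x) (Φ : ℝ → ℝ → ℝ)
    (hΦ : ∀ x, ‖x‖ = Φ ‖P x‖ ‖x - P x‖)
    (hs : ∀ z, ‖z - (2 : ℝ) • P z‖ = ‖z‖)
    (hP1 : ∀ z, ‖P z‖ ≤ ‖z‖) (hP2 : ∀ z, ‖z - P z‖ ≤ ‖z‖)
    (y0 w0 : E) (hy0 : ‖y0‖ = 1) (hw0 : ‖w0‖ = 1) (hy : P y0 = 0) (hw : P w0 = w0) :
    ∀ z, ‖z‖ ^ 2 = ‖z - P z‖ ^ 2 + ‖P z‖ ^ 2 := by
  set n : ℝ → ℝ → ℝ := fun p q => ‖p • y0 + q • w0‖ with hndef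
  have hPpq : ∀ p q : ℝ, P (p • y0 + q • w0) = q • w0 := by
    intro p q
    rw [map_add, map_smul, map_smul, hy, hw, smul_zero, zero_add]
  have hP'pq : ∀ p q : ℝ, (p • y0 + q • w0) - P (p • y0 + q • w0) = p • y0 := by
    intro p q
    rw [hPpq, add_sub_cancel_right]
  have hnΦ : ∀ p q, n p q = Φ |q| |p| := by
    intro p q
    show ‖p • y0 + q • w0‖ = _
    rw [hΦ, hP'pq, hPpq, norm_smul, norm_smul, hy0, hw0, mul_one, mul_one, Real.norm_eq_abs,
      Real.norm_eq_abs]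
  have hn : AbsNorm n := by
    refine ⟨?_, ?_, ?_, ?_, ?_, ?_, ?_⟩
    · intro p q p' q'
      show ‖(p + p') • y0 + (q + q') • w0‖ ≤ ‖p • y0 + q • w0‖ + ‖p' • y0 + q' • w0‖
      have : (p + p') • y0 + (q + q') • w0 = (p • y0 + q • w0) + (p' • y0 + q' • w0) := by module
      rw [this]
      exact norm_add_le _ _
    · intro t p q
      show ‖(t * p) • y0 + (t * q) • w0‖ = |t| * ‖p • y0 + q • w0‖
      rw [← Real.norm_eq_abs, ← norm_smul]
      congr 1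
      module
    · intro p q
      have := hP2 (p • y0 + q • w0)
      rwa [hP'pq, norm_smul, hy0, mul_one, Real.norm_eq_abs] at this
    · intro p q
      have := hP1 (p • y0 + q • w0)
      rwa [hPpq, norm_smul, hw0, mul_one, Real.norm_eq_abs] at this
    · intro p
      show ‖p • y0 + (0:ℝ) • w0‖ = |p|
      rw [zero_smul, add_zero, norm_smul, hy0, mul_one, Real.norm_eq_abs]
    · intro q
      show ‖(0:ℝ) • y0 + q • w0‖ = |q|
      rw [zero_smul, zero_add, norm_smul, hw0, mul_one, Real.norm_eq_abs]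
    · intro p q
      rw [hnΦ, hnΦ, abs_neg]
  have hcont : Continuous (fun p : ℝ × ℝ => n p.1 p.2) := by
    show Continuous (fun p : ℝ × ℝ => ‖p.1 • y0 + p.2 • w0‖)
    fun_prop
  have hPn : ∀ z, ‖z‖ = n ‖z - P z‖ ‖P z‖ := by
    intro z
    rw [hnΦ, abs_of_nonneg (norm_nonneg _), abs_of_nonneg (norm_nonneg _)]
    exact hΦ z
  -- the rotations
  have hrot : ∀ c : ℝ, 0 < c → ∃ θ K : ℝ, 0 < θ ∧ θ < c ∧ 0 < K ∧
      ∀ k : ℕ, n (Real.cos (k * θ)) (K * Real.sin (k * θ)) = 1 := by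
    intro c hc
    have hpi := Real.pi_pos
    set r : ℝ := min 1 ((2 / Real.pi * c) ^ 2) with hr
    have hr0 : 0 < r := by positivity
    have hr1 : r ≤ 1 := min_le_left _ _
    have hr2 : r ≤ (2 / Real.pi * c) ^ 2 := min_le_right _ _
    obtain ⟨K, hK, hspec⟩ := spec (E := E) r hr0
    obtain ⟨T, hT1, hT2⟩ := near htr P hP1 hP2 y0 w0 hy0 hw0 hy hw (1 / (4 * K)) (by positivity)
    set R : E →L[ℝ] E := op T * P * op T⁻¹ with hRdef
    have hRa : ∀ z, R z = T (P (T.symm z)) := fun z => rfl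
    have hR : ∀ z, R (R z) = R z := by
      intro z
      rw [hRa, hRa, T.symm_apply_apply, hP]
    have hR' : ∀ z, z - R z = T (T.symm z - P (T.symm z)) := by
      intro z
      rw [map_sub, T.apply_symm_apply, hRa]
    have hR1 : ∀ z, ‖R z‖ ≤ ‖z‖ := by
      intro z
      rw [hRa, T.norm_map]
      refine (hP1 _).trans ?_
      rw [T.symm.norm_map]
    have hR2 : ∀ z, ‖z - R z‖ ≤ ‖z‖ := by
      intro z
      rw [hR', T.norm_map]
      refine (hP2 _).trans ?_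
      rw [T.symm.norm_map]
    have hRn : ∀ z, ‖z‖ = n ‖z - R z‖ ‖R z‖ := by
      intro z
      rw [hR', hRa, T.norm_map, T.norm_map, ← hPn, T.symm.norm_map]
    set s : E ≃ₗᵢ[ℝ] E := rfx P hP hs with hsdef
    have hs2 : s * s = 1 := rfx_sq P hP hs
    have hsinv : s⁻¹ = s := inv_eq_of_mul_eq_one_left hs2
    have hsa : ∀ z, s z = z - (2:ℝ) • P z := fun z => rfx_apply P hP hs z
    have hfix : ∀ z, s z = z ↔ P z = 0 := by
      intro z
      rw [hsa]
      constructor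
      · intro h
        have : (2:ℝ) • P z = 0 := by
          have := sub_eq_self.1 h
          exact this
        exact (smul_eq_zero.1 this).resolve_left (by norm_num)
      · intro h
        rw [h, smul_zero, sub_zero]
    set sg : E ≃ₗᵢ[ℝ] E := T * s * T⁻¹ with hsg
    have hsga : ∀ z, sg z = z - (2:ℝ) • R z := by
      intro z
      show T (s (T.symm z)) = _
      rw [hsa, map_sub, map_smul, T.apply_symm_apply, hRa]
    have hsg2 : sg * sg = 1 := by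
      rw [hsg]
      calc T * s * T⁻¹ * (T * s * T⁻¹) = T * (s * s) * T⁻¹ := by group
        _ = 1 := by rw [hs2]; group
    have hsginv : sg⁻¹ = sg := inv_eq_of_mul_eq_one_left hsg2
    set U : E ≃ₗᵢ[ℝ] E := s * sg with hU
    have hUinv : U⁻¹ = sg * s := by rw [hU, mul_inv_rev, hsinv, hsginv]
    have hsU : s * U * s⁻¹ = U⁻¹ := by
      rw [hUinv, hsinv, hU, ← mul_assoc, hs2, one_mul]
    have hUa : ∀ z, P z = 0 → U z = z - (2:ℝ) • R z + (4:ℝ) • P (R z) := by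
      intro z hz
      show s (sg z) = _
      rw [hsga, hsa, map_sub, map_smul, hz]
      module
    have hUia : ∀ z, P z = 0 → U⁻¹ z = z - (2:ℝ) • R z := by
      intro z hz
      rw [hUinv]
      show sg (s z) = _
      rw [(hfix z).2 hz, hsga]
    have hNn : ∀ z, P z = 0 → Nn U z = (-2 : ℝ) • (R z - P (R z)) := by
      intro z hz
      rw [Nn_apply]
      have : Co U z = (1 / 2 : ℝ) • (U z + U⁻¹ z) := rfl
      rw [this, hUa z hz, hUia z hz]
      module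
    obtain ⟨η, hη, hη'⟩ := hspec U s y0 R hsU ((hfix y0).2 hy) hR1 (by
      intro z hz1 hz2
      have hz3 := (hfix z).1 hz1
      have h1 : Co U z = (1 / 2 : ℝ) • (U z + U⁻¹ z) := rfl
      have h2 : U z + U⁻¹ z = (2:ℝ) • z := by
        rw [h1] at hz2
        have := congrArg (fun v => (2:ℝ) • v) hz2
        simp only [smul_smul] at this
        norm_num at this
        exact this
      have h3 : U (U z) = (2:ℝ) • U z - z := by
        have h4 : U (U⁻¹ z) = z := U.apply_symm_apply z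
        have h5 := congrArg U h2
        rw [map_add, h4, map_smul] at h5
        rw [← h5]; abel
      have h4 := unip_vec U z h3
      have h5 : U⁻¹ z = z := by
        have : U.symm (U z) = z := U.symm_apply_apply z
        rw [h4] at this
        exact this
      rw [hUia z hz3] at h5
      have h6 := sub_eq_self.1 h5
      exact (smul_eq_zero.1 h6).resolve_left (by norm_num)) (by
      rw [hNn y0 hy, norm_smul]
      have h1 : ‖R y0 - P (R y0)‖ ≤ 1 / (4 * K) * ‖R y0‖ := hT2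
      have h2 : 0 < ‖R y0‖ := norm_pos_iff.2 hT1
      have h3 : ‖(-2:ℝ)‖ = 2 := by norm_num
      rw [h3]
      have h4 : K * (2 * (1 / (4 * K) * ‖R y0‖)) = ‖R y0‖ / 2 := by field_simp; norm_num
      have h5 : K * (2 * ‖R y0 - P (R y0)‖) ≤ K * (2 * (1 / (4 * K) * ‖R y0‖)) := by
        gcongr
      linarith)
    obtain ⟨lam, a, rr, rr', g1, g2, g3, g4, g5, g6⟩ :=
      exact_of_approx hcont (η / 2) (r / 2) (by
        intro ε hε
        obtain ⟨z, hz0, hsz, μ, hμ1, hμ2, hz⟩ := hη' ε hε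
        have hPz := (hfix z).1 hsz
        have hzn : 0 < ‖z‖ := norm_pos_iff.2 hz0
        set x : E := ‖z‖⁻¹ • z with hx
        have hx1 : ‖x‖ = 1 := by
          rw [hx, norm_smul, norm_inv, norm_norm, inv_mul_cancel₀ hzn.ne']
        have hPx : P x = 0 := by rw [hx, map_smul, hPz, smul_zero]
        have he : ‖R x - P (R x) - (μ / 2) • x‖ ≤ ε := by
          have h1 : R x - P (R x) - (μ / 2) • x = (-(1 / 2 : ℝ)) • (‖z‖⁻¹ • (Nn U z + μ • z)) := by
            rw [hNn z hPz, hx, map_smul, map_smul]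
            module
          rw [h1, norm_smul, norm_smul, norm_inv, norm_norm]
          have h2 : ‖z‖⁻¹ * ‖Nn U z + μ • z‖ ≤ ε := by
            rw [inv_mul_le_iff₀ hzn, mul_comm]
            exact hz
          have h3 : ‖(-(1 / 2 : ℝ))‖ = 1 / 2 := by norm_num
          rw [h3]
          linarith
        refine ⟨μ / 2, ‖P (R x)‖, ‖x - R x‖, ‖R x‖, by linarith, by linarith, norm_nonneg _, ?_,
          norm_nonneg _, ?_, norm_nonneg _, ?_, ?_⟩
        · exact (hP1 _).trans ((hR1 x).trans hx1.le)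
        · exact (hR2 x).trans hx1.le
        · exact (hR1 x).trans hx1.le
        · intro α β
          exact approx hn P R hR hPn hRn hP hR1 hR2 x hx1 hPx (μ / 2) ε he α β)
    obtain ⟨θ, K', h1, h2, h3, h4, h5⟩ := hn.rot (by linarith : 0 < lam) (by linarith) g3 g4 g5 g6
    refine ⟨θ, K', h1, ?_, h3, h5⟩
    have h6 := Real.mul_le_sin h1.le h2.le
    have h7 : (2 / Real.pi * θ) ^ 2 < (2 / Real.pi * c) ^ 2 := by
      have : (2 / Real.pi * θ) ^ 2 ≤ Real.sin θ ^ 2 := by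
        gcongr
      linarith
    have h8 : 2 / Real.pi * θ < 2 / Real.pi * c := lt_of_pow_lt_pow_left₀ 2 (by positivity) h7
    exact lt_of_mul_lt_mul_left h8 (by positivity)
  intro z
  rw [hPn z, hn.euclid hrot]

/-- the parallelogram law -/
theorem parallelogram [CompleteSpace E] [TopologicalSpace.SeparableSpace E]
    (htr : ∀ x y : E, ‖x‖ = 1 → ‖y‖ = 1 → ∃ T : E ≃ₗᵢ[ℝ] E, T x = y)
    (P : E →L[ℝ] E) (hP : ∀ x, P (P x) = P x) (hP0 : ∃ x, P x ≠ 0) (hP1 : ∃ x, P x ≠ x)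
    (hnorm : ∀ x y : E, ‖P x‖ = ‖P y‖ → ‖x - P x‖ = ‖y - P y‖ → ‖x‖ = ‖y‖) (x y : E) :
    ‖x + y‖ * ‖x + y‖ + ‖x - y‖ * ‖x - y‖ = 2 * (‖x‖ * ‖x‖ + ‖y‖ * ‖y‖) := by
  classical
  -- the function of two variables
  obtain ⟨Φ, hΦ⟩ : ∃ Φ : ℝ → ℝ → ℝ, ∀ x, ‖x‖ = Φ ‖P x‖ ‖x - P x‖ := by
    refine ⟨fun a c => if h : ∃ x : E, ‖P x‖ = a ∧ ‖x - P x‖ = c then ‖h.choose‖ else 0,
      fun x => ?_⟩
    have h : ∃ x' : E, ‖P x'‖ = ‖P x‖ ∧ ‖x' - P x'‖ = ‖x - P x‖ := ⟨x, rfl, rfl⟩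
    simp only [dif_pos h]
    exact hnorm _ _ h.choose_spec.1.symm h.choose_spec.2.symm
  have hs : ∀ z, ‖z - (2 : ℝ) • P z‖ = ‖z‖ := by
    intro z
    have e1 : P (z - (2 : ℝ) • P z) = - P z := by
      rw [map_sub, map_smul, hP]; module
    apply hnorm
    · rw [e1, norm_neg]
    · rw [e1]
      congr 1
      module
  have hP1' : ∀ z, ‖P z‖ ≤ ‖z‖ := by
    intro z
    have e1 : P z = (1 / 2 : ℝ) • (z - (z - (2 : ℝ) • P z)) := by module
    rw [e1, norm_smul]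
    have := norm_sub_le z (z - (2 : ℝ) • P z)
    rw [hs] at this
    rw [Real.norm_of_nonneg (by norm_num : (0:ℝ) ≤ 1 / 2)]
    linarith
  have hP2' : ∀ z, ‖z - P z‖ ≤ ‖z‖ := by
    intro z
    have e1 : z - P z = (1 / 2 : ℝ) • (z + (z - (2 : ℝ) • P z)) := by module
    rw [e1, norm_smul]
    have := norm_add_le z (z - (2 : ℝ) • P z)
    rw [hs] at this
    rw [Real.norm_of_nonneg (by norm_num : (0:ℝ) ≤ 1 / 2)]
    linarith
  obtain ⟨w1, hw1⟩ := hP0
  obtain ⟨y1, hy1⟩ := hP1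
  have hw1n : 0 < ‖P w1‖ := norm_pos_iff.2 hw1
  have hy1n : 0 < ‖y1 - P y1‖ := norm_pos_iff.2 (sub_ne_zero.2 (Ne.symm hy1))
  set w0 : E := ‖P w1‖⁻¹ • P w1 with hw0
  set y0 : E := ‖y1 - P y1‖⁻¹ • (y1 - P y1) with hy0
  have hw0n : ‖w0‖ = 1 := by
    rw [hw0, norm_smul, norm_inv, norm_norm, inv_mul_cancel₀ hw1n.ne']
  have hy0n : ‖y0‖ = 1 := by
    rw [hy0, norm_smul, norm_inv, norm_norm, inv_mul_cancel₀ hy1n.ne']
  have hPw : P w0 = w0 := by rw [hw0, map_smul, hP]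
  have hPy : P y0 = 0 := by rw [hy0, map_smul, map_sub, hP, sub_self, smul_zero]
  have hpyth := pythagoras htr P hP Φ hΦ hs hP1' hP2' y0 w0 hy0n hw0n hPy hPw
  obtain ⟨T, hT1, hT2⟩ := near htr P hP1' hP2' y0 w0 hy0n hw0n hPy hPw (1 / 2) (by norm_num)
  set R : E →L[ℝ] E := op T * P * op T⁻¹ with hRdef
  have hRa : ∀ z, R z = T (P (T.symm z)) := fun z => rfl
  have hR : ∀ z, R (R z) = R z := by
    intro z
    rw [hRa, hRa, T.symm_apply_apply, hP]
  have hR' : ∀ z, z - R z = T (T.symm z - P (T.symm z)) := by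
    intro z
    rw [map_sub, T.apply_symm_apply, hRa]
  have hRn : ∀ z, ‖z‖ ^ 2 = ‖R z‖ ^ 2 + ‖z - R z‖ ^ 2 := by
    intro z
    rw [hR', hRa, T.norm_map, T.norm_map]
    have := hpyth (T.symm z)
    rw [T.symm.norm_map] at this
    linarith
  have hv : P (R y0) ≠ 0 := by
    intro h0
    have h1 : ‖R y0 - P (R y0)‖ ≤ 1 / 2 * ‖R y0‖ := hT2
    have h2 : 0 < ‖R y0‖ := norm_pos_iff.2 hT1
    rw [h0, sub_zero] at h1
    linarith
  set v : E := P (R y0) with hvdef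
  have hPv : P v = v := hP _
  have hkey : ∀ z, ‖z + v‖ ^ 2 + ‖z - v‖ ^ 2 = 2 * ‖z‖ ^ 2 + 2 * ‖v‖ ^ 2 := by
    intro z
    have h1 := key (fun z => ‖z‖ ^ 2) (by simp) (by intro z; simp) P R hP hR
      (fun z => by linarith [hpyth z]) hRn (P z) y0 (hP z) hPy
    rw [← hvdef] at h1
    have h2 := hpyth (z + v)
    have h3 := hpyth (z - v)
    have h4 := hpyth z
    have e1 : z + v - P (z + v) = z - P z := by rw [map_add, hPv]; abel
    have e2 : z - v - P (z - v) = z - P z := by rw [map_sub, hPv]; abel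
    rw [e1, map_add, hPv] at h2
    rw [e2, map_sub, hPv] at h3
    linarith
  have hvn : 0 < ‖v‖ := norm_pos_iff.2 hv
  by_cases hy0' : y = 0
  · subst hy0'
    rw [add_zero, sub_zero, norm_zero]
    ring
  · have hyn : 0 < ‖y‖ := norm_pos_iff.2 hy0'
    obtain ⟨S, hS⟩ := htr (‖v‖⁻¹ • v) (‖y‖⁻¹ • y)
      (by rw [norm_smul, norm_inv, norm_norm, inv_mul_cancel₀ hvn.ne'])
      (by rw [norm_smul, norm_inv, norm_norm, inv_mul_cancel₀ hyn.ne'])
    rw [map_smul] at hS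
    set c : ℝ := ‖y‖ / ‖v‖ with hc
    have hc0 : 0 < c := by positivity
    have hSv : y = c • S v := by
      have h1 := congrArg (fun u => ‖y‖ • u) hS
      simp only [smul_smul] at h1
      rw [mul_inv_cancel₀ hyn.ne', one_smul] at h1
      rw [← h1, hc, div_eq_mul_inv]
    have hx' : x = c • S (S.symm (c⁻¹ • x)) := by
      rw [S.apply_symm_apply, smul_smul, mul_inv_cancel₀ hc0.ne', one_smul]
    set z : E := S.symm (c⁻¹ • x) with hz
    have h1 := hkey z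
    have n1 : ‖x + y‖ = c * ‖z + v‖ := by
      rw [hx', hSv, ← smul_add, ← map_add, norm_smul, S.norm_map, Real.norm_of_nonneg hc0.le]
    have n2 : ‖x - y‖ = c * ‖z - v‖ := by
      rw [hx', hSv, ← smul_sub, ← map_sub, norm_smul, S.norm_map, Real.norm_of_nonneg hc0.le]
    have n3 : ‖x‖ = c * ‖z‖ := by
      rw [hx', norm_smul, S.norm_map, Real.norm_of_nonneg hc0.le]
    have n4 : ‖y‖ = c * ‖v‖ := by
      rw [hSv, norm_smul, S.norm_map, Real.norm_of_nonneg hc0.le]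
    rw [n1, n2, n3, n4]
    have : c * ‖z + v‖ * (c * ‖z + v‖) + c * ‖z - v‖ * (c * ‖z - v‖) =
        c ^ 2 * (‖z + v‖ ^ 2 + ‖z - v‖ ^ 2) := by ring
    rw [this, h1]
    ring

end Pool.Agent.W687.Rot
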