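import Pool.Agent.W687.RotCalc

/-!
# Approximate eigenvectors of the cosine of an isometry with eigenvalues close to one
-/

set_option autoImplicit false

namespace Pool.Agent.W687.Rot

open Pool.H590R3.Ab Pool.Agent.H984R3.AbPartiOf
open scoped BigOperators

/-- a bump -/
noncomputable def b (v : ℝ) : ℝ := Real.smoothTransition ((1 - v ^ 2) * (4 / 3))

lemma b_contDiff : ContDiff ℝ 2 b := by
  unfold b
  have h1 : ContDiff ℝ 2 Real.smoothTransition := Real.smoothTransition.contDiff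
  exact h1.comp ((contDiff_const.sub (contDiff_id.pow 2)).mul contDiff_const)

lemma b_one {v : ℝ} (h : |v| ≤ 1 / 2) : b v = 1 := by
  unfold b
  apply Real.smoothTransition.one_of_one_le
  have : v ^ 2 ≤ (1 / 2) ^ 2 := by rw [← sq_abs]; gcongr
  nlinarith

lemma b_zero {v : ℝ} (h : 1 ≤ |v|) : b v = 0 := by
  unfold b
  apply Real.smoothTransition.zero_of_nonpos
  have : 1 ^ 2 ≤ v ^ 2 := by rw [← sq_abs v]; gcongr
  nlinarith

/-- the bump at one -/
noncomputable def bd (e u : ℝ) : ℝ := b ((u - 1) / e)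

lemma bd_contDiff (e : ℝ) : ContDiff ℝ 2 (bd e) := by
  unfold bd
  exact b_contDiff.comp ((contDiff_id.sub contDiff_const).div_const _)

lemma bd_one {e u : ℝ} (he : 0 < e) (h : |u - 1| ≤ e / 2) : bd e u = 1 := by
  unfold bd
  apply b_one
  rw [abs_div, abs_of_pos he, div_le_iff₀ he]
  linarith

lemma bd_zero {e u : ℝ} (he : 0 < e) (h : e ≤ |u - 1|) : bd e u = 0 := by
  unfold bd
  apply b_zero
  rw [abs_div, abs_of_pos he, le_div_iff₀ he]
  linarith

/-- the quotient -/
noncomputable def gam (e u : ℝ) : ℝ := (1 - bd e u) / (1 - u)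

lemma gam_contDiff {e : ℝ} (he : 0 < e) : ContDiff ℝ 2 (gam e) := by
  rw [contDiff_iff_contDiffAt]
  intro u
  by_cases hu : u = 1
  · subst hu
    have h1 : gam e =ᶠ[nhds 1] fun _ => 0 := by
      filter_upwards [Metric.ball_mem_nhds (1 : ℝ) (half_pos he)] with v hv
      unfold gam
      rw [bd_one he (by rw [← Real.dist_eq]; exact hv.le), sub_self, zero_div]
    exact contDiffAt_const.congr_of_eventuallyEq h1
  · unfold gam
    exact ((contDiff_const.sub (bd_contDiff e)).contDiffAt).div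
      ((contDiff_const.sub contDiff_id).contDiffAt) (fun h => hu (by linarith [sub_eq_zero.1 h]))

lemma gam_mul {e : ℝ} (he : 0 < e) (u : ℝ) : (u - 1) * gam e u = bd e u - 1 := by
  by_cases hu : u = 1
  · subst hu
    rw [sub_self, zero_mul, bd_one he (by rw [sub_self, abs_zero]; positivity), sub_self]
  · unfold gam
    have : 1 - u ≠ 0 := fun h => hu (by linarith)
    field_simp
    ring

lemma small {r : ℝ} (hr : 0 < r) : ∃ d0 : ℝ, 0 < d0 ∧ ∀ d : ℝ, 0 < d → d < d0 → d ≤ 1 → ∀ c : ℝ,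
    ∑' k : ℤ, |cg (fun u => (u - c) * b ((u - c) / d)) k| ≤ r := by
  have h1 : ContDiff ℝ 2 (fun v => v * b v) := contDiff_id.mul b_contDiff
  obtain ⟨d0, hd0, h⟩ := (decS (fun v => v * b v) h1
    (fun u hu => by rw [b_zero hu, mul_zero])).2 r hr
  refine ⟨d0, hd0, fun d hd hdd hd1 c => ?_⟩
  refine le_trans (le_of_eq ?_) (h d hd hdd hd1 c)
  congr 1
  funext k
  unfold cg
  congr 2
  funext θ
  simp only
  field_simp

variable {E : Type*} [NormedAddCommGroup E] [NormedSpace ℝ E] [CompleteSpace E]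

/-- `Co U - 1` -/
noncomputable def Nn (U : E ≃ₗᵢ[ℝ] E) : E →L[ℝ] E := Co U - (1 : ℝ) • 1

omit [CompleteSpace E] in
lemma Nn_apply (U : E ≃ₗᵢ[ℝ] E) (z : E) : Nn U z = Co U z - z := by
  unfold Nn
  simp

lemma Nn_eq (U : E ≃ₗᵢ[ℝ] E) : Nn U = Ps U (fun u => (u - 1) * 1) := by
  have := Co_Ps U (g := fun _ => 1) contDiff_const 1
  rwa [Ps_one, mul_one] at this

lemma Nn_comm (U : E ≃ₗᵢ[ℝ] E) {g : ℝ → ℝ} (hg : ContDiff ℝ 2 g) :
    Nn U * Ps U g = Ps U g * Nn U := by
  rw [Nn_eq]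
  exact Ps_comm U ((contDiff_id.sub contDiff_const).mul contDiff_const) hg

lemma gam_apply (U : E ≃ₗᵢ[ℝ] E) {e : ℝ} (he : 0 < e) (z : E) :
    Ps U (bd e) z - z = Ps U (gam e) (Nn U z) := by
  have h1 := Co_Ps U (gam_contDiff he) 1
  have h2 : Ps U (fun u => (u - 1) * gam e u) = Ps U (bd e) - 1 := by
    rw [← Ps_one U, Ps_sub U (bd_contDiff e) contDiff_const]
    exact Ps_congr U (fun u _ _ => gam_mul he u)
  rw [h2] at h1
  have h3 : Ps U (gam e) * Nn U = Ps U (bd e) - 1 := by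
    rw [← Nn_comm U (gam_contDiff he)]; exact h1
  have h4 := DFunLike.congr_fun h3 z
  exact h4.symm

theorem spec (r : ℝ) (hr : 0 < r) : ∃ K : ℝ, 0 < K ∧ ∀ (U s : E ≃ₗᵢ[ℝ] E) (y : E)
    (q : E →L[ℝ] E), s * U * s⁻¹ = U⁻¹ → s y = y → (∀ z, ‖q z‖ ≤ ‖z‖) →
    (∀ z, s z = z → Co U z = z → q z = 0) → K * ‖Nn U y‖ < ‖q y‖ →
    ∃ η : ℝ, 0 < η ∧ ∀ ε : ℝ, 0 < ε → ∃ z : E, z ≠ 0 ∧ s z = z ∧ ∃ μ : ℝ, η ≤ μ ∧ μ ≤ r ∧
      ‖Nn U z + μ • z‖ ≤ ε * ‖z‖ := by
  obtain ⟨d0, hd0, hd⟩ := small (half_pos hr)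
  set e : ℝ := min d0 1 / 4 with he
  have hmin : 0 < min d0 1 := lt_min hd0 one_pos
  have hm0 : min d0 1 ≤ d0 := min_le_left _ _
  have hm1 : min d0 1 ≤ 1 := min_le_right _ _
  have he0 : 0 < e := by positivity
  set K1 : ℝ := ∑' k, |cg (gam e) k| with hK1
  have hK10 : 0 ≤ K1 := tsum_nonneg (fun _ => abs_nonneg _)
  refine ⟨K1 + 1, by positivity, ?_⟩
  intro U s y q hs hsy hq hker hKy
  have hsi : ∀ z, s z = z → s⁻¹ z = z := by
    intro z hz
    have : s.symm (s z) = z := s.symm_apply_apply z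
    rw [hz] at this
    exact this
  have hsP : ∀ {g : ℝ → ℝ}, ContDiff ℝ 2 g → ∀ z, s z = z → s (Ps U g z) = Ps U g z := by
    intro g hg z hz
    have := Ps_inv U s hs hg z
    rwa [hsi z hz] at this
  -- step 1
  set y1 : E := Ps U (bd e) y with hy1
  have hsy1 : s y1 = y1 := hsP (bd_contDiff e) y hsy
  have hNy1 : Nn U y1 ≠ 0 := by
    intro h0
    rw [Nn_apply, sub_eq_zero] at h0
    have h1 := hker y1 hsy1 h0
    have h2 := gam_apply U he0 y
    have h3 : y = y1 - Ps U (gam e) (Nn U y) := by rw [← h2]; abel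
    have h4 : ‖q y‖ ≤ K1 * ‖Nn U y‖ := by
      rw [h3, map_sub, h1, zero_sub, norm_neg]
      refine (hq _).trans ?_
      rw [← h3]
      refine (ContinuousLinearMap.le_opNorm _ _).trans ?_
      exact mul_le_mul_of_nonneg_right (Ps_norm U (gam_contDiff he0)) (norm_nonneg _)
    have := norm_nonneg (Nn U y)
    nlinarith
  -- step 2
  have hpos : 0 < ‖Nn U y1‖ := norm_pos_iff.2 hNy1
  obtain ⟨d1, hd1, hd1'⟩ := small (r := ‖Nn U y1‖ / (2 * (‖y‖ + 1))) (by positivity)
  set δ : ℝ := min (d1 / 2) e with hδ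
  have hδ0 : 0 < δ := by positivity
  have hδe : δ ≤ e := min_le_right _ _
  have hδd : δ < d1 := lt_of_le_of_lt (min_le_left _ _) (by linarith)
  have hNb : ∀ d : ℝ, Nn U * Ps U (bd d) = Ps U (fun u => (u - 1) * b ((u - 1) / d)) := by
    intro d
    exact Co_Ps U (bd_contDiff d) 1
  have hgd : ∀ d c : ℝ, ContDiff ℝ 2 (fun u : ℝ => (u - c) * b ((u - c) / d)) := by
    intro d c
    exact (contDiff_id.sub contDiff_const).mul
      (b_contDiff.comp ((contDiff_id.sub contDiff_const).div_const _))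
  have h5 : ‖Nn U (Ps U (bd δ) y)‖ < ‖Nn U y1‖ := by
    have h6 : Nn U (Ps U (bd δ) y) = Ps U (fun u => (u - 1) * b ((u - 1) / δ)) y := by
      rw [← hNb]; rfl
    rw [h6]
    refine lt_of_le_of_lt (ContinuousLinearMap.le_opNorm _ _) ?_
    have h7 := (Ps_norm U (hgd δ 1)).trans (hd1' δ hδ0 hδd (by linarith) 1)
    calc _ ≤ ‖Nn U y1‖ / (2 * (‖y‖ + 1)) * ‖y‖ := mul_le_mul_of_nonneg_right h7 (norm_nonneg _)
      _ < ‖Nn U y1‖ := by
        have hy0 : 0 ≤ ‖y‖ := norm_nonneg y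
        rw [div_mul_eq_mul_div, div_lt_iff₀ (by positivity)]
        nlinarith
  set f : ℝ → ℝ := fun u => bd e u - bd δ u with hf
  have hfc : ContDiff ℝ 2 f := (bd_contDiff e).sub (bd_contDiff δ)
  set z0 : E := Ps U f y with hz0
  have hz0' : z0 = y1 - Ps U (bd δ) y := by
    rw [hz0, hf, ← Ps_sub U (bd_contDiff e) (bd_contDiff δ)]; rfl
  have hz0ne : z0 ≠ 0 := by
    intro h0
    rw [h0] at hz0'
    have : y1 = Ps U (bd δ) y := (sub_eq_zero.1 hz0'.symm)
    rw [← this] at h5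
    exact lt_irrefl _ h5
  have hsz0 : s z0 = z0 := hsP hfc y hsy
  -- constants
  set K2 : ℝ := ∑' k, |cg (gam (δ / 2)) k| + 1 with hK2
  have hK20 : 0 < K2 := by
    have : 0 ≤ ∑' k, |cg (gam (δ / 2)) k| := tsum_nonneg (fun _ => abs_nonneg _)
    linarith
  refine ⟨1 / (2 * K2), by positivity, ?_⟩
  intro ε hε
  set ε1 : ℝ := min ε (min (1 / (2 * K2)) (r / 2)) with hε1
  have hε10 : 0 < ε1 := by positivity
  have hε1ε : ε1 ≤ ε := min_le_left _ _
  have hε1K : ε1 ≤ 1 / (2 * K2) := (min_le_right _ _).trans (min_le_left _ _)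
  have hε1r : ε1 ≤ r / 2 := (min_le_right _ _).trans (min_le_right _ _)
  obtain ⟨d2, hd2, hd2'⟩ := small hε10
  obtain ⟨M, hM⟩ := exists_nat_gt (4 / min d2 1)
  have hmin2 : 0 < min d2 1 := lt_min hd2 one_pos
  have hM0 : (0 : ℝ) < M := lt_trans (by positivity) hM
  set δ' : ℝ := 2 / M with hδ'
  have hδ'0 : 0 < δ' := by positivity
  have hδ'm : 2 * δ' < min d2 1 := by
    rw [div_lt_iff₀ hmin2] at hM
    rw [hδ', mul_div_assoc', div_lt_iff₀ hM0]
    linarith
  have hMδ : (M : ℝ) * δ' = 2 := by rw [hδ']; field_simp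
  set c : ℕ → ℝ := fun j => -1 + j * δ' with hc
  set W : ℕ → ℝ → ℝ := fun j u => w ((u - c j) / δ') with hW
  have hWc : ∀ j, ContDiff ℝ 2 (W j) := by
    intro j
    exact w_contDiff.comp ((contDiff_id.sub contDiff_const).div_const _)
  have hsum : ∑ j ∈ Finset.range (M + 1), Ps U (W j) = 1 := by
    rw [Ps_sum U hWc, ← Ps_one U]
    apply Ps_congr
    intro u hu1 hu2
    have h : ∀ j : ℕ, W j u = w ((u + 1) / δ' - j) := by
      intro j
      simp only [hW, hc]
      congr 1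
      field_simp
      ring
    simp only [h]
    rw [w_sum, Real.smoothTransition.one_of_one_le, Real.smoothTransition.zero_of_nonpos, sub_zero]
    · have : (u + 1) / δ' ≤ M := by
        rw [div_le_iff₀ hδ'0, hMδ]
        linarith
      linarith
    · have : 0 ≤ (u + 1) / δ' := div_nonneg (by linarith) hδ'0.le
      linarith
  obtain ⟨j, hjM, hj⟩ : ∃ j ∈ Finset.range (M + 1), Ps U (W j) z0 ≠ 0 := by
    by_contra hcon
    push Not at hcon
    have h8 := DFunLike.congr_fun hsum z0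
    rw [sum_apply, Finset.sum_eq_zero hcon] at h8
    exact hz0ne h8.symm
  set z : E := Ps U (W j) z0 with hz
  have hszz : s z = z := hsP (hWc j) z0 hsz0
  have hzn : 0 < ‖z‖ := norm_pos_iff.2 hj
  -- approximate eigenvector
  have hbc : ContDiff ℝ 2 (fun u : ℝ => b ((u - c j) / (2 * δ'))) :=
    b_contDiff.comp ((contDiff_id.sub contDiff_const).div_const _)
  have happ : ‖Co U z - c j • z‖ ≤ ε1 * ‖z‖ := by
    have h8 : Ps U (fun u => b ((u - c j) / (2 * δ'))) * Ps U (W j) = Ps U (W j) := by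
      rw [Ps_mul U hbc (hWc j)]
      apply Ps_congr
      intro u _ _
      by_cases h9 : 1 ≤ |(u - c j) / δ'|
      · simp only [hW, w_zero _ h9, mul_zero]
      · rw [b_one, one_mul]
        push Not at h9
        have h10 : (u - c j) / (2 * δ') = (u - c j) / δ' / 2 := by field_simp
        rw [h10, abs_div, abs_of_pos (by norm_num : (0:ℝ) < 2)]
        linarith
    have h9 : Ps U (fun u => b ((u - c j) / (2 * δ'))) z = z := DFunLike.congr_fun h8 z0
    have h10 : Co U z - c j • z =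
        Ps U (fun u => (u - c j) * b ((u - c j) / (2 * δ'))) z := by
      rw [← Co_Ps U hbc (c j)]
      show _ = (Co U - c j • 1) (Ps U (fun u => b ((u - c j) / (2 * δ'))) z)
      rw [h9]
      simp
    rw [h10]
    refine (ContinuousLinearMap.le_opNorm _ _).trans ?_
    refine mul_le_mul_of_nonneg_right ?_ hzn.le
    exact (Ps_norm U (hgd _ _)).trans (hd2' (2 * δ') (by positivity)
      (hδ'm.trans_le (min_le_left _ _)) (hδ'm.trans_le (min_le_right _ _)).le (c j))
  have hcj : c j ≤ 1 := by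
    have : (j : ℝ) ≤ M := by
      rw [Finset.mem_range] at hjM
      exact_mod_cast Nat.lt_succ_iff.1 hjM
    have : (j : ℝ) * δ' ≤ 2 := by rw [← hMδ]; exact mul_le_mul_of_nonneg_right this hδ'0.le
    simp only [hc]
    linarith
  have hNz : Nn U z + (1 - c j) • z = Co U z - c j • z := by
    rw [Nn_apply, sub_smul, one_smul]; abel
  have hNz1 : ‖Nn U z‖ ≤ (ε1 + (1 - c j)) * ‖z‖ := by
    have h8 : Nn U z = (Co U z - c j • z) - (1 - c j) • z := by rw [← hNz]; abel
    rw [h8]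
    refine (norm_sub_le _ _).trans ?_
    rw [norm_smul, Real.norm_of_nonneg (by linarith : (0:ℝ) ≤ 1 - c j), add_mul]
    linarith
  -- lower bound
  have hlow : 1 / K2 ≤ ε1 + (1 - c j) := by
    have h8 : Ps U (bd (δ / 2)) z = 0 := by
      have h9 : Ps U (bd (δ / 2)) * Ps U f = 0 := by
        rw [Ps_mul U (bd_contDiff _) hfc]
        have h11 : Ps U (fun u => bd (δ / 2) u * f u) =
            Ps U (fun _ => (1 : ℝ)) - Ps U (fun _ => (1 : ℝ)) := by
          rw [Ps_sub U contDiff_const contDiff_const]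
          apply Ps_congr
          intro u _ _
          rw [sub_self]
          by_cases h12 : δ / 2 ≤ |u - 1|
          · rw [bd_zero (by positivity) h12, zero_mul]
          · push Not at h12
            simp only [hf]
            rw [bd_one he0 (by linarith), bd_one hδ0 h12.le, sub_self, mul_zero]
        rw [h11, sub_self]
      have h10 : Ps U (bd (δ / 2)) z = Ps U (W j) ((Ps U (bd (δ / 2)) * Ps U f) y) := by
        have := DFunLike.congr_fun (Ps_comm U (bd_contDiff (δ / 2)) (hWc j)) z0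
        exact this
      rw [h10, h9]
      simp
    have h9 := gam_apply U (half_pos hδ0) z
    rw [h8, zero_sub] at h9
    have h10 : ‖z‖ ≤ K2 * ‖Nn U z‖ := by
      rw [← norm_neg, h9]
      refine (ContinuousLinearMap.le_opNorm _ _).trans ?_
      refine mul_le_mul_of_nonneg_right ?_ (norm_nonneg _)
      have := Ps_norm U (gam_contDiff (half_pos hδ0))
      linarith
    have h11 : ‖z‖ ≤ K2 * ((ε1 + (1 - c j)) * ‖z‖) :=
      h10.trans (mul_le_mul_of_nonneg_left hNz1 hK20.le)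
    rw [div_le_iff₀ hK20]
    have h12 : 1 * ‖z‖ ≤ ((ε1 + (1 - c j)) * K2) * ‖z‖ := by nlinarith
    exact le_of_mul_le_mul_right h12 hzn
  -- upper bound
  have hup : 1 - c j ≤ r / 2 + ε1 := by
    have h9 : Ps U (bd (2 * e)) * Ps U f = Ps U f := by
      rw [Ps_mul U (bd_contDiff _) hfc]
      apply Ps_congr
      intro u _ _
      by_cases h12 : e ≤ |u - 1|
      · simp only [hf]
        rw [bd_zero he0 h12, bd_zero hδ0 (hδe.trans h12), sub_self, mul_zero]
      · push Not at h12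
        rw [bd_one (by positivity) (by linarith), one_mul]
    have h8 : Ps U (bd (2 * e)) z = z := by
      have h10 : Ps U (bd (2 * e)) z = Ps U (W j) ((Ps U (bd (2 * e)) * Ps U f) y) := by
        have := DFunLike.congr_fun (Ps_comm U (bd_contDiff (2 * e)) (hWc j)) z0
        exact this
      rw [h10, h9]
    have h10 : ‖Nn U z‖ ≤ r / 2 * ‖z‖ := by
      have h11 : Nn U z = Ps U (fun u => (u - 1) * b ((u - 1) / (2 * e))) z := by
        rw [← hNb]
        show _ = Nn U (Ps U (bd (2 * e)) z)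
        rw [h8]
      rw [h11]
      refine (ContinuousLinearMap.le_opNorm _ _).trans ?_
      refine mul_le_mul_of_nonneg_right ?_ hzn.le
      exact (Ps_norm U (hgd _ _)).trans (hd (2 * e) (by positivity)
        (by rw [he]; linarith) (by rw [he]; linarith) 1)
    have h11 : (1 - c j) * ‖z‖ ≤ (r / 2 + ε1) * ‖z‖ := by
      have h12 : (1 - c j) • z = (Co U z - c j • z) - Nn U z := by rw [← hNz]; abel
      have h13 : ‖(1 - c j) • z‖ ≤ ε1 * ‖z‖ + r / 2 * ‖z‖ := by
        rw [h12]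
        exact (norm_sub_le _ _).trans (add_le_add happ h10)
      rw [norm_smul, Real.norm_of_nonneg (by linarith : (0:ℝ) ≤ 1 - c j)] at h13
      linarith
    exact le_of_mul_le_mul_right h11 hzn
  refine ⟨z, hj, hszz, 1 - c j, ?_, by linarith, ?_⟩
  · have h8 : 1 / K2 = 1 / (2 * K2) + 1 / (2 * K2) := by field_simp; norm_num
    linarith
  · rw [hNz]
    exact happ.trans (mul_le_mul_of_nonneg_right hε1ε hzn.le)

end Pool.Agent.W687.Rot
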